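import Pool.Agent.P.MP_2b44f0_gt.Iface

/-! The two point integral is a Beta integral. -/

namespace Pool.Agent.P.MP_2b44f0_gt

open MeasureTheory Set ProbabilityTheory

namespace Beta

theorem pt {A B S R a b : ℝ} (p q : ℝ) (hA : 0 < A) (hB : 0 < B) (hS : 0 < S) (hR : 0 < R)
    (ha : 0 < a) (hb : 0 < b) : A ^ p * (B / a) ^ q / S ^ ((p + q) / 2 + 1) =
      R ^ (p / 2) * (R / a ^ 2) ^ (q / 2) * b / 2 * (2 * A * B / (R * S ^ 2) *
        (1 / b * (A ^ 2 / (R * S)) ^ ((p + 1) / 2 - 1) * (B ^ 2 / (R * S)) ^ ((q + 1) / 2 - 1))) := by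
  refine Real.log_injOn_pos (mem_Ioi.2 (by positivity)) (mem_Ioi.2 (by positivity)) ?_
  simp (disch := positivity) only [Real.log_mul, Real.log_div, Real.log_rpow, Real.log_pow,
    Real.log_one]
  push_cast
  ring

theorem der (a x : ℝ) : HasDerivAt (fun x : ℝ => (1 + x * a) ^ 2 / ((1 + a ^ 2) * (1 + x ^ 2)))
    (2 * (1 + x * a) * (a - x) / ((1 + a ^ 2) * (1 + x ^ 2) ^ 2)) x := by
  have h1 := (((hasDerivAt_id' x).mul_const a).const_add 1).fun_pow 2
  have h2 := (((hasDerivAt_id' x).fun_pow 2).const_add 1).const_mul (1 + a ^ 2)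
  refine (h1.fun_div h2 (by positivity)).congr_deriv ?_
  field_simp
  ring

end Beta

theorem all_beta : S_beta := by
  intro p q a hp hq ha e
  have hα : 0 < (p + 1) / 2 := by positivity
  have hβ : 0 < (q + 1) / 2 := by positivity
  have hb := beta_pos hα hβ
  have pos : ∀ x ∈ Ioo (-a⁻¹) a, 0 < 1 + x * a ∧ 0 < a - x := fun x hx =>
    ⟨by have := mul_lt_mul_of_pos_right hx.1 ha
        rw [neg_mul, inv_mul_cancel₀ ha.ne'] at this
        linarith, sub_pos.2 hx.2⟩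
  have hc := (continuous_iff_continuousAt.2 fun x => (Beta.der a x).continuousAt).continuousOn
    (s := Icc (-a⁻¹) a)
  have hm := strictMonoOn_of_deriv_pos (convex_Icc _ _) hc fun x hx => by
    rw [interior_Icc] at hx
    obtain ⟨h1, h2⟩ := pos x hx
    rw [(Beta.der a x).deriv]
    positivity
  have im := hc.image_Ioo_of_strictMonoOn (by linarith [inv_pos.2 ha]) hm
  rw [show (1 + -a⁻¹ * a) ^ 2 / ((1 + a ^ 2) * (1 + (-a⁻¹) ^ 2)) = 0 by
      rw [neg_mul, inv_mul_cancel₀ ha.ne']; simp,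
    show (1 + a * a) ^ 2 / ((1 + a ^ 2) * (1 + a ^ 2)) = 1 by field_simp] at im
  have h := lintegral_betaPDF_eq_one hα hβ
  rw [lintegral_betaPDF, ← im, lintegral_image_eq_lintegral_deriv_mul_of_monotoneOn
    measurableSet_Ioo (fun x _ => (Beta.der a x).hasDerivWithinAt)
    (hm.monotoneOn.mono Ioo_subset_Icc_self)] at h
  have k : ((p + q) / p) ^ (p / 2) * ((p + q) / q) ^ (q / 2) *
      (Real.Gamma ((p + 1) / 2) * Real.Gamma ((q + 1) / 2)) / (2 * Real.Gamma ((p + q) / 2 + 1)) =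
      (1 + a ^ 2) ^ (p / 2) * ((1 + a ^ 2) / a ^ 2) ^ (q / 2) *
        beta ((p + 1) / 2) ((q + 1) / 2) / 2 := by
    rw [beta, show (p + 1) / 2 + (q + 1) / 2 = (p + q) / 2 + 1 by ring,
      show (p + q) / p = 1 + a ^ 2 by rw [← e]; field_simp,
      show (p + q) / q = (1 + a ^ 2) / a ^ 2 by rw [← e]; field_simp]
    ring
  rw [k, ← mul_one (ENNReal.ofReal _), ← h, ← lintegral_const_mul' _ _ ENNReal.ofReal_ne_top]
  refine setLIntegral_congr_fun measurableSet_Ioo fun x hx => ?_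
  obtain ⟨h1, h2⟩ := pos x hx
  rw [← ENNReal.ofReal_mul (by positivity), ← ENNReal.ofReal_mul (by positivity),
    show 1 - x / a = (a - x) / a by field_simp,
    show 1 - (1 + x * a) ^ 2 / ((1 + a ^ 2) * (1 + x ^ 2)) =
      (a - x) ^ 2 / ((1 + a ^ 2) * (1 + x ^ 2)) by field_simp; ring,
    Beta.pt p q h1 h2 (by positivity) (by positivity : 0 < 1 + a ^ 2) ha hb]

end Pool.Agent.P.MP_2b44f0_gt
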