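import Mathlib

/-!
Hypersurfaces of Euclidean space given by local defining functions, their shape operator,
the density of a cone and the Simons cone.
-/

namespace Pool.Agent.P.MP_2b44f0_gt

open MeasureTheory

variable {ι : Type} [Fintype ι]

/-- the unit normal `∇F / |∇F|` of the level sets of `F` -/
noncomputable def normal (F : EuclideanSpace ℝ ι → ℝ) (y : EuclideanSpace ℝ ι) :
    EuclideanSpace ℝ ι :=
  ‖gradient F y‖⁻¹ • gradient F y

/-- the orthogonal projection `v ↦ v - ⟪ν, v⟫ ν` onto the tangent hyperplane at `y` -/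
noncomputable def tangentProj (F : EuclideanSpace ℝ ι → ℝ) (y : EuclideanSpace ℝ ι) :
    EuclideanSpace ℝ ι →L[ℝ] EuclideanSpace ℝ ι :=
  ContinuousLinearMap.id ℝ (EuclideanSpace ℝ ι) -
    (innerSL ℝ (normal F y)).smulRight (normal F y)

/-- the shape operator at `y`: the differential of the unit normal on the tangent hyperplane,
extended by zero in the normal direction -/
noncomputable def shape (F : EuclideanSpace ℝ ι → ℝ) (y : EuclideanSpace ℝ ι) :
    EuclideanSpace ℝ ι →L[ℝ] EuclideanSpace ℝ ι :=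
  (fderiv ℝ (normal F) y).comp (tangentProj F y)

/-- the mean curvature: the sum of the principal curvatures -/
noncomputable def meanCurv (F : EuclideanSpace ℝ ι → ℝ) (y : EuclideanSpace ℝ ι) : ℝ :=
  LinearMap.trace ℝ (EuclideanSpace ℝ ι) (shape F y).toLinearMap

/-- `|A|²`: the sum of the squares of the principal curvatures -/
noncomputable def sqCurv (F : EuclideanSpace ℝ ι → ℝ) (y : EuclideanSpace ℝ ι) : ℝ :=
  LinearMap.trace ℝ (EuclideanSpace ℝ ι) ((shape F y).comp (shape F y)).toLinearMap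

/-- in the open set `U` the set `C` is the regular zero set of the `C²` function `F` -/
structure IsChart (C U : Set (EuclideanSpace ℝ ι)) (F : EuclideanSpace ℝ ι → ℝ) : Prop where
  isOpen : IsOpen U
  smooth : ContDiffOn ℝ 2 F U
  grad_ne : ∀ y ∈ U, gradient F y ≠ 0
  zero_set : ∀ y ∈ U, (y ∈ C ↔ F y = 0)

/-- near `x` the set `C` is a `C²` minimal hypersurface with `|y|² |A(y)|² ≥ n` -/
def Pinched (n : ℝ) (C : Set (EuclideanSpace ℝ ι)) (x : EuclideanSpace ℝ ι) : Prop :=
  ∃ U F, x ∈ U ∧ IsChart C U F ∧ ∀ y ∈ U ∩ C, meanCurv F y = 0 ∧ n ≤ ‖y‖ ^ 2 * sqCurv F y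

/-- near `x` the set `C` is a smooth minimal hypersurface on which `|y|² |A(y)|²` is a nonzero
constant -/
def ConstCurv (C : Set (EuclideanSpace ℝ ι)) (x : EuclideanSpace ℝ ι) : Prop :=
  ∃ U F, ∃ S : ℝ, x ∈ U ∧ IsChart C U F ∧ ContDiffOn ℝ (⊤ : ℕ∞) F U ∧ S ≠ 0 ∧
    ∀ y ∈ U ∩ C, meanCurv F y = 0 ∧ ‖y‖ ^ 2 * sqCurv F y = S

/-- `x` is a nearest point in `C` of some point outside `C` -/
def Touched (C : Set (EuclideanSpace ℝ ι)) (x : EuclideanSpace ℝ ι) : Prop :=
  ∃ y, y ∉ C ∧ ∀ z ∈ C, dist y x ≤ dist y z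

/-- the `d`-dimensional density: the `d`-dimensional area of `C` in the unit ball divided by
the volume of the unit ball of `ℝ^d` -/
noncomputable def density (d : ℕ) (C : Set (EuclideanSpace ℝ ι)) : ENNReal :=
  Measure.euclideanHausdorffMeasure d (C ∩ Metric.ball 0 1) /
    volume (Metric.ball (0 : EuclideanSpace ℝ (Fin d)) 1)

/-- the Simons cone `|x| = |y|` in `ℝ^(m+1) × ℝ^(m+1)` -/
def simons (m : ℕ) : Set (EuclideanSpace ℝ (Fin (m + 1) ⊕ Fin (m + 1))) :=
  {z | ∑ i, z (Sum.inl i) ^ 2 = ∑ i, z (Sum.inr i) ^ 2}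

end Pool.Agent.P.MP_2b44f0_gt
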