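import Pool.Agent.P.MP_2b44f0_gt.Iface

/-!
The local graph parametrisation of a chart over the tangent hyperplane.
-/

namespace Pool.Agent.P.MP_2b44f0_gt

open MeasureTheory Set Filter
open scoped ENNReal NNReal RealInnerProductSpace Topology

namespace Foot

variable {ι : Type} [Fintype ι]

theorem tangentProj_apply (F : E ι → ℝ) (y v : E ι) :
    tangentProj F y v = v - ⟪normal F y, v⟫ • normal F y := by
  simp [tangentProj]

theorem inner_tangentProj {F : E ι → ℝ} {y : E ι} (h : ‖normal F y‖ = 1) (v : E ι) :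
    ⟪normal F y, tangentProj F y v⟫ = 0 := by
  rw [tangentProj_apply, inner_sub_right, inner_smul_right, real_inner_self_eq_norm_sq, h]
  ring

/-- comparison of the splittings at `x₀` and at `x` -/
noncomputable def cmp (F : E ι → ℝ) (x₀ x : E ι) : E ι →L[ℝ] E ι :=
  (tangentProj F x₀).comp (tangentProj F x) + (innerSL ℝ (normal F x)).smulRight (normal F x₀)

theorem cmp_apply (F : E ι → ℝ) (x₀ x w : E ι) :
    cmp F x₀ x w = tangentProj F x₀ (tangentProj F x w) + ⟪normal F x, w⟫ • normal F x₀ := by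
  simp [cmp]

theorem cmp_self {F : E ι → ℝ} {x₀ : E ι} (h : ‖normal F x₀‖ = 1) : cmp F x₀ x₀ = 1 := by
  ext1 w
  rw [cmp_apply, tangentProj_apply F x₀ (tangentProj F x₀ w), inner_tangentProj h,
    tangentProj_apply]
  simp

theorem continuousAt_cmp {F : E ι → ℝ} {x₀ : E ι} (h : ContinuousAt (normal F) x₀) :
    ContinuousAt (cmp F x₀) x₀ := by
  have h1 : ∀ {g : E ι → E ι}, ContinuousAt g x₀ → ContinuousAt
      (fun x => (innerSL ℝ (normal F x)).smulRight (g x)) x₀ := fun {g} hg =>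
    ((ContinuousLinearMap.smulRightL ℝ (E ι) (E ι)).continuous₂.continuousAt.comp
      (f := fun x => (innerSL ℝ (normal F x), g x))
      (((innerSL ℝ).continuous.continuousAt.comp h).prodMk hg) :)
  unfold cmp tangentProj
  exact (continuousAt_const.clm_comp (continuousAt_const.sub (h1 h))).add (h1 continuousAt_const)

theorem exists_foot (hS : S_shape) {C U : Set (E ι)} {F : E ι → ℝ} (hc : IsChart C U F)
    {x₀ : E ι} (hx₀ : x₀ ∈ U ∩ C) {η : ℝ≥0} (hη : 1 < η) :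
    ∃ (V O : Set (E ι)) (y : E ι → E ι), IsOpen V ∧ x₀ ∈ V ∧ V ⊆ U ∧ IsOpen O ∧ Measurable y ∧
      (∀ x ∈ C ∩ V, tangentProj F x₀ x ∈ O ∧ y (tangentProj F x₀ x) = x) ∧
      (∀ z z', tangentProj F x₀ z = tangentProj F x₀ z' → (z ∈ O ↔ z' ∈ O) ∧ y z = y z') ∧
      (∀ z ∈ O, y z ∈ C ∩ V ∧ tangentProj F x₀ (y z) = tangentProj F x₀ z ∧
        ∃ D : E ι →L[ℝ] E ι, HasFDerivAt y D z ∧
          ∀ w, tangentProj F x₀ (D w) = tangentProj F x₀ w ∧ ⟪normal F (y z), D w⟫ = 0) ∧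
      (∀ x ∈ C ∩ V, ∀ x' ∈ C ∩ V,
        dist x x' ≤ η * dist (tangentProj F x₀ x) (tangentProj F x₀ x')) ∧
      ∀ x ∈ V, (η : ℝ)⁻¹ ≤ |(cmp F x₀ x).det| ∧ |(cmp F x₀ x).det| ≤ η := by
  classical
  obtain ⟨hν, -, hsh⟩ := hS ι C U F hc
  set ν₀ := normal F x₀ with hν₀
  set P := tangentProj F x₀ with hP
  have hU : U ∈ 𝓝 x₀ := hc.isOpen.mem_nhds hx₀.1
  have hn₀ : ‖ν₀‖ = 1 := (hsh x₀ hx₀.1).1
  have hνν : ⟪ν₀, ν₀⟫ = 1 := by rw [real_inner_self_eq_norm_sq, hn₀]; norm_num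
  have hg₀ : 0 < ‖gradient F x₀‖ := norm_pos_iff.2 (hc.grad_ne x₀ hx₀.1)
  set g₀ := ‖gradient F x₀‖ with hg₀def
  have hPa : ∀ v, P v = v - ⟪ν₀, v⟫ • ν₀ := tangentProj_apply F x₀
  have hPi : ∀ v, ⟪ν₀, P v⟫ = 0 := inner_tangentProj hn₀
  have hPP : ∀ v, P (P v) = P v := fun v => by rw [hPa (P v), hPi]; simp
  let Φ : E ι → E ι := fun z => z + (g₀⁻¹ * F z - ⟪ν₀, z⟫) • ν₀
  let Φ' : E ι → E ι →L[ℝ] E ι := fun z => ContinuousLinearMap.id ℝ _ +
    (g₀⁻¹ • fderiv ℝ F z - innerSL ℝ ν₀).smulRight ν₀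
  have hΦ'a : ∀ z w, Φ' z w = w + (g₀⁻¹ * fderiv ℝ F z w - ⟪ν₀, w⟫) • ν₀ := fun z w => by
    simp [Φ']
  have hF : ∀ z ∈ U, HasStrictFDerivAt F (fderiv ℝ F z) z := fun z hz =>
    (hc.smooth.contDiffAt (hc.isOpen.mem_nhds hz)).hasStrictFDerivAt (by norm_num)
  have hΦ : ∀ z ∈ U, HasStrictFDerivAt Φ (Φ' z) z := fun z hz =>
    (hasStrictFDerivAt_id z).add ((((hF z hz).const_mul g₀⁻¹).sub
      (innerSL ℝ ν₀).hasStrictFDerivAt).smul_const ν₀)
  have hΦ0 : Φ' x₀ = (ContinuousLinearEquiv.refl ℝ (E ι) : E ι →L[ℝ] E ι) := by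
    ext1 w
    rw [hΦ'a, (hsh x₀ hx₀.1).2.1 w, ← mul_assoc, inv_mul_cancel₀ hg₀.ne']
    simp [hν₀]
  have hΦs : HasStrictFDerivAt Φ (ContinuousLinearEquiv.refl ℝ (E ι) : E ι →L[ℝ] E ι) x₀ :=
    hΦ0 ▸ hΦ x₀ hx₀.1
  have hΦC : ∀ z, F z = 0 → Φ z = P z := fun z hz => by
    simp [Φ, hz, hPa, sub_eq_add_neg]
  set e := hΦs.toOpenPartialHomeomorph Φ with he
  have heΦ : (e : E ι → E ι) = Φ := rfl
  obtain ⟨t, ht, hlip⟩ := hΦs.to_localInverse.exists_lipschitzOnWith_of_nnnorm_lt η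
    (lt_of_le_of_lt (by
      rw [ContinuousLinearEquiv.refl_symm]
      exact_mod_cast ContinuousLinearMap.norm_id_le) hη)
  have hlip' : LipschitzOnWith η e.symm t := hlip
  have hcF : ContinuousAt (fderiv ℝ F) x₀ :=
    (hc.smooth.continuousOn_fderiv_of_isOpen hc.isOpen (by norm_num)).continuousAt hU
  have hcΦ' : ContinuousAt (fun z => (Φ' z).det) x₀ := by
    refine ContinuousLinearMap.continuous_det.continuousAt.comp (continuousAt_const.add ?_)
    exact ((ContinuousLinearMap.smulRightL ℝ (E ι) (E ι)).continuous₂.continuousAt.comp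
      (f := fun z => (g₀⁻¹ • fderiv ℝ F z - innerSL ℝ ν₀, ν₀))
      (((hcF.const_smul g₀⁻¹).sub continuousAt_const).prodMk continuousAt_const) :)
  have h1 : ∀ᶠ z in 𝓝 x₀, (Φ' z).det ≠ 0 := hcΦ'.eventually_ne (by
    rw [hΦ0]; simp [ContinuousLinearMap.det])
  have hcK : ContinuousAt (fun x => |(cmp F x₀ x).det|) x₀ :=
    (ContinuousLinearMap.continuous_det.continuousAt.comp
      (continuousAt_cmp (hν.continuousOn.continuousAt hU))).abs
  have hK0 : |(cmp F x₀ x₀).det| = 1 := by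
    rw [cmp_self hn₀]; simp [ContinuousLinearMap.det, ContinuousLinearMap.one_def]
  have hη' : (1 : ℝ) < η := by exact_mod_cast hη
  have h2 : ∀ᶠ x in 𝓝 x₀, |(cmp F x₀ x).det| ∈ Icc (η : ℝ)⁻¹ η :=
    hcK.eventually (p := fun r => r ∈ Icc (η : ℝ)⁻¹ η)
      (by simp only [hK0]; exact Icc_mem_nhds (inv_lt_one_of_one_lt₀ hη') hη')
  have h3 : ∀ᶠ x in 𝓝 x₀, Φ x ∈ t := hΦs.continuousAt.eventually ht
  have h4 : ∀ᶠ x in 𝓝 x₀, x ∈ e.source :=
    e.open_source.mem_nhds hΦs.mem_toOpenPartialHomeomorph_source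
  obtain ⟨V, hV, hVo, hxV⟩ := eventually_nhds_iff.1 (h1.and (h2.and (h3.and (h4.and hU))))
  have hVU : V ⊆ U := fun x hx => (hV x hx).2.2.2.2
  have hO : IsOpen (P ⁻¹' (e.target ∩ e.symm ⁻¹' V)) :=
    (e.isOpen_inter_preimage_symm hVo).preimage P.continuous
  set O := P ⁻¹' (e.target ∩ e.symm ⁻¹' V) with hOdef
  have hleft : ∀ x ∈ C ∩ V, P x ∈ e.target ∧ e.symm (P x) = x ∧ P x ∈ t := fun x hx => by
    have hFx := (hc.zero_set x (hVU hx.2)).1 hx.1
    rw [← hΦC x hFx]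
    exact ⟨e.map_source (hV x hx.2).2.2.2.1, e.left_inv (hV x hx.2).2.2.2.1, (hV x hx.2).2.2.1⟩
  refine ⟨V, O, O.piecewise (fun z => e.symm (P z)) fun _ => x₀, hVo, hxV, hVU, hO,
    ContinuousOn.measurable_piecewise (e.continuousOn_symm.comp P.continuous.continuousOn
      fun z hz => hz.1) continuousOn_const hO.measurableSet, fun x hx => ?_, fun z z' h => ?_,
    fun z hz => ?_, fun x hx x' hx' => ?_, fun x hx => (hV x hx).2.1⟩
  · have h := hleft x hx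
    have hm : P x ∈ O := by
      simp only [hOdef, mem_preimage, mem_inter_iff, hPP, h.2.1]
      exact ⟨h.1, hx.2⟩
    exact ⟨hm, by rw [piecewise_eq_of_mem _ _ _ hm, hPP, h.2.1]⟩
  · have hiff : z ∈ O ↔ z' ∈ O := by simp only [hOdef, mem_preimage, h]
    refine ⟨hiff, ?_⟩
    by_cases hz : z ∈ O
    · rw [piecewise_eq_of_mem _ _ _ hz, piecewise_eq_of_mem _ _ _ (hiff.1 hz), h]
    · rw [piecewise_eq_of_notMem _ _ _ hz, piecewise_eq_of_notMem _ _ _ (mt hiff.2 hz)]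
  · rw [piecewise_eq_of_mem _ _ _ hz]
    set x := e.symm (P z) with hx
    have hxV : x ∈ V := hz.2
    have hΦx : Φ x = P z := e.right_inv hz.1
    have hFx : F x = 0 := by
      have := hPi z
      rw [← hΦx] at this
      simp only [Φ, inner_add_right, inner_smul_right, hνν] at this
      have h5 : g₀⁻¹ * F x = 0 := by linarith
      exact (mul_eq_zero.1 h5).resolve_left (inv_ne_zero hg₀.ne')
    refine ⟨⟨(hc.zero_set x (hVU hxV)).2 hFx, hxV⟩, by rw [← hΦC x hFx, hΦx], ?_⟩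
    let f' := (Φ' x).toContinuousLinearEquivOfDetNeZero (hV x hxV).1
    have hf' : (f' : E ι →L[ℝ] E ι) = Φ' x :=
      ContinuousLinearMap.coe_toContinuousLinearEquivOfDetNeZero _ _
    have hd : HasFDerivAt e.symm (f'.symm : E ι →L[ℝ] E ι) (P z) :=
      e.hasFDerivAt_symm hz.1 (by rw [hf']; exact (hΦ x (hVU hxV)).hasFDerivAt)
    refine ⟨(f'.symm : E ι →L[ℝ] E ι).comp P, (hd.comp z P.hasFDerivAt).congr_of_eventuallyEq
      (by filter_upwards [hO.mem_nhds hz] with w hw using piecewise_eq_of_mem _ _ _ hw),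
      fun w => ?_⟩
    have h6 : Φ' x (f'.symm (P w)) = P w := by
      rw [← hf']; exact f'.apply_symm_apply _
    change P (f'.symm (P w)) = P w ∧ ⟪normal F x, f'.symm (P w)⟫ = 0
    generalize f'.symm (P w) = u at h6
    rw [hΦ'a] at h6
    have h7 : g₀⁻¹ * fderiv ℝ F x u = 0 := by
      have := hPi w
      rw [← h6] at this
      simp only [inner_add_right, inner_smul_right, hνν] at this
      linarith
    refine ⟨by rw [← h6, h7, hPa]; simp [sub_eq_add_neg], ?_⟩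
    rw [(hsh x (hVU hxV)).2.1 u] at h7
    exact (mul_eq_zero.1 ((mul_eq_zero.1 h7).resolve_left (inv_ne_zero hg₀.ne'))).resolve_left
      (norm_ne_zero_iff.2 (hc.grad_ne x (hVU hxV)))
  · have := hlip'.dist_le_mul _ (hleft x hx).2.2 _ (hleft x' hx').2.2
    rwa [(hleft x hx).2.1, (hleft x' hx').2.1] at this

end Foot

end Pool.Agent.P.MP_2b44f0_gt
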