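import Pool.Agent.P.MP_2b44f0_gt.Iface

/-!
Concavity of `log Γ(x + 1/2) - x log x` and the model bound.
-/

namespace Pool.Agent.P.MP_2b44f0_gt

open MeasureTheory Set Filter
open scoped Topology

namespace Gamma

theorem tau : ConcaveOn ℝ (Ioi 0) fun y : ℝ =>
    (y + 1) * Real.log (y + 1) - y * Real.log y - Real.log (y + 1 / 2) := by
  have d1 : ∀ y : ℝ, 0 < y → HasDerivAt (fun y : ℝ =>
      (y + 1) * Real.log (y + 1) - y * Real.log y - Real.log (y + 1 / 2))
      (Real.log (y + 1) - Real.log y - (y + 1 / 2)⁻¹) y := fun y hy => by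
    have h1 := (Real.hasDerivAt_mul_log (x := y + 1) (by positivity)).comp_add_const y 1
    have h2 := Real.hasDerivAt_mul_log hy.ne'
    have h3 := (Real.hasDerivAt_log (x := y + 1 / 2) (by positivity)).comp_add_const y (1 / 2)
    exact ((h1.sub h2).sub h3).congr_deriv (by ring)
  have d2 : ∀ y : ℝ, 0 < y → HasDerivAt (fun y : ℝ =>
      Real.log (y + 1) - Real.log y - (y + 1 / 2)⁻¹)
      ((y + 1)⁻¹ - y⁻¹ + ((y + 1 / 2) ^ 2)⁻¹) y := fun y hy => by
    have h1 := (Real.hasDerivAt_log (x := y + 1) (by positivity)).comp_add_const y 1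
    have h2 := Real.hasDerivAt_log hy.ne'
    have h3 := (hasDerivAt_inv (x := y + 1 / 2) (by positivity)).comp_add_const y (1 / 2)
    exact ((h1.sub h2).sub h3).congr_deriv (by ring)
  refine concaveOn_of_hasDerivWithinAt2_nonpos (convex_Ioi 0)
    (fun y hy => (d1 y hy).continuousAt.continuousWithinAt)
    (fun y hy => (d1 y (interior_subset hy)).hasDerivWithinAt)
    (fun y hy => (d2 y (interior_subset hy)).hasDerivWithinAt) fun y hy => ?_
  have hy : 0 < y := interior_subset hy
  have e : (y + 1)⁻¹ - y⁻¹ + ((y + 1 / 2) ^ 2)⁻¹ =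
      -(1 / (4 * (y * (y + 1) * (y + 1 / 2) ^ 2))) := by
    field_simp
    ring
  rw [e, neg_nonpos]
  positivity

theorem sum (N : ℕ) : ConcaveOn ℝ (Ioi 0) fun x : ℝ =>
    -(x * Real.log x) - ∑ k ∈ Finset.range N, Real.log (x + 1 / 2 + k) := by
  induction N with
  | zero =>
    exact (Real.convexOn_mul_log.subset Ioi_subset_Ici_self (convex_Ioi 0)).neg.congr
      fun x _ => by simp
  | succ N ih =>
    have h := (ih.translate_left 1).subset (s := Ioi 0)
      (fun x hx => by
        have : (0 : ℝ) < x := hx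
        simp only [mem_preimage, mem_Ioi]
        linarith) (convex_Ioi 0)
    refine (tau.add h).congr fun x _ => ?_
    have e : ∀ k : ℕ, x + 1 + 1 / 2 + (k : ℝ) = x + 1 / 2 + ((k + 1 : ℕ) : ℝ) := fun k => by
      push_cast
      ring
    simp only [Pi.add_apply, Function.comp_apply, Finset.sum_range_succ', e, Nat.cast_zero,
      add_zero]
    ring

theorem logseq {x : ℝ} (hx : 0 < x) {N : ℕ} (hN : N ≠ 0) :
    Real.log (Real.GammaSeq (x + 1 / 2) N) - x * Real.log x =
      (x + 1 / 2) * Real.log N + Real.log (N.factorial) +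
        (-(x * Real.log x) - ∑ k ∈ Finset.range (N + 1), Real.log (x + 1 / 2 + k)) := by
  have h0 : (0 : ℝ) < N := by positivity
  rw [Real.GammaSeq, Real.log_div (by positivity)
    (Finset.prod_ne_zero_iff.2 fun k _ => by positivity), Real.log_mul (by positivity)
    (by positivity), Real.log_rpow h0, Real.log_prod fun k _ => by positivity]
  ring

theorem lim {x : ℝ} (hx : 0 < x) :
    Tendsto (fun N : ℕ => Real.log (Real.GammaSeq (x + 1 / 2) N) - x * Real.log x) atTop
      (𝓝 (Real.log (Real.Gamma (x + 1 / 2)) - x * Real.log x)) :=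
  ((Real.GammaSeq_tendsto_Gamma _).log (Real.Gamma_pos_of_pos (by positivity)).ne').sub_const _

theorem fac {p m : ℝ} (hp : 0 < p) (hm : 0 < m) :
    (2 * m / p) ^ (p / 2) * Real.Gamma ((p + 1) / 2) =
      Real.exp (Real.log (Real.Gamma (p / 2 + 1 / 2)) - p / 2 * Real.log (p / 2) +
        p / 2 * Real.log m) := by
  have e : 2 * m / p = m / (p / 2) := by field_simp
  have hG : 0 < Real.Gamma (p / 2 + 1 / 2) := Real.Gamma_pos_of_pos (by positivity)
  rw [Real.rpow_def_of_pos (by positivity), e, Real.log_div hm.ne' (by positivity), add_div,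
    sub_add, Real.exp_sub, Real.exp_log hG, eq_div_iff (Real.exp_pos _).ne', mul_right_comm,
    ← Real.exp_add]
  have : (Real.log m - Real.log (p / 2)) * (p / 2) +
      (p / 2 * Real.log (p / 2) - p / 2 * Real.log m) = 0 := by ring
  rw [this, Real.exp_zero, one_mul]

end Gamma

theorem all_gamma : S_gamma := by
  refine ⟨convex_Ioi 0, fun x hx y hy a b ha hb hab => ?_⟩
  have hz : 0 < a • x + b • y := convex_Ioi (0 : ℝ) hx hy ha hb hab
  refine le_of_tendsto_of_tendsto
    (((Gamma.lim hx).const_smul a).add ((Gamma.lim hy).const_smul b)) (Gamma.lim hz) ?_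
  filter_upwards [eventually_ne_atTop 0] with N hN
  have h := (Gamma.sum (N + 1)).2 hx hy ha hb hab
  rw [Gamma.logseq hx hN, Gamma.logseq hy hN, Gamma.logseq hz hN]
  simp only [smul_eq_mul] at h ⊢
  obtain rfl : b = 1 - a := by linarith
  nlinarith [h]

theorem all_model : S_beta → S_gamma → S_model := by
  intro hB hG m p q a hp hq ha hpq hpa
  have hm : (0 : ℝ) < m := by linarith
  have e1 : ∀ ξ : ℝ, (1 + ξ ^ 2) ^ ((m : ℝ) + 1) = (1 + ξ ^ 2) ^ (m + 1) := fun ξ => by
    rw [← Nat.cast_succ, Real.rpow_natCast]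
  have h1 := hB p q a hp hq ha hpa
  have h2 := hB m m 1 hm hm one_pos (by ring)
  have e2 : (p + q) / 2 = m := by linarith
  have e3 : ((m : ℝ) + m) / 2 = m := by ring
  have e4 : ∀ ξ : ℝ, (1 + ξ * 1) ^ m * (1 - ξ / 1) ^ m = (1 - ξ ^ 2) ^ m := fun ξ => by
    rw [← mul_pow]
    congr 1
    ring
  simp only [e2, e1] at h1
  simp only [e3, e1, Real.rpow_natCast, e4, inv_one] at h2
  rw [h1, J, h2]
  refine ENNReal.ofReal_le_ofReal (div_le_div_of_nonneg_right ?_
    (mul_pos two_pos (Real.Gamma_pos_of_pos (by positivity))).le)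
  have e5 : (m : ℝ) + m = 2 * m := by ring
  rw [hpq, e5, mul_mul_mul_comm, mul_mul_mul_comm ((2 * (m : ℝ) / m) ^ ((m : ℝ) / 2)),
    Gamma.fac hp hm, Gamma.fac hq hm, Gamma.fac hm hm, ← Real.exp_add, ← Real.exp_add]
  unfold S_gamma at hG
  have h3 := hG.2 (half_pos hp) (half_pos hq) (by norm_num : (0 : ℝ) ≤ 1 / 2)
    (by norm_num : (0 : ℝ) ≤ 1 / 2) (by norm_num)
  have e6 : (1 / 2 : ℝ) • (p / 2) + (1 / 2 : ℝ) • (q / 2) = m / 2 := by
    simp only [smul_eq_mul]
    linarith
  rw [e6] at h3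
  simp only [smul_eq_mul] at h3
  have e7 : p / 2 * Real.log m + q / 2 * Real.log m = m * Real.log m := by
    rw [← add_mul, ← add_div, e2]
  exact Real.exp_le_exp.2 (by linarith)

end Pool.Agent.P.MP_2b44f0_gt
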