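import Pool.Agent.P.MP_2b44f0_gt.Defs

/-!
Statements `S_*` of the pieces of the proof.
-/

namespace Pool.Agent.P.MP_2b44f0_gt

open MeasureTheory Set
open scoped ENNReal RealInnerProductSpace Topology

/-- Euclidean space -/
abbrev E (ι : Type) := EuclideanSpace ℝ ι

/-- the model integral -/
noncomputable def J (m : ℕ) : ℝ≥0∞ :=
  ∫⁻ ξ in Ioo (-1 : ℝ) 1, ENNReal.ofReal ((1 - ξ ^ 2) ^ m / (1 + ξ ^ 2) ^ (m + 1))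

/-- `C` is invariant under dilations -/
def IsCone {ι : Type} (C : Set (E ι)) : Prop := ∀ x ∈ C, ∀ t : ℝ, 0 < t → t • x ∈ C

/-! ### One variable -/

/-- two point Gauss quadrature bound -/
def S_quad : Prop := ∀ (ι : Type) [Fintype ι] (w κ : ι → ℝ) (n : ℝ), 0 < n → (∀ j, 0 ≤ w j) →
  ∑ j, w j = n → ∑ j, w j * κ j = 0 → n ≤ ∑ j, w j * κ j ^ 2 →
  ∃ p q a : ℝ, 0 < p ∧ 0 < q ∧ 0 < a ∧ p + q = n ∧ p * a ^ 2 = q ∧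
    ∀ ξ : ℝ, (∀ j, 0 < 1 + ξ * κ j) → 0 < 1 + ξ * a ∧ 0 < 1 - ξ / a ∧
      ∑ j, w j * Real.log (1 + ξ * κ j) ≤ p * Real.log (1 + ξ * a) + q * Real.log (1 - ξ / a)

/-- the two point integral is a Beta integral -/
def S_beta : Prop := ∀ p q a : ℝ, 0 < p → 0 < q → 0 < a → p * a ^ 2 = q →
  ∫⁻ ξ in Ioo (-a⁻¹) a,
      ENNReal.ofReal ((1 + ξ * a) ^ p * (1 - ξ / a) ^ q / (1 + ξ ^ 2) ^ ((p + q) / 2 + 1)) =
    ENNReal.ofReal (((p + q) / p) ^ (p / 2) * ((p + q) / q) ^ (q / 2) *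
      (Real.Gamma ((p + 1) / 2) * Real.Gamma ((q + 1) / 2)) / (2 * Real.Gamma ((p + q) / 2 + 1)))

def S_gamma : Prop :=
  ConcaveOn ℝ (Ioi 0) fun x : ℝ => Real.log (Real.Gamma (x + 1 / 2)) - x * Real.log x

/-- the two point integral is largest in the symmetric case -/
def S_model : Prop := ∀ (m : ℕ) (p q a : ℝ), 0 < p → 0 < q → 0 < a → p + q = 2 * m →
  p * a ^ 2 = q →
  ∫⁻ ξ in Ioo (-a⁻¹) a,
    ENNReal.ofReal ((1 + ξ * a) ^ p * (1 - ξ / a) ^ q / (1 + ξ ^ 2) ^ (m + 1)) ≤ J m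

/-! ### Linear algebra -/

def S_lin : Prop := ∀ (ι : Type) [Fintype ι] (m : ℕ) (B : E ι →L[ℝ] E ι) (e₁ e₂ : E ι),
  Fintype.card ι = 2 * m + 2 → 1 ≤ m → (∀ v w, ⟪B v, w⟫ = ⟪v, B w⟫) →
  ‖e₁‖ = 1 → ‖e₂‖ = 1 → ⟪e₁, e₂⟫ = 0 → B e₁ = 0 → B e₂ = 0 →
  LinearMap.trace ℝ (E ι) B.toLinearMap = 0 →
  (2 * m : ℝ) ≤ LinearMap.trace ℝ (E ι) (B.comp B).toLinearMap →
  ∫⁻ ξ in {ξ : ℝ | ∀ v, 0 ≤ ⟪v, v + ξ • B v⟫},
    ENNReal.ofReal (|(1 + ξ • B).det| / (1 + ξ ^ 2) ^ (m + 1)) ≤ J m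

def S_bound : Prop := ∀ (ι : Type) [Fintype ι] (B : E ι →L[ℝ] E ι) (ξ : ℝ),
  (∀ v w, ⟪B v, w⟫ = ⟪v, B w⟫) → LinearMap.trace ℝ (E ι) B.toLinearMap = 0 →
  (∀ v, 0 ≤ ⟪v, v + ξ • B v⟫) →
  ξ ^ 2 * LinearMap.trace ℝ (E ι) (B.comp B).toLinearMap ≤ (Fintype.card ι : ℝ) ^ 3

def S_linEq : Prop := ∀ (ι : Type) [Fintype ι] (m : ℕ) (B : E ι →L[ℝ] E ι) (ξ : ℝ),
  (∀ v w, ⟪B v, w⟫ = ⟪v, B w⟫) → (∀ v, B (B (B v)) = B v) →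
  LinearMap.trace ℝ (E ι) B.toLinearMap = 0 →
  LinearMap.trace ℝ (E ι) (B.comp B).toLinearMap = 2 * m → |ξ| < 1 →
  (1 + ξ • B).det = (1 - ξ ^ 2) ^ m

/-! ### Local geometry -/

def S_shape : Prop := ∀ (ι : Type) [Fintype ι] (C U : Set (E ι)) (F : E ι → ℝ), IsChart C U F →
  ContDiffOn ℝ 1 (normal F) U ∧ ContinuousOn (shape F) U ∧ ∀ y ∈ U,
    ‖normal F y‖ = 1 ∧ (∀ v, fderiv ℝ F y v = ‖gradient F y‖ * ⟪normal F y, v⟫) ∧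
    (∀ v, ⟪normal F y, fderiv ℝ (normal F) y v⟫ = 0) ∧
    shape F y (normal F y) = 0 ∧
    (∀ v w, ⟪shape F y v, w⟫ = ‖gradient F y‖⁻¹ *
      fderiv ℝ (fderiv ℝ F) y (tangentProj F y v) (tangentProj F y w)) ∧
    ∀ v w, ⟪shape F y v, w⟫ = ⟪v, shape F y w⟫

/-- every tangent vector is the velocity of a `C²` curve in `C` -/
def S_curve : Prop := ∀ (ι : Type) [Fintype ι] (C U : Set (E ι)) (F : E ι → ℝ), IsChart C U F →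
  ∀ y ∈ U ∩ C, ∀ v, ⟪normal F y, v⟫ = 0 →
    ∃ γ : ℝ → E ι, ContDiffAt ℝ 2 γ 0 ∧ γ 0 = y ∧ HasDerivAt γ v 0 ∧ ∀ᶠ t in 𝓝 0, γ t ∈ C

def S_cone : Prop := ∀ (ι : Type) [Fintype ι] (C U : Set (E ι)) (F : E ι → ℝ), IsChart C U F →
  IsCone C → ∀ y ∈ U ∩ C, ⟪normal F y, y⟫ = 0 ∧ shape F y y = 0

/-- first and second order conditions at a nearest point -/
def S_near : Prop := ∀ (ι : Type) [Fintype ι] (C U : Set (E ι)) (F : E ι → ℝ), IsChart C U F →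
  ∀ y ∈ U ∩ C, ∀ w, (∀ z ∈ C, ‖w‖ ≤ ‖y + w - z‖) →
    ∃ s : ℝ, w = s • normal F y ∧ ∀ v, 0 ≤ ⟪v, v + s • shape F y v⟫

/-! ### Measure theory -/

/-- the points reached along normals from `C ∩ W` under the side condition `Q` -/
def Reach {ι : Type} [Fintype ι] (C W : Set (E ι)) (F : E ι → ℝ) (Q : Set (E ι × E ι)) :
    Set (E ι) :=
  {y | ∃ x ∈ C ∩ W, ∃ s : ℝ, y = x + s • normal F x ∧ (x, y) ∈ Q}

/-- the weighted Jacobian integral along the normal line through `x` -/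
noncomputable def lineInt {ι : Type} [Fintype ι] (F : E ι → ℝ) (Q : Set (E ι × E ι))
    (ω : E ι → ℝ≥0∞) (x : E ι) : ℝ≥0∞ :=
  ∫⁻ s in {s : ℝ | (x, x + s • normal F x) ∈ Q},
    ω (x + s • normal F x) * ENNReal.ofReal |(1 + s • shape F x).det|

/-- local tube estimates -/
def S_tube : Prop := ∀ (ι : Type) [Fintype ι] (d : ℕ) (C U : Set (E ι)) (F : E ι → ℝ),
  Fintype.card ι = d + 1 → IsChart C U F → ∀ x₀ ∈ U ∩ C, ∀ ε : ℝ≥0∞, 0 < ε →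
  ∃ V, IsOpen V ∧ x₀ ∈ V ∧ V ⊆ U ∧ ∀ (W : Set (E ι)) (Q : Set (E ι × E ι)) (ω : E ι → ℝ≥0∞)
    (K : ℝ≥0∞), MeasurableSet W → W ⊆ V → MeasurableSet Q → Measurable ω →
    ((∀ x ∈ C ∩ W, lineInt F Q ω x ≤ K) →
      ∫⁻ y in Reach C W F Q, ω y ≤ (1 + ε) * (K * μHE[d] (C ∩ W))) ∧
    ((∀ x ∈ C ∩ W, ∀ x' ∈ C ∩ W, ∀ y, (x, y) ∈ Q → (x', y) ∈ Q →
        (∃ s : ℝ, y = x + s • normal F x) → (∃ s : ℝ, y = x' + s • normal F x') → x = x') →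
      (∀ x ∈ C ∩ W, K ≤ lineInt F Q ω x) → MeasurableSet (Reach C W F Q) ∧
      K * μHE[d] (C ∩ W) ≤ (1 + ε) * ∫⁻ y in Reach C W F Q, ω y)

/-- the weight attached to a homogeneous function `c` -/
noncomputable def wgt {ι : Type} [Fintype ι] (d : ℕ) (c : E ι → ℝ) (y : E ι) : ℝ≥0∞ :=
  ENNReal.ofReal (c y ^ d / ‖y‖ ^ (d + 1))

def S_polar : Prop := ∀ (ι : Type) [Fintype ι] (d : ℕ) (c : E ι → ℝ),
  Fintype.card ι = d + 1 → 1 ≤ d → Measurable c → (∀ y, ∀ t : ℝ, 0 < t → c (t • y) = t * c y) →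
  ∫⁻ y in {y | 0 < c y ∧ c y < 1}, wgt d c y =
    ∫⁻ y in {y | 0 < c y} ∩ Metric.ball 0 1, ENNReal.ofReal ‖y‖⁻¹

/-- rescaling of the integral along a normal line -/
def S_line : Prop := ∀ (ι : Type) [Fintype ι] (m : ℕ) (x ν : E ι) (A : E ι →L[ℝ] E ι)
  (D : Set ℝ), x ≠ 0 → ‖ν‖ = 1 → ⟪ν, x⟫ = 0 →
  ∫⁻ s in D, ENNReal.ofReal (‖x‖ ^ (2 * m + 1) / ‖x + s • ν‖ ^ (2 * m + 1 + 1)) *
      ENNReal.ofReal |(1 + s • A).det| =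
    ∫⁻ ξ in {ξ : ℝ | ‖x‖ * ξ ∈ D},
      ENNReal.ofReal (|(1 + ξ • (‖x‖ • A)).det| / (1 + ξ ^ 2) ^ (m + 1))

/-- countable disjoint measurable refinement of an open cover -/
def S_cover : Prop := ∀ (ι : Type) [Fintype ι] (R : Set (E ι)) (V : E ι → Set (E ι)),
  R.Nonempty → (∀ x ∈ R, IsOpen (V x) ∧ x ∈ V x) →
  ∃ (x : ℕ → E ι) (W : ℕ → Set (E ι)), (∀ i, x i ∈ R ∧ MeasurableSet (W i) ∧ W i ⊆ V (x i)) ∧
    Pairwise (Function.onFun Disjoint W) ∧ R ⊆ ⋃ i, W i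

/-- the constant -/
noncomputable def Kc (ι : Type) [Fintype ι] : ℝ≥0∞ :=
  ∫⁻ y in Metric.ball (0 : E ι) 1, ENNReal.ofReal ‖y‖⁻¹

/-- the lower bound for pinched cones -/
def S_lower : Prop := ∀ (ι : Type) [Fintype ι] (m : ℕ) (C : Set (E ι)),
  Fintype.card ι = 2 * m + 2 → 1 ≤ m → IsClosed C → IsCone C → (∃ x ∈ C, x ≠ 0) →
  (∀ x ∈ C, x ≠ 0 → Touched C x → Pinched (2 * m) C x) →
  Kc ι ≤ J m * μHE[2 * m + 1] (C ∩ Metric.ball 0 1)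

/-- the reflection `(x, y) ↦ (x, -y)` -/
noncomputable def refl (m : ℕ) (z : E (Fin (m + 1) ⊕ Fin (m + 1))) :
    E (Fin (m + 1) ⊕ Fin (m + 1)) :=
  WithLp.toLp 2 (Sum.elim (fun i => z (Sum.inl i)) fun i => -z (Sum.inr i))

/-- the defining function of the Simons cone -/
noncomputable def simF (m : ℕ) (z : E (Fin (m + 1) ⊕ Fin (m + 1))) : ℝ :=
  ∑ i, z (Sum.inl i) ^ 2 - ∑ i, z (Sum.inr i) ^ 2

/-- local geometry of the Simons cone -/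
def S_simGeo : Prop := ∀ m : ℕ, IsChart (simons m) {0}ᶜ (simF m) ∧
  ∀ x ∈ simons m, x ≠ 0 → normal (simF m) x = ‖x‖⁻¹ • refl m x ∧ meanCurv (simF m) x = 0 ∧
    ‖x‖ ^ 2 * sqCurv (simF m) x = 2 * m ∧
    ∀ v, ‖x‖ ^ 2 • shape (simF m) x (shape (simF m) x (shape (simF m) x v)) = shape (simF m) x v

/-- the upper bound for the Simons cone -/
def S_upper : Prop := ∀ m : ℕ,
  J m * μHE[2 * m + 1] (simons m ∩ Metric.ball 0 1) ≤ Kc (Fin (m + 1) ⊕ Fin (m + 1))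

/-! ### The Simons identity -/

/-- the algebraic form: tangential derivatives on a commutative ring of functions -/
def S_simAlg : Prop := ∀ (ι : Type) [Fintype ι] [DecidableEq ι] (R : Type) [CommRing R]
  (δ : ι → R →+ R) (ν x : ι → R) (a : ι → ι → R) (ev : R →+* ℝ) (S : R),
  (∀ i f g, δ i (f * g) = δ i f * g + f * δ i g) →
  (∀ i j, δ i (ν j) = a i j) → (∀ i j, a i j = a j i) →
  (∀ i j, δ i (x j) = (if i = j then 1 else 0) - ν i * ν j) →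
  (∀ f, ∑ i, ν i * δ i f = 0) → ∑ i, ν i * ν i = 1 →
  (∀ i j f, δ i (δ j f) - δ j (δ i f) = ∑ l, (ν i * a j l - ν j * a i l) * δ l f) →
  ∑ i, a i i = 0 → ∑ i, ν i * x i = 0 →
  (∑ i, x i * x i) * (∑ i, ∑ j, a i j * a i j) = S → (∀ i, δ i S = 0) → ev S ≠ 0 →
  (Fintype.card ι : ℝ) - 2 ≤ ev S

def S_simons : Prop := ∀ (ι : Type) [Fintype ι] (C : Set (E ι)) (x : E ι), IsCone C →
  ConstCurv C x → Pinched ((Fintype.card ι : ℝ) - 2) C x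

end Pool.Agent.P.MP_2b44f0_gt
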