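import Pool.Agent.P.MP_2b44f0_gt.Iface

/-! Spectral reduction. -/

namespace Pool.Agent.P.MP_2b44f0_gt

open MeasureTheory Set
open scoped ENNReal RealInnerProductSpace Topology

namespace Lin

theorem spec {ι : Type} [Fintype ι] (B : E ι →L[ℝ] E ι) (h : ∀ v w, ⟪B v, w⟫ = ⟪v, B w⟫) :
    ∃ (b : OrthonormalBasis (Fin (Fintype.card ι)) ℝ (E ι)) (k : Fin (Fintype.card ι) → ℝ),
      (∀ j, B (b j) = k j • b j) ∧ LinearMap.trace ℝ (E ι) B.toLinearMap = ∑ j, k j ∧
      LinearMap.trace ℝ (E ι) (B.comp B).toLinearMap = ∑ j, k j ^ 2 ∧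
      (∀ x : ℝ, (1 + x • B).det = ∏ j, (1 + x * k j)) ∧
      ∀ x : ℝ, (∀ v, 0 ≤ ⟪v, v + x • B v⟫) → ∀ j, 0 ≤ 1 + x * k j := by
  have hs : B.toLinearMap.IsSymmetric := h
  have hn : Module.finrank ℝ (E ι) = Fintype.card ι := finrank_euclideanSpace
  set b := hs.eigenvectorBasis hn
  set k := hs.eigenvalues hn
  have e : ∀ j, B (b j) = k j • b j := fun j => hs.apply_eigenvectorBasis hn j
  have n1 : ∀ j, ⟪b j, b j⟫ = 1 := fun j => by
    rw [real_inner_self_eq_norm_sq, b.orthonormal.1 j]; norm_num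
  refine ⟨b, k, e, ?_, ?_, fun x => ?_, fun x hx j => ?_⟩
  · rw [LinearMap.trace_eq_sum_inner _ b]
    exact Finset.sum_congr rfl fun j _ => by
      rw [ContinuousLinearMap.coe_coe, e, real_inner_smul_right, n1, mul_one]
  · rw [LinearMap.trace_eq_sum_inner _ b]
    exact Finset.sum_congr rfl fun j _ => by
      rw [ContinuousLinearMap.coe_coe, ContinuousLinearMap.comp_apply, e, map_smul, e,
        real_inner_smul_right, real_inner_smul_right, n1]
      ring
  · rw [ContinuousLinearMap.det, ← LinearMap.det_toMatrix b.toBasis, ← Matrix.det_diagonal]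
    congr 1
    ext i j
    have : (1 + x • B) (b j) = (1 + x * k j) • b j := by
      simp [e, add_smul, smul_smul]
    rw [LinearMap.toMatrix_apply, ContinuousLinearMap.coe_coe, OrthonormalBasis.coe_toBasis, this,
      map_smul, Finsupp.smul_apply, ← b.coe_toBasis, b.toBasis.repr_self, Finsupp.single_apply,
      Matrix.diagonal_apply]
    by_cases hij : i = j
    · simp [hij]
    · simp [hij, Ne.symm hij]
  · have := hx (b j)
    rwa [e, inner_add_right, real_inner_smul_right, real_inner_smul_right, n1, mul_one] at this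

theorem bessel {ι : Type} [Fintype ι] {v e₁ e₂ : E ι} (hv : ‖v‖ = 1) (h1 : ‖e₁‖ = 1)
    (h2 : ‖e₂‖ = 1) (h : ⟪e₁, e₂⟫ = 0) : 0 ≤ 1 - ⟪v, e₁⟫ ^ 2 - ⟪v, e₂⟫ ^ 2 := by
  have := real_inner_self_nonneg (x := v - ⟪v, e₁⟫ • e₁ - ⟪v, e₂⟫ • e₂)
  have h' : ⟪e₂, e₁⟫ = 0 := by rw [real_inner_comm, h]
  simp only [inner_sub_left, inner_sub_right, real_inner_smul_left, real_inner_smul_right,
    real_inner_self_eq_norm_sq, hv, h1, h2, h, h', real_inner_comm v e₁, real_inner_comm v e₂,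
    norm_smul, Real.norm_eq_abs, mul_one, sq_abs] at this
  linarith

end Lin

theorem all_lin : S_quad → S_model → S_lin := by
  intro hq hm ι _ m B e₁ e₂ hc h1 hs n1 n2 h12 z1 z2 t1 t2
  obtain ⟨b, k, e, tr1, tr2, hd, hp⟩ := Lin.spec B hs
  set w : Fin (Fintype.card ι) → ℝ := fun j => 1 - ⟪b j, e₁⟫ ^ 2 - ⟪b j, e₂⟫ ^ 2 with hw
  have z : ∀ j (v : E ι), B v = 0 → k j ≠ 0 → ⟪b j, v⟫ = 0 := fun j v hv hk => by
    have := hs (b j) v
    rw [e, hv, inner_zero_right, real_inner_smul_left] at this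
    exact (mul_eq_zero.1 this).resolve_left hk
  have key : ∀ f : ℝ → ℝ, f 0 = 0 → ∑ j, w j * f (k j) = ∑ j, f (k j) := fun f hf =>
    Finset.sum_congr rfl fun j _ => by
      by_cases hk : k j = 0
      · rw [hk, hf, mul_zero]
      · simp only [hw, z j _ z1 hk, z j _ z2 hk]; ring
  have par : ∀ v : E ι, ‖v‖ = 1 → ∑ j, ⟪b j, v⟫ ^ 2 = 1 := fun v hv => by
    rw [b.sum_sq_inner_right, hv, one_pow]
  have hm0 : (0 : ℝ) < 2 * m := by positivity
  obtain ⟨p, q, a, p0, q0, a0, hpq, ha, hl⟩ := hq _ w k (2 * m) hm0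
    (fun j => Lin.bessel (b.orthonormal.1 j) n1 n2 h12)
    (by
      simp only [hw, Finset.sum_sub_distrib, par _ n1, par _ n2, Finset.sum_const, Finset.card_univ,
        Fintype.card_fin, hc, nsmul_eq_mul]
      push_cast
      ring)
    (by rw [key (fun x => x) rfl, ← tr1, t1])
    (by rw [key (fun x => x ^ 2) (by norm_num), ← tr2]; exact t2)
  refine le_trans ?_ (hm m p q a p0 q0 a0 hpq ha)
  have ms : MeasurableSet {ξ : ℝ | ∀ j, 0 ≤ 1 + ξ * k j} := by
    rw [ofPred_forall]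
    exact (isClosed_iInter fun j => isClosed_le continuous_const (by fun_prop)).measurableSet
  refine (lintegral_mono_set (t := {ξ : ℝ | ∀ j, 0 ≤ 1 + ξ * k j}) hp).trans ?_
  rw [← lintegral_indicator ms, ← lintegral_indicator measurableSet_Ioo]
  refine lintegral_mono fun ξ => ?_
  by_cases hξ : ξ ∈ {ξ : ℝ | ∀ j, 0 ≤ 1 + ξ * k j}
  swap
  · rw [indicator_of_notMem hξ]; exact zero_le
  rw [indicator_of_mem hξ, hd]
  by_cases h0 : ∃ j, 1 + ξ * k j = 0
  · obtain ⟨j, hj⟩ := h0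
    rw [Finset.prod_eq_zero (Finset.mem_univ j) hj]
    simp
  have pos : ∀ j, 0 < 1 + ξ * k j := fun j => (hξ j).lt_of_ne fun h => h0 ⟨j, h.symm⟩
  obtain ⟨l1, l2, l3⟩ := hl ξ pos
  have mem : ξ ∈ Ioo (-a⁻¹) a := by
    constructor
    · rw [neg_lt, ← one_div, lt_div_iff₀ a0]; linarith
    · rwa [sub_pos, div_lt_one a0] at l2
  rw [indicator_of_mem mem]
  refine ENNReal.ofReal_le_ofReal (div_le_div_of_nonneg_right ?_ (by positivity))
  rw [key (fun x => Real.log (1 + ξ * x)) (by simp), ← Real.log_prod fun j _ => (pos j).ne'] at l3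
  have pp := Finset.prod_pos fun j (_ : j ∈ Finset.univ) => pos j
  rw [abs_of_pos pp, Real.rpow_def_of_pos l1, Real.rpow_def_of_pos l2, ← Real.exp_add,
    ← Real.log_le_iff_le_exp pp]
  linarith

theorem all_bound : S_bound := by
  intro ι _ B ξ hs t1 h
  obtain ⟨b, k, e, tr1, tr2, hd, hp⟩ := Lin.spec B hs
  have hp := hp ξ h
  have s : ∑ j, (1 + ξ * k j) = Fintype.card ι := by
    rw [Finset.sum_add_distrib, ← Finset.mul_sum, ← tr1, t1]; simp
  have le : ∀ j, (ξ * k j) ^ 2 ≤ (Fintype.card ι : ℝ) ^ 2 := fun j => by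
    have h1 := Finset.single_le_sum (f := fun j => 1 + ξ * k j) (fun j _ => hp j) (Finset.mem_univ j)
    have h2 : (1 : ℝ) ≤ Fintype.card ι := by exact_mod_cast j.pos
    rw [s] at h1
    exact sq_le_sq' (by linarith [hp j]) (by linarith)
  rw [tr2, Finset.mul_sum]
  refine (Finset.sum_le_card_nsmul _ _ _ fun j _ => (mul_pow ξ (k j) 2).symm.trans_le (le j)).trans_eq ?_
  rw [Finset.card_univ, Fintype.card_fin, nsmul_eq_mul]
  ring

theorem all_linEq : S_linEq := by
  intro ι _ m B ξ hs h3 t1 t2 hξ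
  obtain ⟨b, k, e, tr1, tr2, hd, -⟩ := Lin.spec B hs
  obtain ⟨x1, x2⟩ := abs_lt.1 hξ
  have p1 : 0 < 1 + ξ := by linarith
  have p2 : 0 < 1 - ξ := by linarith
  have hk : ∀ j, 1 + ξ * k j = Real.exp (k j ^ 2 * ((Real.log (1 + ξ) + Real.log (1 - ξ)) / 2) +
      k j * ((Real.log (1 + ξ) - Real.log (1 - ξ)) / 2)) := fun j => by
    have h := h3 (b j)
    simp only [e, map_smul, smul_smul] at h
    have h := smul_left_injective ℝ (b.toBasis.ne_zero j) h
    have : k j * (k j - 1) * (k j + 1) = 0 := by linear_combination h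
    rcases mul_eq_zero.1 this with h | h
    · rcases mul_eq_zero.1 h with h | h
      · simp [h]
      · rw [sub_eq_zero.1 h, mul_one]
        conv_lhs => rw [← Real.exp_log p1]
        congr 1
        ring
    · rw [eq_neg_of_add_eq_zero_left h, show 1 + ξ * -1 = 1 - ξ by ring]
      conv_lhs => rw [← Real.exp_log p2]
      congr 1
      ring
  rw [hd, Finset.prod_congr rfl fun j _ => hk j, ← Real.exp_sum, Finset.sum_add_distrib,
    ← Finset.sum_mul, ← Finset.sum_mul, ← tr1, ← tr2, t1, t2, show 1 - ξ ^ 2 = (1 + ξ) * (1 - ξ) by ring,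
    ← Real.exp_log (mul_pos p1 p2), ← Real.exp_nat_mul, Real.log_mul p1.ne' p2.ne']
  congr 1
  ring

end Pool.Agent.P.MP_2b44f0_gt
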