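import Pool.Agent.P.MP_2b44f0_gt.Iface

/-!
The lower bound for pinched cones.
-/

namespace Pool.Agent.P.MP_2b44f0_gt

open MeasureTheory Set Filter
open scoped ENNReal NNReal RealInnerProductSpace Topology Pointwise

namespace Lower

variable {ι : Type} [Fintype ι]

theorem J_ne_top (m : ℕ) : J m ≠ ⊤ := by
  refine ne_top_of_le_ne_top (b := ∫⁻ _ in Ioo (-1 : ℝ) 1, 1) (by simp) ?_
  refine setLIntegral_mono' measurableSet_Ioo fun ξ hξ => ENNReal.ofReal_le_one.2 ?_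
  have h1 : ξ ^ 2 < 1 := by nlinarith [hξ.1, hξ.2]
  refine div_le_one_of_le₀ ((pow_le_one₀ (by linarith) (by nlinarith [sq_nonneg ξ])).trans
    (one_le_pow₀ (by nlinarith [sq_nonneg ξ]))) (by positivity)

theorem J_ne_zero (m : ℕ) : J m ≠ 0 := by
  intro h
  rw [J, lintegral_eq_zero_iff (by fun_prop), EventuallyEq,
    ae_restrict_iff' measurableSet_Ioo, ae_iff] at h
  have h2 : volume (Ioo (-1 : ℝ) 1) = 0 := by
    refine measure_mono_null ?_ h
    intro ξ hξ h'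
    have h1 : ξ ^ 2 < 1 := by nlinarith [hξ.1, hξ.2]
    have h3 : 0 < (1 - ξ ^ 2) ^ m / (1 + ξ ^ 2) ^ (m + 1) :=
      div_pos (pow_pos (by linarith) _) (by positivity)
    exact absurd (h' hξ) (ENNReal.ofReal_pos.2 h3).ne'
  norm_num at h2

theorem le_of_eps {K X : ℝ≥0∞} (h : ∀ ε : ℝ≥0∞, 0 < ε → K ≤ (1 + ε) * X) : K ≤ X := by
  refine ENNReal.le_of_forall_pos_le_add fun δ hδ hX => (h (δ / X)
    (ENNReal.div_pos (by exact_mod_cast hδ.ne') hX.ne)).trans ?_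
  rw [add_mul, one_mul, mul_comm]
  exact add_le_add_right ENNReal.mul_div_le _

theorem near {C : Set (E ι)} {x w : E ι} (hw : ⟪x, w⟫ = 0)
    (h : ∀ z ∈ C, ⟪x + w, z⟫ ≤ ‖x‖ * ‖z‖) : ∀ z ∈ C, ‖w‖ ≤ ‖x + w - z‖ := by
  intro z hz
  refine abs_le_of_sq_le_sq' ?_ (norm_nonneg _) |>.2
  rw [norm_sub_sq_real, norm_add_sq_real, hw]
  nlinarith [h z hz, sq_nonneg (‖x‖ - ‖z‖)]

/-- the support function of the link -/
theorem exists_support {C : Set (E ι)} (hC : IsClosed C) (hcone : IsCone C)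
    (hne : ∃ x ∈ C, x ≠ 0) :
    ∃ c : E ι → ℝ, Continuous c ∧ (∀ y, ∀ t : ℝ, 0 < t → c (t • y) = t * c y) ∧
      (∀ y, ∀ z ∈ C, ⟪y, z⟫ ≤ c y * ‖z‖) ∧ ∀ y, ∃ x ∈ C, ‖x‖ = 1 ∧ c y = ⟪y, x⟫ := by
  have hK : IsCompact (C ∩ Metric.sphere (0 : E ι) 1) := (isCompact_sphere 0 1).inter_left hC
  have hn : ∀ z ∈ C, z ≠ 0 → ‖z‖⁻¹ • z ∈ C ∩ Metric.sphere (0 : E ι) 1 := fun z hz h0 =>
    ⟨hcone z hz _ (inv_pos.2 (norm_pos_iff.2 h0)), by
      simp [norm_smul, inv_mul_cancel₀ (norm_ne_zero_iff.2 h0)]⟩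
  obtain ⟨x₁, hx₁, h₁⟩ := hne
  have hmax := fun y : E ι => hK.exists_sSup_image_eq_and_ge (f := fun x => ⟪y, x⟫)
    ⟨_, hn x₁ hx₁ h₁⟩ (by fun_prop)
  refine ⟨fun y => sSup ((fun x => ⟪y, x⟫) '' (C ∩ Metric.sphere 0 1)),
    hK.continuous_sSup (f := fun y x : E ι => ⟪y, x⟫) (continuous_fst.inner continuous_snd),
    fun y t ht => ?_, fun y z hz => ?_, fun y => ?_⟩
  · obtain ⟨x, hx, e, h⟩ := hmax y
    obtain ⟨x', hx', e', h'⟩ := hmax (t • y)
    have h2 := h x' hx'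
    have h3 := h' x hx
    simp only [e, e', real_inner_smul_left] at *
    nlinarith
  · by_cases h0 : z = 0
    · simp [h0]
    · obtain ⟨x, hx, e, h⟩ := hmax y
      have h2 := h _ (hn z hz h0)
      simp only [e, inner_smul_right] at *
      rwa [inv_mul_le_iff₀ (norm_pos_iff.2 h0), mul_comm] at h2
  · obtain ⟨x, hx, e, -⟩ := hmax y
    exact ⟨x, hx.1, by simpa using hx.2, e⟩

theorem null_lines {C : Set (E ι)} (hcone : IsCone C) (h : volume (C ∩ Metric.ball 0 1) = 0) :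
    volume {y : E ι | ∃ x ∈ C, ∃ t : ℝ, y = t • x} = 0 := by
  refine measure_mono_null (t := ⋃ n : ℤ, (n : ℝ) • (C ∩ Metric.ball 0 1)) ?_
    (measure_iUnion_null fun n => by rw [Measure.addHaar_smul, h, mul_zero])
  rintro _ ⟨x, hx, t, rfl⟩
  obtain ⟨n, hn⟩ := exists_nat_gt (‖t • x‖ + ‖x‖)
  have hn0 : (0 : ℝ) < n := lt_of_le_of_lt (by positivity) hn
  have hb : ∀ s : ℝ, 0 < s → s * ‖x‖ < n → (s / n) • x ∈ C ∩ Metric.ball 0 1 := fun s hs h' =>
    ⟨hcone x hx _ (by positivity), by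
      rw [mem_ball_zero_iff, norm_smul, Real.norm_of_nonneg (by positivity), div_mul_eq_mul_div,
        div_lt_one hn0]
      exact h'⟩
  rw [norm_smul, Real.norm_eq_abs] at hn
  rcases lt_trichotomy t 0 with ht | rfl | ht
  · refine mem_iUnion.2 ⟨-n, _, hb (-t) (by linarith) (by
      rw [abs_of_neg ht] at hn; linarith [norm_nonneg x]), ?_⟩
    simp only [smul_smul]
    congr 1
    push_cast
    field_simp
  · exact mem_iUnion.2 ⟨0, _, hb 1 one_pos (by simpa using hn), by simp⟩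
  · refine mem_iUnion.2 ⟨n, _, hb t ht (by
      rw [abs_of_pos ht] at hn; linarith [norm_nonneg x]), ?_⟩
    simp only [smul_smul]
    congr 1
    push_cast
    field_simp

end Lower

open Lower in
theorem all_lower : S_tube → S_polar → S_line → S_cover → S_shape → S_cone → S_near → S_lin →
    S_bound → S_lower := by
  intro hT hPo hLi hCo hSh hCn hNe hLn hBd ι _ m C hcard hm hC hcone hne hreg
  rcases Measure.euclideanHausdorffMeasure_zero_or_top (Nat.lt_succ_self (2 * m + 1))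
    (C ∩ Metric.ball (0 : E ι) 1) with hnull | htop
  swap
  · rw [htop, ENNReal.mul_top (J_ne_zero m)]
    exact le_top
  rw [show (2 * m + 1).succ = Module.finrank ℝ (E ι) by rw [finrank_euclideanSpace, hcard],
    InnerProductSpace.euclideanHausdorffMeasure_eq_volume] at hnull
  have hN := null_lines hcone hnull
  obtain ⟨c, hc, hhom, hle, hmax⟩ := exists_support hC hcone hne
  have hm' : (1 : ℝ) ≤ m := by exact_mod_cast hm
  have hfoot : ∀ y, (¬ ∃ x ∈ C, ∃ t : ℝ, y = t • x) → 0 < c y ∧ ∃ x ∈ C, ‖x‖ = c y ∧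
      Touched C x ∧ ∀ z ∈ C, ‖y - x‖ ≤ ‖x + (y - x) - z‖ := by
    intro y hy
    obtain ⟨x₀, hx₀, hn, e⟩ := hmax y
    have hxx : ⟪x₀, x₀⟫ = 1 := by rw [real_inner_self_eq_norm_sq, hn]; norm_num
    set w := y - c y • x₀ with hw
    have hw0 : w ≠ 0 := fun h => hy ⟨x₀, hx₀, c y, sub_eq_zero.1 h⟩
    have key : ∀ ρ : ℝ, 0 < ρ → c y ≤ ρ → (∀ z ∈ C, ‖w‖ ≤ ‖ρ • x₀ + w - z‖) ∧
        Touched C (ρ • x₀) := fun ρ hρ hρ' => by
      have h1 : ∀ z ∈ C, ‖w‖ ≤ ‖ρ • x₀ + w - z‖ := near (by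
        rw [real_inner_smul_left, hw, inner_sub_right, inner_smul_right, hxx, real_inner_comm,
          ← e]; ring) fun z hz => by
        have h2 := hle y z hz
        have h3 := real_inner_le_norm x₀ z
        rw [norm_smul, Real.norm_of_nonneg hρ.le, hn, hw, inner_add_left, inner_sub_left,
          real_inner_smul_left, real_inner_smul_left]
        rw [hn] at h3
        nlinarith
      refine ⟨h1, ρ • x₀ + w, fun h => hw0 (norm_le_zero_iff.1 (by simpa using h1 _ h)),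
        fun z hz => ?_⟩
      simpa [dist_eq_norm] using h1 z hz
    have hpos : 0 < c y := by
      by_contra h0
      have hwp := norm_pos_iff.2 hw0
      set N : ℝ := (Fintype.card ι : ℝ) with hNdef
      have hN1 : 1 ≤ N := by rw [hNdef, hcard]; push_cast; linarith
      have hρ : 0 < ‖w‖ / N ^ 2 := by positivity
      obtain ⟨h1, h2⟩ := key _ hρ ((not_lt.1 h0).trans hρ.le)
      have hx := hcone x₀ hx₀ _ hρ
      obtain ⟨U, F, hU, hch, hp⟩ := hreg _ hx (smul_ne_zero hρ.ne' (by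
        rintro rfl; simp at hn)) h2
      obtain ⟨s, hs, hs'⟩ := hNe ι C U F hch _ ⟨hU, hx⟩ w h1
      obtain ⟨-, -, hsh⟩ := hSh ι C U F hch
      obtain ⟨h3, h4⟩ := hp _ ⟨hU, hx⟩
      have h5 : s ^ 2 * sqCurv F _ ≤ N ^ 3 := hBd ι _ s (hsh _ hU).2.2.2.2.2 h3 hs'
      have h6 : s ^ 2 = ‖w‖ ^ 2 := by
        rw [congrArg norm hs, norm_smul, (hsh _ hU).1, mul_one, Real.norm_eq_abs, sq_abs]
      rw [norm_smul, hn, mul_one, Real.norm_of_nonneg hρ.le, div_pow, div_mul_eq_mul_div, ← h6,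
        le_div_iff₀ (by positivity)] at h4
      have h7 : N ^ 3 ≤ (N ^ 2) ^ 2 := by
        rw [← pow_mul]; exact pow_le_pow_right₀ hN1 (by norm_num)
      have h8 : 0 < (N ^ 2) ^ 2 := by positivity
      nlinarith
    obtain ⟨h1, h2⟩ := key _ hpos le_rfl
    exact ⟨hpos, _, hcone x₀ hx₀ _ hpos, by
      rw [norm_smul, hn, mul_one, Real.norm_of_nonneg hpos.le], h2, h1⟩
  have hae : ∀ᵐ y : E ι, ¬ ∃ x ∈ C, ∃ t : ℝ, y = t • x := by
    rw [ae_iff]; simpa using hN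
  let Q : Set (E ι × E ι) := {p | c p.2 = ‖p.1‖}
  have hQ : MeasurableSet Q :=
    (isClosed_eq (hc.comp continuous_snd) continuous_fst.norm).measurableSet
  have hω : Measurable (wgt (2 * m + 1) c) :=
    ((hc.measurable.pow_const _).div (measurable_norm.pow_const _)).ennreal_ofReal
  have hline : ∀ U F, IsChart C U F → ∀ x ∈ U ∩ C, meanCurv F x = 0 →
      (2 * m : ℝ) ≤ ‖x‖ ^ 2 * sqCurv F x → lineInt F Q (wgt (2 * m + 1) c) x ≤ J m := by
    intro U F hch x hx h3 h4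
    obtain ⟨-, -, hsh⟩ := hSh ι C U F hch
    obtain ⟨h5, -, -, h6, -, h7⟩ := hsh x hx.1
    obtain ⟨h8, h9⟩ := hCn ι C U F hch hcone x hx
    have hx0 : x ≠ 0 := by
      rintro rfl
      simp only [norm_zero, ne_eq, OfNat.ofNat_ne_zero, not_false_eq_true, zero_pow,
        zero_mul] at h4
      linarith
    have hxp := norm_pos_iff.2 hx0
    have hD : MeasurableSet {s : ℝ | (x, x + s • normal F x) ∈ Q} :=
      (by fun_prop : Measurable fun s : ℝ => (x, x + s • normal F x)) hQ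
    rw [lineInt, setLIntegral_congr_fun hD (g := fun s => ENNReal.ofReal
      (‖x‖ ^ (2 * m + 1) / ‖x + s • normal F x‖ ^ (2 * m + 1 + 1)) *
        ENNReal.ofReal |(1 + s • shape F x).det|) (fun s hs => by
          have hs' : c (x + s • normal F x) = ‖x‖ := hs
          simp only [wgt, hs']), hLi ι m x _ _ _ hx0 h5 h8]
    refine (lintegral_mono_set fun ξ hξ v => ?_).trans (hLn ι m (‖x‖ • shape F x) (normal F x)
      (‖x‖⁻¹ • x) hcard hm (fun v w => ?_) h5 ?_ ?_ ?_ ?_ ?_ ?_)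
    · have hs' : c (x + (‖x‖ * ξ) • normal F x) = ‖x‖ := hξ
      obtain ⟨s, hs, hs2⟩ := hNe ι C U F hch x hx ((‖x‖ * ξ) • normal F x) (near (by
        rw [inner_smul_right, real_inner_comm, h8, mul_zero]) fun z hz =>
          (hle _ z hz).trans_eq (by rw [hs']))
      have := smul_left_injective ℝ (by rintro h; simp [h] at h5) hs
      simpa [← this, smul_smul, mul_comm] using hs2 v
    · simp only [smul_apply, real_inner_smul_left, inner_smul_right, h7]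
    · simp [norm_smul, hxp.ne']
    · rw [inner_smul_right, h8, mul_zero]
    · simp [h6]
    · simp [h9]
    · rw [ContinuousLinearMap.toLinearMap_smul, map_smul]
      exact smul_eq_zero_of_right _ h3
    · rw [ContinuousLinearMap.smul_comp, ContinuousLinearMap.comp_smul, smul_smul,
        ContinuousLinearMap.toLinearMap_smul, map_smul, smul_eq_mul, ← sq]
      exact h4
  refine le_of_eps fun ε hε => ?_
  have hch : ∀ x ∈ {x | x ∈ C ∧ x ≠ 0 ∧ Touched C x}, ∃ V F, IsOpen V ∧ x ∈ V ∧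
      (∀ x' ∈ C ∩ V, ∀ w, (∀ z ∈ C, ‖w‖ ≤ ‖x' + w - z‖) → ∃ s : ℝ, w = s • normal F x') ∧
      ∀ W, MeasurableSet W → W ⊆ V → ∫⁻ y in Reach C W F Q, wgt (2 * m + 1) c y ≤
        (1 + ε) * (J m * μHE[2 * m + 1] (C ∩ W)) := by
    rintro x ⟨h1, h2, h3⟩
    obtain ⟨U, F, hU, hch, hp⟩ := hreg x h1 h2 h3
    obtain ⟨V, h4, h5, h6, h7⟩ := hT ι (2 * m + 1) C U F hcard hch x ⟨hU, h1⟩ ε hε
    refine ⟨V, F, h4, h5, fun x' hx' w hw => (hNe ι C U F hch x' ⟨h6 hx'.2, hx'.1⟩ w hw).imp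
      fun _ h => h.1, fun W hW hWV => (h7 W Q _ _ hW hWV hQ hω).1 fun x' hx' => ?_⟩
    have h8 : x' ∈ U ∩ C := ⟨h6 (hWV hx'.2), hx'.1⟩
    exact hline U F hch x' h8 (hp x' h8).1 (hp x' h8).2
  choose! V F hVo hxV hnear hest using hch
  obtain ⟨xs, W, hW, hdis, hcov⟩ := hCo ι {x | x ∈ C ∧ x ≠ 0 ∧ Touched C x} V (by
    obtain ⟨y, hy⟩ := hae.exists
    obtain ⟨h1, x, h2, h3, h4, -⟩ := hfoot y hy
    exact ⟨x, h2, norm_pos_iff.1 (h3 ▸ h1), h4⟩) fun x hx => ⟨hVo x hx, hxV x hx⟩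
  have hWm : ∀ i, MeasurableSet (W i ∩ Metric.ball 0 1) := fun i =>
    (hW i).2.1.inter measurableSet_ball
  calc Kc ι ≤ ∫⁻ y in {y | 0 < c y} ∩ Metric.ball 0 1, ENNReal.ofReal ‖y‖⁻¹ :=
        lintegral_mono_set' (hae.mono fun y hy h => ⟨(hfoot y hy).1, h⟩)
    _ = ∫⁻ y in {y | 0 < c y ∧ c y < 1}, wgt (2 * m + 1) c y :=
        (hPo ι (2 * m + 1) c hcard (by omega) hc.measurable hhom).symm
    _ ≤ ∫⁻ y in ⋃ i, Reach C (W i ∩ Metric.ball 0 1) (F (xs i)) Q, wgt (2 * m + 1) c y := by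
        refine lintegral_mono_set' (hae.mono fun y hy h => ?_)
        obtain ⟨h1, x, h2, h3, h4, h5⟩ := hfoot y hy
        obtain ⟨i, hi⟩ := mem_iUnion.1 (hcov ⟨h2, norm_pos_iff.1 (h3 ▸ h1), h4⟩)
        obtain ⟨s, hs⟩ := hnear _ (hW i).1 x ⟨h2, (hW i).2.2 hi⟩ _ h5
        exact mem_iUnion.2 ⟨i, x, ⟨h2, hi, mem_ball_zero_iff.2 (h3 ▸ h.2)⟩, s,
          by rw [← hs]; simp, h3.symm⟩
    _ ≤ ∑' i, (1 + ε) * (J m * μHE[2 * m + 1] (C ∩ (W i ∩ Metric.ball 0 1))) :=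
        (lintegral_iUnion_le _ _).trans (ENNReal.tsum_le_tsum fun i =>
          hest _ (hW i).1 _ (hWm i) (inter_subset_left.trans (hW i).2.2))
    _ ≤ _ := by
        rw [ENNReal.tsum_mul_left, ENNReal.tsum_mul_left, ← measure_iUnion
          (fun i k h => (hdis h).mono (fun x hx => hx.2.1) fun x hx => hx.2.1)
          fun i => hC.measurableSet.inter (hWm i)]
        gcongr
        exact iUnion_subset fun i x hx => ⟨hx.1, hx.2.2⟩

end Pool.Agent.P.MP_2b44f0_gt
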