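import Pool.Agent.P.MP_2b44f0_gt.Iface

/-!
The cone condition and the conditions at a nearest point.
-/

namespace Pool.Agent.P.MP_2b44f0_gt

open Set Filter
open scoped RealInnerProductSpace Topology

namespace Near

theorem zero_of {f : ℝ → ℝ} {a b : ℝ} (h : HasDerivAt f b a) (e : ∀ᶠ t in 𝓝 a, f t = 0) : b = 0 :=
  h.unique ((hasDerivAt_const a (0 : ℝ)).congr_of_eventuallyEq e)

theorem second {ψ ψ' : ℝ → ℝ} {b : ℝ} (h : IsLocalMin ψ 0)
    (h1 : ∀ᶠ t in 𝓝 0, HasDerivAt ψ (ψ' t) t) (h2 : HasDerivAt ψ' b 0) : 0 ≤ b := by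
  by_contra hb
  have e : deriv ψ =ᶠ[𝓝 0] ψ' := h1.mono fun t ht => ht.deriv
  have hM : IsLocalMax ψ 0 := isLocalMax_of_deriv_deriv_neg
    (by rw [e.deriv_eq, h2.deriv]; exact not_le.1 hb) h.deriv_eq_zero
    h1.self_of_nhds.continuousAt
  have c : ψ =ᶠ[𝓝 0] fun _ => ψ 0 := (hM.and h).mono fun t ht => le_antisymm ht.1 ht.2
  refine hb (zero_of h2 ?_).ge
  filter_upwards [e, c.deriv] with t h3 h4
  rw [← h3, h4, deriv_const]

variable {ι : Type} [Fintype ι] {C U : Set (E ι)} {F : E ι → ℝ} {y v : E ι} {γ : ℝ → E ι}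

theorem cd (h : IsChart C U F) (hy : y ∈ U) : ContDiffAt ℝ 2 F y :=
  h.smooth.contDiffAt (h.isOpen.mem_nhds hy)

theorem d1 (h : IsChart C U F) (hy : y ∈ U) : HasFDerivAt F (fderiv ℝ F y) y :=
  ((cd h hy).differentiableAt two_ne_zero).hasFDerivAt

theorem d2 (h : IsChart C U F) (hy : y ∈ U) :
    HasFDerivAt (fderiv ℝ F) (fderiv ℝ (fderiv ℝ F) y) y :=
  (((cd h hy).fderiv_right (m := 1) (by norm_num)).differentiableAt one_ne_zero).hasFDerivAt

theorem tan0 (h : IsChart C U F) {a : ℝ} (hy : γ a ∈ U) (hγ : HasDerivAt γ v a)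
    (hC : ∀ᶠ t in 𝓝 a, γ t ∈ C) : fderiv ℝ F (γ a) v = 0 := by
  refine zero_of ((d1 h hy).comp_hasDerivAt a hγ) ?_
  filter_upwards [hC, hγ.continuousAt.eventually (h.isOpen.mem_nhds hy)] with t h1 h2
  exact (h.zero_set _ h2).1 h1

theorem tan2 (h : IsChart C U F) {a : ℝ} {β : ℝ → E ι} {b : E ι} (hy : γ a ∈ U)
    (hγ : HasDerivAt γ v a) (hβ : HasDerivAt β b a)
    (e : ∀ᶠ t in 𝓝 a, fderiv ℝ F (γ t) (β t) = 0) :
    fderiv ℝ (fderiv ℝ F) (γ a) v (β a) + fderiv ℝ F (γ a) b = 0 :=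
  zero_of (((d2 h hy).comp_hasDerivAt a hγ).clm_apply hβ) e

theorem proj (F : E ι → ℝ) (y v : E ι) :
    tangentProj F y v = v - ⟪normal F y, v⟫ • normal F y := by
  simp [tangentProj]

theorem perp (hn : ‖normal F y‖ = 1) (v : E ι) : ⟪normal F y, tangentProj F y v⟫ = 0 := by
  rw [proj, inner_sub_right, inner_smul_right, real_inner_self_eq_norm_sq, hn]
  ring

end Near

open Near

theorem all_cone : S_shape → S_curve → S_cone := by
  intro hS hc ι _ C U F h hC y hy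
  obtain ⟨hn, hf, -, -, hs, -⟩ := (hS ι C U F h).2.2 y hy.1
  have hl : HasDerivAt (fun l : ℝ => l • y) y 1 := by
    simpa using (hasDerivAt_id (1 : ℝ)).smul_const y
  have h1 : (1 : ℝ) • y ∈ U := by simpa using hy.1
  have pos : ∀ᶠ l in 𝓝 (1 : ℝ), 0 < l := lt_mem_nhds one_pos
  have e0 : ⟪normal F y, y⟫ = 0 := by
    have := tan0 (γ := fun l : ℝ => l • y) h h1 hl (pos.mono fun l hl => hC y hy.2 l hl)
    rw [one_smul, hf] at this
    exact (mul_eq_zero.1 this).resolve_left (norm_ne_zero_iff.2 (h.grad_ne y hy.1))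
  refine ⟨e0, ext_inner_right ℝ fun w => ?_⟩
  obtain ⟨γ, -, g0, g1, g2⟩ := hc ι C U F h y hy _ (perp hn w)
  have e1 : fderiv ℝ (fderiv ℝ F) y y (tangentProj F y w) = 0 := by
    have := tan2 (γ := fun l : ℝ => l • y) h h1 hl (hasDerivAt_const (1 : ℝ) (tangentProj F y w)) (by
      filter_upwards [pos, hl.continuousAt.eventually (h.isOpen.mem_nhds h1)] with l p q
      have := tan0 (γ := fun t => l • γ t) h (by rwa [g0]) (g1.const_smul l)
        (g2.mono fun t ht => hC _ ht l p)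
      rw [g0, map_smul, smul_eq_mul] at this
      exact (mul_eq_zero.1 this).resolve_left p.ne')
    simpa using this
  rw [hs, proj F y y, e0, zero_smul, sub_zero, e1, mul_zero, inner_zero_left]

theorem all_near : S_shape → S_curve → S_near := by
  intro hS hc ι _ C U F h y hy w hw
  obtain ⟨hn, hf, -, -, hs, -⟩ := (hS ι C U F h).2.2 y hy.1
  have key : ∀ v, ⟪normal F y, v⟫ = 0 → ⟪w, v⟫ = 0 ∧ ∃ a, ⟪w, a⟫ ≤ ⟪v, v⟫ ∧
      fderiv ℝ (fderiv ℝ F) y v v + fderiv ℝ F y a = 0 := fun v hv => by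
    obtain ⟨γ, g, g0, g1, g2⟩ := hc ι C U F h y hy v hv
    have a1 : ∀ᶠ t in 𝓝 0, HasDerivAt γ (deriv γ t) t := (g.eventually (by simp)).mono
      fun t ht => (ht.differentiableAt two_ne_zero).hasDerivAt
    have a2 : HasDerivAt (deriv γ) (deriv (deriv γ) 0) 0 :=
      ((g.derivWithin (m := 1) (by norm_num)).differentiableAt one_ne_zero).hasDerivAt
    have hm : IsLocalMin (fun t => ⟪y + w - γ t, y + w - γ t⟫) 0 := g2.mono fun t ht => by
      simp only [g0, add_sub_cancel_left, real_inner_self_eq_norm_sq]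
      exact pow_le_pow_left₀ (norm_nonneg _) (hw _ ht) 2
    have b1 : ∀ᶠ t in 𝓝 0, HasDerivAt (fun t => ⟪y + w - γ t, y + w - γ t⟫)
        (-2 * ⟪y + w - γ t, deriv γ t⟫) t := a1.mono fun t ht => by
      refine ((ht.const_sub (y + w)).inner ℝ (ht.const_sub (y + w))).congr_deriv ?_
      rw [inner_neg_left, inner_neg_right, real_inner_comm (y + w - γ t)]
      ring
    have b2 := second hm b1 (((g1.const_sub (y + w)).inner ℝ a2).const_mul (-2))
    have b3 := hm.hasDerivAt_eq_zero b1.self_of_nhds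
    have hU : γ 0 ∈ U := g0 ▸ hy.1
    have c1 := tan2 h hU g1 a2 (by
      filter_upwards [a1, g2.eventually_nhds,
        g1.continuousAt.eventually (h.isOpen.mem_nhds hU)] with t p q r
      exact tan0 h r p q)
    simp only [g0, add_sub_cancel_left, g1.deriv, inner_neg_left] at b2 b3 c1
    exact ⟨by linarith, _, by linarith, c1⟩
  have e : w = ⟪normal F y, w⟫ • normal F y := by
    have h1 := perp hn w
    have h2 := (key _ h1).1
    rw [← sub_eq_zero, ← proj, ← inner_self_eq_zero (𝕜 := ℝ)]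
    nth_rewrite 1 [proj]
    rw [inner_sub_left, inner_smul_left, h1, h2, mul_zero, sub_zero]
  refine ⟨_, e, fun v => ?_⟩
  obtain ⟨-, a, h1, h2⟩ := key _ (perp hn v)
  have n0 : ‖gradient F y‖ ≠ 0 := norm_ne_zero_iff.2 (h.grad_ne y hy.1)
  have h3 : ⟪tangentProj F y v, tangentProj F y v⟫ ≤ ⟪v, v⟫ := by
    nth_rewrite 1 [proj]
    rw [inner_sub_left, inner_smul_left, perp hn, mul_zero, sub_zero, proj, inner_sub_right,
      inner_smul_right, real_inner_comm (normal F y) v]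
    nlinarith [mul_self_nonneg ⟪normal F y, v⟫]
  rw [e, real_inner_smul_left] at h1
  rw [inner_add_right, inner_smul_right, real_inner_comm, real_inner_comm (shape F y v), hs,
    eq_neg_of_add_eq_zero_left h2, hf, mul_neg, inv_mul_cancel_left₀ n0]
  linarith

end Pool.Agent.P.MP_2b44f0_gt
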