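import Pool.Agent.P.MP_2b44f0_gt.Iface

/-! The Simons identity in a differential ring. -/

namespace Pool.Agent.P.MP_2b44f0_gt

open Finset

namespace SimAlg

variable {ι R : Type} [Fintype ι] [CommRing R]

theorem c3 (w : ι → ι → ι → R) (p r : ι → ι → R) (q : ι → R)
    (h : ∀ k i, ∑ j, w k i j * q j = r k i) :
    ∑ k, ∑ i, ∑ j, w k i j * (p k i * q j) = ∑ k, ∑ i, p k i * r k i :=
  sum_congr rfl fun k _ => sum_congr rfl fun i _ => by
    rw [← h, mul_sum]; exact sum_congr rfl fun j _ => by ring

theorem c2 (w : ι → ι → ι → R) (p r : ι → ι → R) (q : ι → R)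
    (h : ∀ k j, ∑ i, w k i j * q i = r k j) :
    ∑ k, ∑ i, ∑ j, w k i j * (p k j * q i) = ∑ k, ∑ j, p k j * r k j := by
  rw [← c3 (fun k j i => w k i j) p r q h]
  exact sum_congr rfl fun k _ => sum_comm

theorem c1 (w : ι → ι → ι → R) (p r : ι → ι → R) (q : ι → R)
    (h : ∀ i j, ∑ k, w k i j * q k = r i j) :
    ∑ k, ∑ i, ∑ j, w k i j * (p i j * q k) = ∑ i, ∑ j, p i j * r i j := by
  rw [← c3 (fun i j k => w k i j) p r q h, sum_comm]
  exact sum_congr rfl fun i _ => sum_comm

/-- the sum of squares -/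
theorem sq_id (ν x : ι → R) (a c : ι → ι → R) (b : ι → ι → ι → R) (ρ : R)
    (hρ : ∑ i, x i * x i = ρ) (hνx : ∑ i, ν i * x i = 0) (hν : ∑ i, ν i * ν i = 1)
    (hb : ∀ k i j, b k i j = b k j i)
    (hax : ∀ i, ∑ j, a i j * x j = 0) (hxa : ∀ j, ∑ i, a i j * x i = 0)
    (hcν : ∀ i, ∑ j, c i j * ν j = 0) (hcx : ∀ i, ∑ j, c i j * x j = 0)
    (hxc : ∀ j, ∑ i, c i j * x i = 0)
    (hbν : ∀ k i, ∑ j, b k i j * ν j = - c k i) (hbx : ∀ k i, ∑ j, b k i j * x j = - a k i)
    (hxb : ∀ i j, ∑ k, b k i j * x k = - a i j) :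
    ∑ k, ∑ i, ∑ j, (ρ * (b k i j + c k i * ν j + c k j * ν i) +
      (a k i * x j + a k j * x i + a i j * x k)) ^ 2 =
      ρ ^ 2 * (∑ k, ∑ i, ∑ j, b k i j * b k i j - 2 * ∑ k, ∑ i, c k i * c k i) -
        3 * (ρ * ∑ k, ∑ i, a k i * a k i) := by
  set u : ι → ι → ι → R := fun k i j => b k i j + c k i * ν j + c k j * ν i with hu
  set v : ι → ι → ι → R := fun k i j => a k i * x j + a k j * x i + a i j * x k with hv
  have us : ∀ k i j, u k i j = u k j i := fun k i j => by simp only [hu, hb k i j]; ring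
  have u1 : ∀ k i, ∑ j, u k i j * ν j = 0 := fun k i => by
    have : ∀ j, u k i j * ν j = b k i j * ν j + c k i * (ν j * ν j) + ν i * (c k j * ν j) :=
      fun j => by simp only [hu]; ring
    simp only [this, sum_add_distrib, ← mul_sum, hbν, hν, hcν]; ring
  have u2 : ∀ k i, ∑ j, u k i j * x j = - a k i := fun k i => by
    have : ∀ j, u k i j * x j = b k i j * x j + c k i * (ν j * x j) + ν i * (c k j * x j) :=
      fun j => by simp only [hu]; ring
    simp only [this, sum_add_distrib, ← mul_sum, hbx, hνx, hcx]; ring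
  have u3 : ∀ i j, ∑ k, u k i j * x k = - a i j := fun i j => by
    have : ∀ k, u k i j * x k = b k i j * x k + ν j * (c k i * x k) + ν i * (c k j * x k) :=
      fun k => by simp only [hu]; ring
    simp only [this, sum_add_distrib, ← mul_sum, hxb, hxc]; ring
  have v1 : ∀ k i, ∑ j, v k i j * x j = a k i * ρ := fun k i => by
    have : ∀ j, v k i j * x j = a k i * (x j * x j) + x i * (a k j * x j) + x k * (a i j * x j) :=
      fun j => by simp only [hv]; ring
    simp only [this, sum_add_distrib, ← mul_sum, hρ, hax]; ring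
  have v2 : ∀ k j, ∑ i, v k i j * x i = a k j * ρ := fun k j => by
    have : ∀ i, v k i j * x i = a k j * (x i * x i) + x j * (a k i * x i) + x k * (a i j * x i) :=
      fun i => by simp only [hv]; ring
    simp only [this, sum_add_distrib, ← mul_sum, hρ, hax, hxa]; ring
  have v3 : ∀ i j, ∑ k, v k i j * x k = a i j * ρ := fun i j => by
    have : ∀ k, v k i j * x k = a i j * (x k * x k) + x j * (a k i * x k) + x i * (a k j * x k) :=
      fun k => by simp only [hv]; ring
    simp only [this, sum_add_distrib, ← mul_sum, hρ, hxa]; ring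
  have e1 := c3 u c _ ν u1
  have e2 := c2 u c (fun _ _ => 0) ν fun k j => by simp only [fun i => us k i j, u1]
  have e3 := c3 b c _ ν hbν
  have e4 := c2 b c (fun k j => - c k j) ν fun k j => by simp only [fun i => hb k i j, hbν]
  have e5 := c3 u a _ x u2
  have e6 := c2 u a (fun k j => - a k j) x fun k j => by simp only [fun i => us k i j, u2]
  have e7 := c1 u a _ x u3
  have e8 := c3 v a _ x v1
  have e9 := c2 v a _ x v2
  have e10 := c1 v a _ x v3
  have key : ∀ k i j, (ρ * u k i j + v k i j) ^ 2 =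
      ρ ^ 2 * (b k i j * b k i j) + ρ ^ 2 * (b k i j * (c k i * ν j)) +
      ρ ^ 2 * (b k i j * (c k j * ν i)) + ρ ^ 2 * (u k i j * (c k i * ν j)) +
      ρ ^ 2 * (u k i j * (c k j * ν i)) + 2 * ρ * (u k i j * (a k i * x j)) +
      2 * ρ * (u k i j * (a k j * x i)) + 2 * ρ * (u k i j * (a i j * x k)) +
      v k i j * (a k i * x j) + v k i j * (a k j * x i) + v k i j * (a i j * x k) :=
    fun k i j => by simp only [hu, hv]; ring
  change ∑ k, ∑ i, ∑ j, (ρ * u k i j + v k i j) ^ 2 = _
  simp only [key, sum_add_distrib, ← mul_sum]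
  rw [e1, e2, e3, e4, e5, e6, e7, e8, e9, e10]
  simp only [mul_neg, sum_neg_distrib, mul_zero, sum_const_zero, ← mul_assoc, ← sum_mul]
  ring

end SimAlg

open SimAlg in
theorem all_simAlg : S_simAlg := by
  intro ι _ _ R _ δ ν x a ev S hL hν hs hx hn h1 hc htr hνx hS hδS h0
  set ρ := ∑ i, x i * x i with hρ
  set T := ∑ i, ∑ j, a i j * a i j with hT
  set b : ι → ι → ι → R := fun k i j => δ k (a i j) with hb
  set c : ι → ι → R := fun i k => ∑ j, a i j * a k j with hcd
  have bs : ∀ k i j, b k i j = b k j i := fun k i j => by simp only [hb, hs i j]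
  have cs : ∀ i j, c i j = c j i := fun i j => sum_congr rfl fun l _ => mul_comm _ _
  have aν : ∀ i, ∑ j, a i j * ν j = 0 := fun i => by
    rw [← hn (ν i)]; exact sum_congr rfl fun j _ => by rw [hν, hs, mul_comm]
  have νa : ∀ j, ∑ i, a i j * ν i = 0 := fun j => by simp only [fun i => hs i j, aν]
  have proj : ∀ (f : ι → R) k, ∑ j, f j * δ k (x j) = f k - ν k * ∑ j, f j * ν j := fun f k => by
    have : ∀ j, f j * δ k (x j) = (if k = j then f j else 0) - ν k * (f j * ν j) := fun j => by
      rw [hx]; split_ifs <;> ring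
    simp only [this, sum_sub_distrib, sum_ite_eq, mem_univ, if_true, ← mul_sum]
  have ax : ∀ i, ∑ j, a i j * x j = 0 := fun i => by
    have h := congrArg (δ i) hνx
    simp only [map_sum, hL, hν, sum_add_distrib, proj, h1, map_zero] at h
    linear_combination h
  have xa : ∀ j, ∑ i, a i j * x i = 0 := fun j => by simp only [fun i => hs i j, ax]
  have cq : ∀ q : ι → R, (∀ j, ∑ i, a i j * q i = 0) → ∀ i, ∑ j, c i j * q j = 0 := fun q h i => by
    simp only [hcd, sum_mul]
    rw [sum_comm]
    exact sum_eq_zero fun l _ => by simp only [mul_assoc, ← mul_sum, h, mul_zero]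
  have cν := cq ν νa
  have cx := cq x xa
  have xc : ∀ j, ∑ i, c i j * x i = 0 := fun j => by simp only [fun i => cs i j, cx]
  have νc : ∀ j, ∑ i, c i j * ν i = 0 := fun j => by simp only [fun i => cs i j, cν]
  have bν : ∀ k i, ∑ j, b k i j * ν j = - c k i := fun k i => by
    have h := congrArg (δ k) (aν i)
    simp only [map_sum, hL, hν, sum_add_distrib, map_zero] at h
    rw [cs]
    linear_combination h
  have bx : ∀ k i, ∑ j, b k i j * x j = - a k i := fun k i => by
    have h := congrArg (δ k) (ax i)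
    simp only [map_sum, hL, sum_add_distrib, proj, aν, map_zero] at h
    rw [hs]
    linear_combination h
  have cod : ∀ k i j, b k i j = b i k j + ν k * c i j - ν i * c k j := fun k i j => by
    have h := hc k i (ν j)
    simp only [hν, sub_mul, sum_sub_distrib, mul_assoc, ← mul_sum, fun l => hs l j] at h
    rw [bs k i j, bs i k j]
    linear_combination h
  have xb : ∀ i j, ∑ k, b k i j * x k = - a i j := fun i j => by
    have : ∀ k, b k i j * x k = b i j k * x k + c i j * (ν k * x k) - ν i * (c k j * x k) :=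
      fun k => by rw [cod k i j, bs i k j]; ring
    simp only [this, sum_add_distrib, sum_sub_distrib, ← mul_sum, bx, hνx, xc]; ring
  have bk : ∀ j, ∑ k, b k k j = - (ν j * T) := fun j => by
    have : ∀ k, b k k j = b j k k + c j k * ν k - ν j * c k k :=
      fun k => by rw [bs k k j, cod k j k]; ring
    have h := congrArg (δ j) htr
    simp only [map_sum, map_zero] at h
    simp only [this, sum_add_distrib, sum_sub_distrib, ← mul_sum, cν]
    linear_combination h
  have lap : ∀ i j, ∑ k, δ k (b k i j) = - (a i j * T) - ν j * δ i T - ∑ l, a i l * c l j -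
      ∑ k, a k i * c k j - ν i * ∑ k, (∑ l, a k l * b l k j + δ k (c k j)) := fun i j => by
    have e1 : ∀ k, δ k (b k i j) = δ i (b k k j) + ∑ l, a i l * (b l j k * ν k) + a k k * c i j +
        ν k * δ k (c i j) - a k i * c k j - ν i * (∑ l, a k l * b l k j + δ k (c k j)) := fun k => by
      have h := hc k i (a k j)
      have h2 : ∑ l, (ν k * a i l - ν i * a k l) * δ l (a k j) =
          ∑ l, a i l * (b l j k * ν k) - ν i * ∑ l, a k l * b l k j := by
        rw [mul_sum, ← sum_sub_distrib]
        exact sum_congr rfl fun l _ => by rw [bs l j k]; simp only [hb]; ring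
      rw [cod k i j, map_sub, map_add, hL, hL, hν, hν]
      linear_combination h + h2
    have e2 : ∑ k, ∑ l, a i l * (b l j k * ν k) = - ∑ l, a i l * c l j := by
      rw [sum_comm]; simp only [← mul_sum, bν, mul_neg, sum_neg_distrib]
    simp only [e1, sum_add_distrib, sum_sub_distrib, ← mul_sum, ← sum_mul, ← map_sum, bk, e2, hn,
      htr, map_neg, hL, hν]
    ring
  have q1 : ∑ i, ∑ j, a i j * ∑ l, a i l * c l j = ∑ k, ∑ i, c k i * c k i := by
    simp only [mul_sum]
    rw [sum_comm]
    refine sum_congr rfl fun j _ => ?_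
    rw [sum_comm]
    refine sum_congr rfl fun l _ => ?_
    rw [cs l j]
    simp only [← mul_assoc, ← sum_mul]
    congr 1
    exact sum_congr rfl fun i _ => by rw [hs i j, hs i l]
  have lap2 : ∑ i, ∑ j, a i j * ∑ k, δ k (b k i j) = - T ^ 2 - 2 * ∑ k, ∑ i, c k i * c k i := by
    have e1 : ∑ i, ∑ j, a i j * (ν j * δ i T) = 0 := sum_eq_zero fun i _ => by
      simp only [← mul_assoc, ← sum_mul, aν, zero_mul]
    have e2 : ∀ g : ι → R, ∑ i, ∑ j, a i j * (ν i * g j) = 0 := fun g => by
      rw [sum_comm]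
      exact sum_eq_zero fun j _ => by simp only [← mul_assoc, ← sum_mul, νa, zero_mul]
    have e3 : ∑ i, ∑ j, a i j * (a i j * T) = T * T := by
      simp only [← mul_assoc, ← sum_mul, ← hT]
    simp only [lap, mul_sub, mul_neg, sum_sub_distrib, sum_neg_distrib, e1, e2, e3,
      fun i k => hs k i, q1]
    ring
  have dT : ∀ k, δ k T = 2 * ∑ i, ∑ j, a i j * b k i j := fun k => by
    simp only [hT, map_sum, hL, mul_sum]
    exact sum_congr rfl fun i _ => sum_congr rfl fun j _ => by simp only [hb]; ring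
  have lapT : ∑ k, δ k (δ k T) = 2 * ∑ k, ∑ i, ∑ j, b k i j * b k i j +
      2 * ∑ i, ∑ j, a i j * ∑ k, δ k (b k i j) := by
    have : ∑ i, ∑ j, a i j * ∑ k, δ k (b k i j) = ∑ k, ∑ i, ∑ j, a i j * δ k (b k i j) := by
      simp only [mul_sum]
      exact (sum_congr rfl fun i _ => sum_comm).trans sum_comm
    rw [this]
    simp only [dT, two_mul, map_add, map_sum, hL, sum_add_distrib]
    ring
  have dρ : ∀ k, δ k ρ = 2 * x k := fun k => by
    have h := proj x k
    simp only [mul_comm (x _) (ν _), hνx] at h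
    simp only [hρ, map_sum, hL, sum_add_distrib, mul_comm (δ k _) (x _), h]
    ring
  have E1 : ∀ k, ρ * δ k T + (x k * T + x k * T) = 0 := fun k => by
    have h := hδS k
    rw [← hS, hL, dρ] at h
    linear_combination h
  have E2 : ρ * ∑ k, δ k (δ k T) + 4 * ∑ k, x k * δ k T + 2 * ((Fintype.card ι : R) - 1) * T = 0 := by
    have h : ∀ k, ρ * δ k (δ k T) + 4 * (x k * δ k T) + 2 * ((1 - ν k * ν k) * T) = 0 := fun k => by
      have h := congrArg (δ k) (E1 k)
      simp only [map_add, hL, dρ, hx, if_true, map_zero] at h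
      linear_combination h
    have h2 := sum_eq_zero (s := univ) fun k _ => h k
    simp only [sum_add_distrib, ← mul_sum, ← sum_mul, sum_sub_distrib, h1, sum_const, card_univ,
      nsmul_eq_mul, mul_one] at h2
    linear_combination h2
  have E3 : ρ * ∑ k, x k * δ k T = - (2 * (ρ * T)) := by
    have h2 := sum_eq_zero (s := univ) fun k _ => congrArg (x k * ·) (E1 k) |>.trans (mul_zero _)
    simp only [mul_add, sum_add_distrib, ← mul_assoc, ← sum_mul, mul_comm (x _) ρ, ← hρ] at h2
    simp only [mul_sum, ← mul_assoc]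
    linear_combination h2
  have sq := sq_id ν x a c b ρ rfl hνx h1 bs ax xa cν cx xc bν bx xb
  have fin : 2 * ∑ k, ∑ i, ∑ j, (ρ * (b k i j + c k i * ν j + c k j * ν i) +
      (a k i * x j + a k j * x i + a i j * x k)) ^ 2 =
      2 * (S * (S - ((Fintype.card ι : R) - 2))) := by
    rw [sq, ← hT, ← hS]
    rw [lapT, lap2] at E2
    linear_combination ρ * E2 - 4 * E3
  have h2 := congrArg ev fin
  simp only [map_mul, map_sum, map_pow, map_sub, map_natCast, map_ofNat] at h2
  have h3 : 0 ≤ ev S := by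
    rw [← hS, hρ, hT]
    simp only [map_mul, map_sum]
    exact mul_nonneg (sum_nonneg fun _ _ => mul_self_nonneg _)
      (sum_nonneg fun _ _ => sum_nonneg fun _ _ => mul_self_nonneg _)
  have h4 : 0 ≤ ev S * (ev S - ((Fintype.card ι : ℝ) - 2)) := by
    have := sum_nonneg (s := univ) fun k _ => sum_nonneg (s := univ) fun i _ =>
      sum_nonneg (s := univ) fun j _ => sq_nonneg (ev (ρ * (b k i j + c k i * ν j + c k j * ν i) +
        (a k i * x j + a k j * x i + a i j * x k)))
    linarith
  exact sub_nonneg.1 (nonneg_of_mul_nonneg_right h4 (h3.lt_of_ne' h0))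

end Pool.Agent.P.MP_2b44f0_gt
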