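import Pool.Agent.P.MP_2b44f0_gt.Iface

/-!
Polar coordinates, rescaling along a line, countable disjoint covers.
-/

namespace Pool.Agent.P.MP_2b44f0_gt

open MeasureTheory Set
open scoped ENNReal RealInnerProductSpace Topology

namespace Polar

theorem scale {a : ℝ} (ha : 0 < a) (D : Set ℝ) (f : ℝ → ℝ≥0∞) :
    ∫⁻ s in D, f s = ∫⁻ ξ in {ξ : ℝ | a * ξ ∈ D}, ENNReal.ofReal a * f (a * ξ) := by
  have he : MeasurableEmbedding fun ξ : ℝ => a * ξ :=
    (Homeomorph.mulLeft₀ a ha.ne').measurableEmbedding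
  conv_lhs => rw [← Real.smul_map_volume_mul_left ha.ne']
  rw [Measure.restrict_smul, lintegral_smul_measure, he.restrict_map, he.lintegral_map,
    lintegral_const_mul' _ _ ENNReal.ofReal_ne_top, abs_of_pos ha, smul_eq_mul]
  rfl

theorem pol {ι : Type} [Fintype ι] {d : ℕ} (hd : Fintype.card ι = d + 1) {g : E ι → ℝ≥0∞}
    (hg : Measurable g) : ∫⁻ y, g y = ∫⁻ θ : Metric.sphere (0 : E ι) 1,
      ∫⁻ r in Ioi (0 : ℝ), ENNReal.ofReal (r ^ d) * g (r • (θ : E ι)) ∂volume
        ∂(volume : Measure (E ι)).toSphere := by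
  have : Nonempty ι := Fintype.card_pos_iff.1 (by omega)
  have h1 := (volume : Measure (E ι)).measurePreserving_homeomorphUnitSphereProd
  rw [finrank_euclideanSpace, hd, Nat.add_sub_cancel] at h1
  have h2 : Measurable fun p : Metric.sphere (0 : E ι) 1 × Ioi (0 : ℝ) =>
      g ((p.2 : ℝ) • (p.1 : E ι)) := hg.comp (by fun_prop)
  conv_lhs => rw [← restrict_compl_singleton (μ := volume) (0 : E ι),
    ← lintegral_subtype_comap (measurableSet_singleton _).compl]
  have h3 := h1.lintegral_comp h2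
  simp only [homeomorphUnitSphereProd_apply_snd_coe, homeomorphUnitSphereProd_apply_fst_coe] at h3
  rw [lintegral_congr (g := fun a : ({0}ᶜ : Set (E ι)) => g (‖a.1‖ • ‖a.1‖⁻¹ • a.1)) fun a => by
    rw [smul_inv_smul₀ (norm_ne_zero_iff.2 a.2)], h3, lintegral_prod _ h2.aemeasurable]
  refine lintegral_congr fun θ => ?_
  rw [Measure.volumeIoiPow, lintegral_withDensity_eq_lintegral_mul _ (by fun_prop)
    (by fun_prop), ← lintegral_subtype_comap measurableSet_Ioi]
  rfl

end Polar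

theorem all_polar : S_polar := by
  intro ι _ d c hd _ hc hom
  have m1 : MeasurableSet {y | 0 < c y ∧ c y < 1} := hc measurableSet_Ioo
  have m2 : MeasurableSet ({y | 0 < c y} ∩ Metric.ball (0 : E ι) 1) :=
    (hc measurableSet_Ioi).inter measurableSet_ball
  rw [← lintegral_indicator m1, ← lintegral_indicator m2,
    Polar.pol hd (.indicator (by unfold wgt; fun_prop) m1),
    Polar.pol hd (.indicator (by fun_prop) m2)]
  refine lintegral_congr fun θ => ?_
  have hθ : ‖(θ : E ι)‖ = 1 := by simp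
  rcases le_or_gt (c θ) 0 with h | h
  · refine setLIntegral_congr_fun measurableSet_Ioi fun r hr => ?_
    have : ¬ 0 < c (r • (θ : E ι)) := by
      rw [hom _ _ hr]
      exact not_lt.2 (mul_nonpos_of_nonneg_of_nonpos (le_of_lt hr) h)
    beta_reduce
    rw [indicator_of_notMem fun e => this e.1, indicator_of_notMem fun e => this e.1]
  · rw [Polar.scale h (Ioi 0) fun r => _ * indicator ({y | 0 < c y} ∩ _) _ _,
      show {ξ : ℝ | c θ * ξ ∈ Ioi 0} = Ioi 0 from ext fun ξ => mul_pos_iff_of_pos_left h]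
    refine setLIntegral_congr_fun measurableSet_Ioi fun r (hr : 0 < r) => ?_
    have h1 : 0 < c θ * r := mul_pos h hr
    have h2 : ‖(c θ * r) • (θ : E ι)‖ = c θ * r := by
      rw [norm_smul, hθ, mul_one, Real.norm_of_nonneg h1.le]
    have h3 : c (r • (θ : E ι)) = c θ * r := by rw [hom _ _ hr, mul_comm]
    beta_reduce
    rcases lt_or_ge (c θ * r) 1 with e | e
    · rw [indicator_of_mem (show r • (θ : E ι) ∈ {y | 0 < c y ∧ c y < 1} from ⟨h3 ▸ h1, h3 ▸ e⟩),
        indicator_of_mem (show (c θ * r) • (θ : E ι) ∈ {y | 0 < c y} ∩ Metric.ball 0 1 from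
          ⟨by rw [mem_ofPred, hom _ _ h1]; positivity, by rwa [mem_ball_zero_iff, h2]⟩),
        wgt, h2, h3, norm_smul, hθ, mul_one, Real.norm_of_nonneg hr.le,
        ← ENNReal.ofReal_mul (by positivity), ← ENNReal.ofReal_mul (by positivity),
        ← ENNReal.ofReal_mul h.le]
      congr 1
      field_simp
      ring
    · rw [indicator_of_notMem fun e' => absurd (h3 ▸ e'.2 : c θ * r < 1) (not_lt.2 e),
        indicator_of_notMem fun e' => absurd (h2 ▸ mem_ball_zero_iff.1 e'.2) (not_lt.2 e)]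
      simp

theorem all_line : S_line := by
  intro ι _ m x ν A D hx hν h
  have h0 : 0 < ‖x‖ := norm_pos_iff.2 hx
  rw [Polar.scale h0]
  refine lintegral_congr fun ξ => ?_
  have h1 : ‖x + (‖x‖ * ξ) • ν‖ ^ 2 = ‖x‖ ^ 2 * (1 + ξ ^ 2) := by
    rw [norm_add_sq_real, real_inner_smul_right, real_inner_comm, h, norm_smul, hν, mul_one,
      Real.norm_eq_abs, sq_abs]
    ring
  rw [← ENNReal.ofReal_mul (by positivity), ← ENNReal.ofReal_mul h0.le, smul_smul,
    mul_comm ξ, show 2 * m + 1 + 1 = 2 * (m + 1) by ring, pow_mul _ 2 (m + 1), h1, mul_pow,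
    ← pow_mul]
  congr 1
  field_simp
  ring

theorem all_cover : S_cover := by
  intro ι _ R V hR hV
  obtain ⟨T, hT, hc, e⟩ := TopologicalSpace.isOpen_biUnion_countable R V fun x hx => (hV x hx).1
  have h1 : R ⊆ ⋃ x ∈ T, V x := fun x hx => e ▸ mem_biUnion hx (hV x hx).2
  obtain ⟨x, rfl⟩ := hc.exists_eq_range (by
    obtain ⟨y, hy⟩ := hR
    obtain ⟨z, hz, -⟩ := mem_iUnion₂.1 (h1 hy)
    exact ⟨z, hz⟩)
  refine ⟨x, disjointed fun i => V (x i), fun i => ⟨hT ⟨i, rfl⟩,
    .disjointed (fun i => (hV _ (hT ⟨i, rfl⟩)).1.measurableSet) i, disjointed_subset _ i⟩,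
    disjoint_disjointed _, ?_⟩
  rwa [iUnion_disjointed, ← biUnion_range]

end Pool.Agent.P.MP_2b44f0_gt
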