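import Pool.Agent.P.MP_2b44f0_gt.Iface

/-!
Calculus of the unit normal, and curves with a given tangent vector.
-/

namespace Pool.Agent.P.MP_2b44f0_gt

open Set Filter
open scoped RealInnerProductSpace Topology

namespace Shape

variable {ι : Type} [Fintype ι] {C U : Set (E ι)} {F : E ι → ℝ} {y : E ι}

/-- the vector representing a linear form -/
noncomputable def L : (E ι →L[ℝ] ℝ) →L[ℝ] E ι :=
  LinearMap.toContinuousLinearMap
    { toFun := fun f => (InnerProductSpace.toDual ℝ (E ι)).symm f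
      map_add' := fun f g => by simp
      map_smul' := fun c f => by simp }

theorem inner_L (f : E ι →L[ℝ] ℝ) (v : E ι) : ⟪L f, v⟫ = f v :=
  InnerProductSpace.toDual_symm_apply

theorem grad_eq (F : E ι → ℝ) : gradient F = fun y => L (fderiv ℝ F y) := rfl

theorem c2 (h : IsChart C U F) (hy : y ∈ U) : ContDiffAt ℝ 2 F y :=
  h.smooth.contDiffAt (h.isOpen.mem_nhds hy)

theorem c1 (h : IsChart C U F) (hy : y ∈ U) : ContDiffAt ℝ 1 (fderiv ℝ F) y :=
  (c2 h hy).fderiv_right (by norm_num)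

theorem cG (h : IsChart C U F) (hy : y ∈ U) : ContDiffAt ℝ 1 (gradient F) y :=
  (L (ι := ι)).contDiff.contDiffAt.comp y (c1 h hy)

theorem cI (h : IsChart C U F) (hy : y ∈ U) : ContDiffAt ℝ 1 (fun z => ‖gradient F z‖⁻¹) y :=
  ((cG h hy).norm ℝ (h.grad_ne y hy)).inv (norm_ne_zero_iff.2 (h.grad_ne y hy))

theorem cN (h : IsChart C U F) (hy : y ∈ U) : ContDiffAt ℝ 1 (normal F) y :=
  (cI h hy).smul (cG h hy)

theorem norm_N (h : IsChart C U F) (hy : y ∈ U) : ‖normal F y‖ = 1 :=
  norm_smul_inv_norm (𝕜 := ℝ) (h.grad_ne y hy)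

theorem inner_N (h : IsChart C U F) (hy : y ∈ U) : ⟪normal F y, normal F y⟫ = 1 := by
  rw [real_inner_self_eq_norm_sq, norm_N h hy, one_pow]

theorem fd (h : IsChart C U F) (hy : y ∈ U) (v : E ι) :
    fderiv ℝ F y v = ‖gradient F y‖ * ⟪normal F y, v⟫ := by
  rw [normal, real_inner_smul_left, inner_gradient_left,
    mul_inv_cancel_left₀ (norm_ne_zero_iff.2 (h.grad_ne y hy))]

theorem orth (h : IsChart C U F) (hy : y ∈ U) (v : E ι) :
    ⟪normal F y, fderiv ℝ (normal F) y v⟫ = 0 := by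
  have hd := (cN h hy).differentiableAt one_ne_zero
  have h1 := fderiv_inner_apply ℝ hd hd v
  have h2 : (fun z => ⟪normal F z, normal F z⟫) =ᶠ[𝓝 y] fun _ => (1 : ℝ) :=
    (h.isOpen.eventually_mem hy).mono fun z hz => inner_N h hz
  rw [h2.fderiv_eq, real_inner_comm (normal F y) (fderiv ℝ (normal F) y v)] at h1
  simp only [fderiv_fun_const, Pi.zero_apply, zero_apply] at h1
  linarith

theorem proj_apply (v : E ι) : tangentProj F y v = v - ⟪normal F y, v⟫ • normal F y := rfl

theorem inner_proj (h : IsChart C U F) (hy : y ∈ U) (v : E ι) :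
    ⟪normal F y, tangentProj F y v⟫ = 0 := by
  rw [proj_apply, inner_sub_right, real_inner_smul_right, inner_N h hy, mul_one, sub_self]

theorem dN (h : IsChart C U F) (hy : y ∈ U) (v w : E ι) (hw : ⟪normal F y, w⟫ = 0) :
    ⟪fderiv ℝ (normal F) y v, w⟫ = ‖gradient F y‖⁻¹ * fderiv ℝ (fderiv ℝ F) y v w := by
  have h1 : HasFDerivAt (gradient F) (L.comp (fderiv ℝ (fderiv ℝ F) y)) y :=
    (L (ι := ι)).hasFDerivAt.comp y ((c1 h hy).differentiableAt one_ne_zero).hasFDerivAt
  have h2 : HasFDerivAt (normal F) _ y :=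
    ((cI h hy).differentiableAt one_ne_zero).hasFDerivAt.smul h1
  have h3 : ⟪gradient F y, w⟫ = 0 := by rw [inner_gradient_left, fd h hy, hw, mul_zero]
  rw [h2.fderiv]
  simp only [add_apply, smul_apply,
    ContinuousLinearMap.comp_apply, ContinuousLinearMap.smulRight_apply, inner_add_left,
    real_inner_smul_left, inner_L, h3, mul_zero, add_zero]

theorem form (h : IsChart C U F) (hy : y ∈ U) (v w : E ι) :
    ⟪shape F y v, w⟫ = ‖gradient F y‖⁻¹ *
      fderiv ℝ (fderiv ℝ F) y (tangentProj F y v) (tangentProj F y w) := by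
  rw [← dN h hy _ _ (inner_proj h hy w), proj_apply w, inner_sub_right, real_inner_smul_right,
    real_inner_comm (normal F y), orth h hy, mul_zero, sub_zero]
  rfl

end Shape

theorem all_shape : S_shape := by
  intro ι _ C U F h
  have hN : ContDiffOn ℝ 1 (normal F) U := fun y hy => (Shape.cN h hy).contDiffWithinAt
  refine ⟨hN, continuousOn_clm_apply.2 fun v => ?_, fun y hy => ⟨Shape.norm_N h hy, Shape.fd h hy,
    Shape.orth h hy, ?_, Shape.form h hy, fun v w => ?_⟩⟩
  · have h1 : ContinuousOn (fun y => v - ⟪normal F y, v⟫ • normal F y) U := continuousOn_const.sub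
      ((hN.continuousOn.inner (𝕜 := ℝ) continuousOn_const).smul hN.continuousOn)
    exact (hN.continuousOn_fderiv_of_isOpen h.isOpen le_rfl).clm_apply h1
  · show fderiv ℝ (normal F) y (tangentProj F y (normal F y)) = 0
    rw [Shape.proj_apply, Shape.inner_N h hy, one_smul, sub_self, map_zero]
  · rw [real_inner_comm (shape F y w), Shape.form h hy, Shape.form h hy,
      ((Shape.c2 h hy).isSymmSndFDerivAt (by simp)).eq]

theorem all_curve : S_shape → S_curve := by
  intro _ ι _ C U F h y hy v hv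
  set ν := normal F y with hν
  have g0 : ‖gradient F y‖ ≠ 0 := norm_ne_zero_iff.2 (h.grad_ne y hy.1)
  have hF := Shape.c2 h hy.1
  have F0 : F y = 0 := (h.zero_set y hy.1).1 hy.2
  let Φ : E ι → E ι := fun z => z + (‖gradient F y‖⁻¹ * F z - ⟪ν, z - y⟫) • ν
  have h1 : ContDiffAt ℝ 2 Φ y := contDiffAt_id.add (((contDiffAt_const.mul hF).sub
    (contDiffAt_const.inner ℝ (contDiffAt_id.sub contDiffAt_const))).smul contDiffAt_const)
  have h0 : Φ y = y := by simp [Φ, F0]
  have h2 : HasFDerivAt Φ (ContinuousLinearEquiv.refl ℝ (E ι) : E ι →L[ℝ] E ι) y := by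
    have a1 := (hF.differentiableAt two_ne_zero).hasFDerivAt.const_mul ‖gradient F y‖⁻¹
    have a2 : HasFDerivAt (fun z : E ι => ⟪ν, z - y⟫) (innerSL ℝ ν) y := by
      simp only [inner_sub_right]
      exact (innerSL ℝ ν).hasFDerivAt.sub_const ⟪ν, y⟫
    refine ((hasFDerivAt_id y).add ((a1.sub a2).smul_const ν)).congr_fderiv ?_
    ext1 u
    simp [Shape.fd h hy.1, g0, hν]
  have hs := h1.hasStrictFDerivAt' h2 two_ne_zero
  have b1 := h1.to_localInverse h2 two_ne_zero
  have b2 := h1.localInverse_apply_image h2 two_ne_zero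
  have b3 : HasFDerivAt (h1.localInverse h2 two_ne_zero) _ _ := hs.to_localInverse.hasFDerivAt
  have b4 : ∀ᶠ z in 𝓝 (Φ y), Φ (h1.localInverse h2 two_ne_zero z) = z :=
    hs.eventually_right_inverse
  generalize h1.localInverse h2 two_ne_zero = Ψ at b1 b2 b3 b4
  rw [h0] at b1 b2 b3 b4
  have l0 : y + (0 : ℝ) • v = y := by simp
  have l1 : ContDiffAt ℝ 2 (fun t : ℝ => y + t • v) 0 := by fun_prop
  have l2 : HasDerivAt (fun t : ℝ => y + t • v) v 0 := by
    simpa using ((hasDerivAt_id (0 : ℝ)).smul_const v).const_add y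
  have l3 : Tendsto (fun t : ℝ => y + t • v) (𝓝 0) (𝓝 y) := by
    simpa using l1.continuousAt.tendsto
  refine ⟨fun t => Ψ (y + t • v), ContDiffAt.comp 0 (by rwa [l0]) l1, by simp [b2],
    HasFDerivAt.comp_hasDerivAt_of_eq (0 : ℝ) b3 l2 l0.symm, ?_⟩
  have b5 : ∀ᶠ z in 𝓝 y, Ψ z ∈ U :=
    b1.continuousAt.eventually (h.isOpen.eventually_mem (b2.symm ▸ hy.1))
  filter_upwards [l3.eventually b4, l3.eventually b5] with t h3 h4
  refine (h.zero_set _ h4).2 ?_
  have h5 := congrArg (fun z => ⟪ν, z⟫) h3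
  have h7 : ⟪ν, ν⟫ = 1 := Shape.inner_N h hy.1
  simp only [Φ, inner_add_right, real_inner_smul_right, inner_sub_right, hv, h7] at h5
  have h6 : ‖gradient F y‖⁻¹ * F (Ψ (y + t • v)) = 0 := by linarith
  simpa [g0] using h6

end Pool.Agent.P.MP_2b44f0_gt
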