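import Pool.Agent.P.MP_2b44f0_gt.Iface

/-!
From the algebraic Simons identity to the geometric one: the ring of restrictions of smooth
functions to the hypersurface carries the tangential derivatives.
-/

namespace Pool.Agent.P.MP_2b44f0_gt

open Set
open scoped RealInnerProductSpace Topology

namespace Simons

variable {ι : Type} [Fintype ι]

/-- smooth on `U` -/
abbrev Sm {G : Type} [NormedAddCommGroup G] [NormedSpace ℝ G] (U : Set (E ι)) (f : E ι → G) :
    Prop := ContDiffOn ℝ (⊤ : ℕ∞) f U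

/-- restrictions to `M` of functions that are smooth on `U` -/
def resRing (U M : Set (E ι)) : Subring (M → ℝ) where
  carrier := {g | ∃ f : E ι → ℝ, Sm U f ∧ ∀ z : M, g z = f z}
  mul_mem' := by
    rintro g g' ⟨f, hf, h⟩ ⟨f', hf', h'⟩
    exact ⟨fun z => f z * f' z, hf.mul hf', fun z => by simp [h, h']⟩
  one_mem' := ⟨fun _ => 1, contDiffOn_const, fun _ => rfl⟩
  add_mem' := by
    rintro g g' ⟨f, hf, h⟩ ⟨f', hf', h'⟩
    exact ⟨fun z => f z + f' z, hf.add hf', fun z => by simp [h, h']⟩
  zero_mem' := ⟨fun _ => 0, contDiffOn_const, fun _ => rfl⟩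
  neg_mem' := by
    rintro g ⟨f, hf, h⟩
    exact ⟨fun z => -f z, hf.neg, fun z => by simp [h]⟩

/-- evaluation at a point -/
def ev (U M : Set (E ι)) (z : M) : resRing U M →+* ℝ :=
  (Pi.evalRingHom (fun _ : M => ℝ) z).comp (resRing U M).subtype

/-- the restriction of a smooth function -/
def res {U : Set (E ι)} (M : Set (E ι)) (f : E ι → ℝ) (hf : Sm U f) : resRing U M :=
  ⟨fun z => f z, f, hf, fun _ => rfl⟩

variable {U M C : Set (E ι)} {F : E ι → ℝ}

theorem ev_res (f : E ι → ℝ) (hf : Sm U f) (z : M) : ev U M z (res M f hf) = f z := rfl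

theorem ext_ev {g g' : resRing U M} (h : ∀ z, ev U M z g = ev U M z g') : g = g' :=
  Subtype.ext (funext h)

theorem exists_rep (g : resRing U M) : ∃ f, Sm U f ∧ ∀ z : M, ev U M z g = f z := g.2

theorem Sm.diffAt {G : Type} [NormedAddCommGroup G] [NormedSpace ℝ G] {f : E ι → G}
    (hf : Sm U f) (hU : IsOpen U) {z : E ι} (hz : z ∈ U) : DifferentiableAt ℝ f z :=
  (hf.contDiffAt (hU.mem_nhds hz)).differentiableAt (by simp)

theorem Sm.der {f : E ι → ℝ} (hf : Sm U f) (hU : IsOpen U) {V : E ι → E ι} (hV : Sm U V) :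
    Sm U fun z => fderiv ℝ f z (V z) :=
  (hf.fderiv_of_isOpen hU (by simp)).clm_apply hV

theorem exists_der (hU : IsOpen U) (hM : M ⊆ U) {V : E ι → E ι} (hV : Sm U V)
    (ht : ∀ f : E ι → ℝ, Sm U f → (∀ z ∈ M, f z = 0) → ∀ z ∈ M, fderiv ℝ f z (V z) = 0) :
    ∃ δ : resRing U M →+ resRing U M, ∀ (g : resRing U M) (f : E ι → ℝ), Sm U f →
      (∀ z : M, ev U M z g = f z) → ∀ z : M, ev U M z (δ g) = fderiv ℝ f z (V z) := by
  choose r hr hr' using exists_rep (U := U) (M := M)
  have key : ∀ (g : resRing U M) (f : E ι → ℝ), Sm U f → (∀ z : M, ev U M z g = f z) →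
      ∀ z : M, fderiv ℝ (r g) z (V z) = fderiv ℝ f z (V z) := by
    intro g f hf hg z
    have h := ht (fun y => r g y - f y) ((hr g).sub hf)
      (fun y hy => by
        have h1 := hr' g ⟨y, hy⟩
        have h2 := hg ⟨y, hy⟩
        simp only at h1 h2
        rw [← h1, ← h2, sub_self]) z z.2
    rw [fderiv_fun_sub ((hr g).diffAt hU (hM z.2)) (hf.diffAt hU (hM z.2))] at h
    exact sub_eq_zero.1 h
  refine ⟨AddMonoidHom.mk' (fun g => res M _ ((hr g).der hU hV)) ?_, fun g f hf hg z => ?_⟩
  · intro g g'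
    refine ext_ev fun z => ?_
    rw [map_add, ev_res, ev_res, ev_res,
      key (g + g') (fun y => r g y + r g' y) ((hr g).add (hr g'))
        (fun y => by rw [map_add, hr', hr']) z,
      fderiv_fun_add ((hr g).diffAt hU (hM z.2)) ((hr g').diffAt hU (hM z.2))]
    rfl
  · exact key g f hf hg z

theorem proj_apply (y v : E ι) : tangentProj F y v = v - ⟪normal F y, v⟫ • normal F y := by
  simp [tangentProj]

theorem sm_normal (h : IsChart C U F) (hF : Sm U F) : Sm U (normal F) := by
  have hg : Sm U (gradient F) := by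
    have h1 : Sm U (fderiv ℝ F) := hF.fderiv_of_isOpen h.isOpen (by simp)
    exact (InnerProductSpace.toDual ℝ (E ι)).symm.toContinuousLinearEquiv.contDiff.comp_contDiffOn
      h1
  exact ((hg.norm ℝ h.grad_ne).inv fun y hy => norm_ne_zero_iff.2 (h.grad_ne y hy)).smul hg

theorem sm_coord {W : E ι → E ι} (hW : Sm U W) (j : ι) : Sm U fun z => W z j :=
  (EuclideanSpace.proj j : E ι →L[ℝ] ℝ).contDiff.comp_contDiffOn hW

theorem fderiv_coord {W : E ι → E ι} {z : E ι} (hW : DifferentiableAt ℝ W z) (j : ι) (u : E ι) :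
    fderiv ℝ (fun y => W y j) z u = fderiv ℝ W z u j := by
  have h := ((EuclideanSpace.proj j : E ι →L[ℝ] ℝ).hasFDerivAt.comp z hW.hasFDerivAt).fderiv
  exact DFunLike.congr_fun h u

theorem tangent (hc : S_curve) (h : IsChart C U F) {f : E ι → ℝ} (hf : Sm U f)
    (h0 : ∀ z ∈ U ∩ C, f z = 0) {z : E ι} (hz : z ∈ U ∩ C) {v : E ι}
    (hv : ⟪normal F z, v⟫ = 0) : fderiv ℝ f z v = 0 := by
  obtain ⟨γ, -, hγ0, hγ, hC⟩ := hc ι C U F h z hz v hv
  have hU : ∀ᶠ t in 𝓝 (0 : ℝ), γ t ∈ U :=
    hγ.continuousAt.preimage_mem_nhds (h.isOpen.mem_nhds (hγ0 ▸ hz.1))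
  have hd : HasFDerivAt f (fderiv ℝ f z) (γ 0) := hγ0 ▸ (hf.diffAt h.isOpen hz.1).hasFDerivAt
  have h1 : HasDerivAt (f ∘ γ) (fderiv ℝ f z v) 0 := hd.comp_hasDerivAt 0 hγ
  have h2 : HasDerivAt (f ∘ γ) 0 0 := by
    refine (hasDerivAt_const (0 : ℝ) (0 : ℝ)).congr_of_eventuallyEq ?_
    filter_upwards [hU, hC] with t h1 h2 using h0 _ ⟨h1, h2⟩
  exact h1.unique h2

theorem expand [DecidableEq ι] (L : E ι →L[ℝ] ℝ) (v : E ι) :
    L v = ∑ l, v l * L (EuclideanSpace.single l 1) := by
  have h := (EuclideanSpace.basisFun ι ℝ).sum_repr v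
  calc L v = L (∑ l, v l • EuclideanSpace.single l (1 : ℝ)) := by
        congr 1
        simpa using h.symm
    _ = _ := by simp [map_sum]

/-- the tangential part of a coordinate vector -/
noncomputable def V [DecidableEq ι] (F : E ι → ℝ) (i : ι) (z : E ι) : E ι :=
  tangentProj F z (EuclideanSpace.single i 1)

theorem V_eq [DecidableEq ι] (i : ι) :
    V F i = fun z => EuclideanSpace.single i 1 - normal F z i • normal F z := by
  funext z
  simp [V, proj_apply, EuclideanSpace.inner_single_right]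

theorem sm_V [DecidableEq ι] (hn : Sm U (normal F)) (i : ι) : Sm U (V F i) := by
  rw [V_eq]
  exact contDiffOn_const.sub ((sm_coord hn i).smul hn)

theorem fderiv_V [DecidableEq ι] {z : E ι} (hn : DifferentiableAt ℝ (normal F) z) (j : ι)
    (u : E ι) : fderiv ℝ (V F j) z u =
      -(normal F z j • fderiv ℝ (normal F) z u + fderiv ℝ (normal F) z u j • normal F z) := by
  have hc : DifferentiableAt ℝ (fun y => normal F y j) z :=
    (EuclideanSpace.proj j : E ι →L[ℝ] ℝ).differentiableAt.comp z hn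
  rw [V_eq, fderiv_const_sub, fderiv_fun_smul hc hn]
  simp [fderiv_coord hn]

theorem bracket [DecidableEq ι] {z : E ι} (hn : DifferentiableAt ℝ (normal F) z)
    (hsy : ∀ v w, ⟪shape F z v, w⟫ = ⟪v, shape F z w⟫) (i j : ι) :
    VectorField.lieBracket ℝ (V F i) (V F j) z =
      normal F z i • shape F z (EuclideanSpace.single j 1) -
        normal F z j • shape F z (EuclideanSpace.single i 1) := by
  have hs : ∀ k, fderiv ℝ (normal F) z (V F k z) = shape F z (EuclideanSpace.single k 1) :=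
    fun _ => rfl
  have ha : shape F z (EuclideanSpace.single i 1) j = shape F z (EuclideanSpace.single j 1) i := by
    simpa [EuclideanSpace.inner_single_right, EuclideanSpace.inner_single_left] using
      hsy (EuclideanSpace.single i 1) (EuclideanSpace.single j 1)
  rw [VectorField.lieBracket, fderiv_V hn, fderiv_V hn, hs, hs, ha]
  abel

end Simons

open Simons in
theorem all_simons : S_simAlg → S_shape → S_curve → S_cone → S_simons := by
  intro halg hshape hcurve hcone ι _ C x hC ⟨U, F, S, hx, h, hF, hS, hcst⟩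
  classical
  refine ⟨U, F, hx, h, fun y₀ hy₀ => ⟨(hcst y₀ hy₀).1, ?_⟩⟩
  rw [(hcst y₀ hy₀).2]
  have hU := h.isOpen
  have hM : U ∩ C ⊆ U := inter_subset_left
  have hn : Sm U (normal F) := sm_normal h hF
  have hsh := (hshape ι C U F h).2.2
  have hnn : ∀ z ∈ U, ⟪normal F z, normal F z⟫ = 1 := fun z hz => by
    rw [real_inner_self_eq_norm_sq, (hsh z hz).1, one_pow]
  have hperp : ∀ z ∈ U, ∀ v, ⟪normal F z, tangentProj F z v⟫ = 0 := fun z hz v => by
    rw [proj_apply, inner_sub_right, inner_smul_right, hnn z hz, mul_one, sub_self]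
  choose δ hδ using fun i => exists_der hU hM (sm_V hn i) fun f hf h0 z hz =>
    tangent hcurve h hf h0 hz (hperp z hz.1 _)
  have hid : Sm U fun z : E ι => z := contDiffOn_id
  set ν : ι → resRing U (U ∩ C) := fun j => res _ _ (sm_coord hn j) with hν
  set X : ι → resRing U (U ∩ C) := fun j => res _ _ (sm_coord hid j) with hX
  have eν : ∀ j z, ev U _ z (ν j) = normal F z j := fun _ _ => rfl
  have eX : ∀ j z, ev U _ z (X j) = z.1 j := fun _ _ => rfl
  have ea : ∀ i j z, ev U _ z (δ i (ν j)) = shape F z (EuclideanSpace.single i 1) j := by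
    intro i j z
    rw [hδ i _ _ (sm_coord hn j) (eν j), fderiv_coord (hn.diffAt hU z.2.1)]
    rfl
  have hexp : ∀ (z : E ι) (L : E ι →L[ℝ] ℝ) (v : E ι),
      L (tangentProj F z v) = ∑ l, v l * L (V F l z) := fun z L v =>
    expand (L.comp (tangentProj F z)) v
  have key := halg ι (resRing U (U ∩ C)) δ ν X (fun i j => δ i (ν j)) (ev U _ ⟨y₀, hy₀⟩)
    (res _ (fun _ => S) contDiffOn_const) ?_ (fun _ _ => rfl) ?_ ?_ ?_ ?_ ?_ ?_ ?_ ?_ ?_ hS
  · exact key
  · intro i f g
    obtain ⟨f', hf, ef⟩ := exists_rep f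
    obtain ⟨g', hg, eg⟩ := exists_rep g
    refine ext_ev fun z => ?_
    rw [hδ i (f * g) (fun y => f' y * g' y) (hf.mul hg) (fun y => by rw [map_mul, ef, eg]),
      map_add, map_mul, map_mul, hδ i f f' hf ef, hδ i g g' hg eg, ef, eg,
      fderiv_fun_mul (hf.diffAt hU z.2.1) (hg.diffAt hU z.2.1)]
    simp only [add_apply, smul_apply, smul_eq_mul]
    ring
  · intro i j
    refine ext_ev fun z => ?_
    rw [ea, ea]
    simpa [EuclideanSpace.inner_single_right, EuclideanSpace.inner_single_left] using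
      (hsh z z.2.1).2.2.2.2.2 (EuclideanSpace.single i 1) (EuclideanSpace.single j 1)
  · intro i j
    refine ext_ev fun z => ?_
    rw [hδ i _ _ (sm_coord hid j) (eX j), fderiv_coord (hid.diffAt hU z.2.1), map_sub, map_mul,
      eν, eν, fderiv_fun_id, V_eq]
    by_cases hij : i = j
    · simp [hij]
    · simp [hij, Ne.symm hij]
  · intro f
    obtain ⟨f', hf, ef⟩ := exists_rep f
    refine ext_ev fun z => ?_
    have h0 : tangentProj F z (normal F z) = 0 := by
      rw [proj_apply, hnn z z.2.1, one_smul, sub_self]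
    have h1 := hexp z (fderiv ℝ f' z) (normal F z)
    rw [h0, map_zero] at h1
    simp only [map_sum, map_mul, map_zero, eν, hδ _ f f' hf ef]
    exact h1.symm
  · refine ext_ev fun z => ?_
    simp only [map_sum, map_mul, map_one, eν]
    rw [← hnn z z.2.1, PiLp.inner_apply]
    simp [sq]
  · intro i j f
    obtain ⟨f', hf, ef⟩ := exists_rep f
    refine ext_ev fun z => ?_
    have hP : ∀ k, fderiv ℝ f' z (shape F z (EuclideanSpace.single k 1)) =
        ∑ l, shape F z (EuclideanSpace.single k 1) l * fderiv ℝ f' z (V F l z) := by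
      intro k
      have h0 : ⟪normal F z, shape F z (EuclideanSpace.single k 1)⟫ = 0 :=
        (hsh z z.2.1).2.2.1 _
      rw [← hexp, proj_apply, h0, zero_smul, sub_zero]
    rw [map_sub, hδ i _ _ (hf.der hU (sm_V hn j)) (hδ j f f' hf ef),
      hδ j _ _ (hf.der hU (sm_V hn i)) (hδ i f f' hf ef),
      ← VectorField.fderiv_apply_lieBracket (hf.contDiffAt (hU.mem_nhds z.2.1))
        (by rw [minSmoothness_of_isRCLikeNormedField]; exact WithTop.coe_le_coe.2 le_top)
        ((sm_V hn j).diffAt hU z.2.1) ((sm_V hn i).diffAt hU z.2.1),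
      bracket (hn.diffAt hU z.2.1) (hsh z z.2.1).2.2.2.2.2]
    simp only [map_sum, map_mul, map_sub, map_smul, eν, ea, hδ _ f f' hf ef, hP, smul_eq_mul,
      Finset.mul_sum, ← Finset.sum_sub_distrib]
    exact Finset.sum_congr rfl fun l _ => by ring
  · refine ext_ev fun z => ?_
    have h0 := (hcst z z.2).1
    rw [meanCurv, LinearMap.trace_eq_sum_inner _ (EuclideanSpace.basisFun ι ℝ)] at h0
    simp only [map_sum, map_zero, ea]
    simpa [EuclideanSpace.inner_single_left] using h0
  · refine ext_ev fun z => ?_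
    simp only [map_sum, map_mul, map_zero, eν, eX]
    simpa [PiLp.inner_apply, mul_comm] using (hcone ι C U F h hC z z.2).1
  · refine ext_ev fun z => ?_
    have h0 := (hcst z z.2).2
    rw [sqCurv, LinearMap.trace_eq_sum_inner _ (EuclideanSpace.basisFun ι ℝ),
      EuclideanSpace.real_norm_sq_eq] at h0
    simp only [map_sum, map_mul, ea, eX, ev_res]
    rw [← h0]
    congr 1
    · exact Finset.sum_congr rfl fun l _ => by ring
    · refine Finset.sum_congr rfl fun l _ => ?_
      have h1 := (hsh z z.2.1).2.2.2.2.2 (EuclideanSpace.single l 1)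
        (shape F z (EuclideanSpace.single l 1))
      simp only [EuclideanSpace.basisFun_apply, ContinuousLinearMap.coe_coe,
        ContinuousLinearMap.comp_apply, ← h1]
      rw [PiLp.inner_apply]
      simp [sq]
  · intro i
    refine ext_ev fun z => ?_
    rw [hδ i _ (fun _ => S) contDiffOn_const (fun _ => rfl)]
    simp

end Pool.Agent.P.MP_2b44f0_gt
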