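import Pool.Agent.P.MP_2b44f0_gt.Foot

/-!
The local tube estimates.
-/

namespace Pool.Agent.P.MP_2b44f0_gt

open MeasureTheory Set Filter
open scoped ENNReal NNReal RealInnerProductSpace Topology

namespace Tube

variable {ι : Type} [Fintype ι]

theorem exists_eta {ε : ℝ≥0∞} (hε : 0 < ε) (n : ℕ) :
    ∃ η : ℝ≥0, 1 < η ∧ (η : ℝ≥0∞) ^ n ≤ 1 + ε := by
  have h1 : ContinuousAt (fun η : ℝ≥0 => (η : ℝ≥0∞) ^ n) 1 :=
    ((ENNReal.continuous_pow n).comp ENNReal.continuous_coe).continuousAt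
  have h2 : ∀ᶠ η : ℝ≥0 in 𝓝 1, (η : ℝ≥0∞) ^ n < 1 + ε :=
    h1.eventually_lt continuousAt_const (by simpa using ENNReal.lt_add_right ENNReal.one_ne_top hε.ne')
  obtain ⟨η, h3, h4⟩ := ((h2.filter_mono nhdsWithin_le_nhds).and
    (self_mem_nhdsWithin (a := (1 : ℝ≥0)) (s := Ioi 1))).exists
  exact ⟨η, h4, h3.le⟩

theorem split (ν₀ : E ι) (h : ‖ν₀‖ = 1) :
    MeasurePreserving (fun p : (ℝ ∙ ν₀)ᗮ × ℝ => (p.1 : E ι) + p.2 • ν₀)
      (volume.prod volume) volume := by
  have h1 := ((ℝ ∙ ν₀).measurePreserving_measurableEquivProd (0 : E ι)).symm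
  rw [InnerProductSpace.euclideanHausdorffMeasure_eq_volume] at h1
  have h2 := (LinearIsometryEquiv.toSpanUnitSingleton (𝕜 := ℝ) ν₀ h).measurePreserving.prod
    (MeasurePreserving.id (volume : Measure (ℝ ∙ ν₀)ᗮ))
  have h3 := (h1.comp h2).comp Measure.measurePreserving_swap
  refine (congrArg (fun f => MeasurePreserving f _ _) (funext fun p => ?_)).mp h3
  simp [add_comm]

theorem lintegral_image_le {s : Set (E ι)} {g : E ι → E ι} {g' : E ι → E ι →L[ℝ] E ι}
    (hs : MeasurableSet s) (hg : Measurable g) (hg' : ∀ x ∈ s, HasFDerivWithinAt g (g' x) s x)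
    {ω : E ι → ℝ≥0∞} (hω : Measurable ω) :
    ∫⁻ y in g '' s, ω y ≤ ∫⁻ x in s, ENNReal.ofReal |(g' x).det| * ω (g x) := by
  have h1 : volume.restrict (g '' s) ≤
      ((volume.restrict s).withDensity fun x => ENNReal.ofReal |(g' x).det|).map g := by
    refine Measure.le_iff.2 fun B hB => ?_
    rw [Measure.restrict_apply hB, Measure.map_apply hg hB, withDensity_apply _ (hg hB),
      Measure.restrict_restrict (hg hB), ← image_preimage_inter]
    exact addHaar_image_le_lintegral_abs_det_fderiv volume ((hg hB).inter hs)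
      fun x hx => (hg' x hx.2).mono inter_subset_right
  refine (lintegral_mono' h1 le_rfl).trans_eq ?_
  rw [lintegral_map hω hg]
  exact lintegral_withDensity_eq_lintegral_mul₀
    (aemeasurable_ofReal_abs_det_fderivWithin volume hs hg') (hω.comp hg).aemeasurable

theorem det_comp (A B : E ι →L[ℝ] E ι) : (A.comp B).det = A.det * B.det :=
  LinearMap.det_comp (A : E ι →ₗ[ℝ] E ι) (B : E ι →ₗ[ℝ] E ι)

theorem measurable_normal (F : E ι → ℝ) : Measurable (normal F) := by
  have h : Measurable (gradient F) :=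
    (InnerProductSpace.toDual ℝ (E ι)).symm.continuous.measurable.comp (measurable_fderiv ℝ F)
  exact h.norm.inv.smul h

theorem measurable_shape (F : E ι → ℝ) : Measurable (shape F) := by
  have h1 : Continuous fun p : (E ι →L[ℝ] E ι) × E ι =>
      p.1.comp (ContinuousLinearMap.id ℝ (E ι) - (innerSL ℝ p.2).smulRight p.2) :=
    continuous_fst.clm_comp (continuous_const.sub
      ((ContinuousLinearMap.smulRightL ℝ (E ι) (E ι)).continuous₂.comp
        (f := fun p : (E ι →L[ℝ] E ι) × E ι => (innerSL ℝ p.2, p.2))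
        (((innerSL ℝ).continuous.comp continuous_snd).prodMk continuous_snd) :))
  exact h1.measurable.comp ((measurable_fderiv ℝ (normal F)).prodMk (measurable_normal F))

theorem image_le {f : E ι → E ι} {s : Set (E ι)} {K : ℝ≥0} (h : LipschitzOnWith K f s) (d : ℕ) :
    μHE[d] (f '' s) ≤ (K : ℝ≥0∞) ^ d * μHE[d] s := by
  have := h.hausdorffMeasure_image_le (d := d) (by positivity)
  rw [ENNReal.rpow_natCast] at this
  simp only [Measure.euclideanHausdorffMeasure_def, Measure.smul_apply, ENNReal.smul_def,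
    smul_eq_mul]
  rw [mul_left_comm]
  gcongr

end Tube

open Tube Foot in
theorem all_tube : S_shape → S_tube := by
  intro hS ι _ d C U F hcard hc x₀ hx₀ ε hε
  obtain ⟨η, hη, hηε⟩ := exists_eta hε (d + 1)
  obtain ⟨V, O, y, hVo, hxV, hVU, hO, hy, ha, hb, hcc, hlip, hdet⟩ := exists_foot hS hc hx₀ hη
  obtain ⟨hν, -, hsh⟩ := hS ι C U F hc
  refine ⟨V, hVo, hxV, hVU, fun W Q ω K hW hWV hQ hω => ?_⟩
  set ν₀ := normal F x₀ with hν₀
  set P := tangentProj F x₀ with hP
  have hn₀ : ‖ν₀‖ = 1 := (hsh x₀ hx₀.1).1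
  have hνν : ⟪ν₀, ν₀⟫ = 1 := by rw [real_inner_self_eq_norm_sq, hn₀]; norm_num
  have hPa : ∀ v, P v = v - ⟪ν₀, v⟫ • ν₀ := tangentProj_apply F x₀
  have hPi : ∀ v, ⟪ν₀, P v⟫ = 0 := inner_tangentProj hn₀
  have hPP : ∀ v, P (P v) = P v := fun v => by rw [hPa (P v), hPi]; simp
  have hPν : P ν₀ = 0 := by rw [hPa, hνν]; simp
  have hη1 : (1 : ℝ≥0∞) ≤ η := by exact_mod_cast hη.le
  have hη0 : (0 : ℝ) < η := by exact_mod_cast zero_lt_one.trans hη
  let g : E ι → E ι := fun z => y z + ⟪ν₀, z⟫ • normal F (y z)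
  have hin : Measurable fun z : E ι => ⟪ν₀, z⟫ := (innerSL ℝ ν₀).continuous.measurable
  have hg : Measurable g := hy.add (hin.smul ((measurable_normal F).comp hy))
  let Z : Set (E ι) := {z | z ∈ O ∧ y z ∈ W ∧ (y z, g z) ∈ Q}
  have hZ : MeasurableSet Z := hO.measurableSet.inter ((hy hW).inter ((hy.prodMk hg) hQ))
  let j : E ι → ℝ≥0∞ := fun z => ENNReal.ofReal |(1 + ⟪ν₀, z⟫ • shape F (y z)).det|
  have hj : Measurable j :=
    (ContinuousLinearMap.continuous_det.measurable.comp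
      ((hin.smul ((measurable_shape F).comp hy)).const_add 1)).abs.ennreal_ofReal
  have himg : g '' Z = Reach C W F Q := by
    ext w
    constructor
    · rintro ⟨z, ⟨h1, h2, h3⟩, rfl⟩
      exact ⟨y z, ⟨(hcc z h1).1.1, h2⟩, _, rfl, h3⟩
    · rintro ⟨x, hx, s, rfl, h3⟩
      have h1 := ha x ⟨hx.1, hWV hx.2⟩
      have h2 := hb (P x + s • ν₀) (P x) (by rw [map_add, map_smul, hPν, smul_zero, add_zero])
      have h4 : g (P x + s • ν₀) = x + s • normal F x := by
        simp only [g, h2.2, h1.2, inner_add_right, hPi, inner_smul_right, hνν, zero_add, mul_one]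
      exact ⟨P x + s • ν₀, ⟨h2.1.2 h1.1, by rw [h2.2, h1.2]; exact hx.2,
        by rw [h4, h2.2, h1.2]; exact h3⟩, h4⟩
  have hder : ∀ z ∈ O, ∃ g' : E ι →L[ℝ] E ι, HasFDerivAt g g' z ∧
      ENNReal.ofReal |g'.det| ≤ η * j z ∧ j z ≤ η * ENNReal.ofReal |g'.det| := by
    intro z hz
    obtain ⟨hx, -, D, hD, hDw⟩ := hcc z hz
    have hxU := hVU hx.2
    have hdν : HasFDerivAt (normal F) (fderiv ℝ (normal F) (y z)) (y z) :=
      ((hν.contDiffAt (hc.isOpen.mem_nhds hxU)).differentiableAt one_ne_zero).hasFDerivAt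
    have hnn : ‖normal F (y z)‖ = 1 := (hsh _ hxU).1
    let L : E ι →L[ℝ] E ι := D + (innerSL ℝ ν₀).smulRight (normal F (y z))
    have hPL : ∀ w, tangentProj F (y z) (L w) = D w := fun w => by
      simp [L, tangentProj_apply, inner_add_right, inner_smul_right, (hDw w).2, hnn]
    have hKL : (cmp F x₀ (y z)).comp L = 1 := by
      ext1 w
      rw [ContinuousLinearMap.comp_apply, cmp_apply, hPL, ← hP, (hDw w).1, hPa]
      simp [L, inner_add_right, inner_smul_right, (hDw w).2, hnn, hν₀]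
    have hdKL : |(cmp F x₀ (y z)).det| * |L.det| = 1 := by
      rw [← abs_mul, ← det_comp, hKL]
      simp [ContinuousLinearMap.det, ContinuousLinearMap.one_def]
    obtain ⟨hd1, hd2⟩ := hdet _ hx.2
    refine ⟨(1 + ⟪ν₀, z⟫ • shape F (y z)).comp L, ?_, ?_⟩
    · have := hD.add ((innerSL ℝ ν₀).hasFDerivAt.smul (hdν.comp z hD))
      refine this.congr_fderiv ?_
      ext1 w
      have h5 : shape F (y z) (L w) = fderiv ℝ (normal F) (y z) (D w) := by
        rw [shape, ContinuousLinearMap.comp_apply, hPL]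
      rw [ContinuousLinearMap.comp_apply, add_apply (1 : E ι →L[ℝ] E ι), smul_apply, h5]
      simp [L, add_assoc, add_comm, add_left_comm]
    · have h5 : |((1 + ⟪ν₀, z⟫ • shape F (y z)).comp L).det| =
          |(1 + ⟪ν₀, z⟫ • shape F (y z)).det| * |L.det| := by
        rw [det_comp, abs_mul]
      have h6 : |L.det| ≤ η := by
        have := mul_le_mul_of_nonneg_right hd1 (abs_nonneg L.det)
        rw [hdKL, inv_mul_le_iff₀ hη0] at this
        simpa using this
      have h7 : 1 ≤ η * |L.det| := hdKL ▸ mul_le_mul_of_nonneg_right hd2 (abs_nonneg L.det)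
      have h8 := abs_nonneg (1 + ⟪ν₀, z⟫ • shape F (y z)).det
      simp only [j, h5, ← ENNReal.ofReal_coe_nnreal, ← ENNReal.ofReal_mul hη0.le]
      exact ⟨ENNReal.ofReal_le_ofReal (by nlinarith), ENNReal.ofReal_le_ofReal (by nlinarith)⟩
  choose! g' hg' hj1 hj2 using hder
  have hg'' : ∀ z ∈ Z, HasFDerivWithinAt g (g' z) Z z := fun z hz =>
    (hg' z hz.1).hasFDerivWithinAt
  let A : Set (ℝ ∙ ν₀)ᗮ := {u | (u : E ι) ∈ O ∧ y u ∈ W}
  have hA : MeasurableSet A := measurable_subtype_coe (hO.measurableSet.inter (hy hW))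
  have hu0 : ∀ u : (ℝ ∙ ν₀)ᗮ, ⟪ν₀, (u : E ι)⟫ = 0 := fun u =>
    Submodule.mem_orthogonal_singleton_iff_inner_right.1 u.2
  have hfub : ∫⁻ z in Z, ω (g z) * j z = ∫⁻ u in A, lineInt F Q ω (y u) := by
    have hm : Measurable (Z.indicator fun z => ω (g z) * j z) :=
      ((hω.comp hg).mul hj).indicator hZ
    rw [← lintegral_indicator hZ, ← (split ν₀ hn₀).lintegral_comp hm, ← lintegral_indicator hA]
    refine (lintegral_prod _ (hm.comp (split ν₀ hn₀).measurable).aemeasurable).trans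
      (lintegral_congr fun u => ?_)
    change ∫⁻ s : ℝ, Z.indicator (fun z => ω (g z) * j z) ((u : E ι) + s • ν₀) = _
    have h2 := fun s : ℝ => hb (u + s • ν₀) u (by rw [map_add, map_smul, hPν, smul_zero, add_zero])
    have h3 : ∀ s : ℝ, ⟪ν₀, (u : E ι) + s • ν₀⟫ = s := fun s => by
      rw [inner_add_right, hu0, inner_smul_right, hνν]; ring
    by_cases hu : u ∈ A
    · have hD : MeasurableSet {s : ℝ | (y u, y u + s • normal F (y u)) ∈ Q} :=
        (by fun_prop : Measurable fun s : ℝ => (y u, y u + s • normal F (y u))) hQ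
      rw [indicator_of_mem hu, lineInt, ← lintegral_indicator hD]
      refine lintegral_congr fun s => ?_
      have h4 : (u : E ι) + s • ν₀ ∈ Z ↔
          s ∈ {s : ℝ | (y u, y u + s • normal F (y u)) ∈ Q} := by
        simp only [Z, g, mem_ofPred_eq, (h2 s).1, (h2 s).2, h3, hu.1, hu.2, true_and]
      by_cases hs : (u : E ι) + s • ν₀ ∈ Z
      · rw [indicator_of_mem hs, indicator_of_mem (h4.1 hs)]
        simp only [g, j, (h2 s).2, h3]
      · rw [indicator_of_notMem hs, indicator_of_notMem (mt h4.2 hs)]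
    · rw [indicator_of_notMem hu, ← lintegral_zero (μ := (volume : Measure ℝ))]
      refine lintegral_congr fun s => indicator_of_notMem (fun h => hu ?_) _
      exact ⟨(h2 s).1.1 h.1, (h2 s).2 ▸ h.2.1⟩
  have hAy : ∀ u ∈ A, y u ∈ C ∩ W := fun u hu => ⟨(hcc u hu.1).1.1, hu.2⟩
  have hrank : Module.finrank ℝ (ℝ ∙ ν₀)ᗮ = d := by
    have h1 := (ℝ ∙ ν₀).finrank_add_finrank_orthogonal
    rw [finrank_span_singleton (by rintro h; simp [h] at hn₀), finrank_euclideanSpace, hcard] at h1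
    omega
  have hvol : volume A = μHE[d] (P '' (C ∩ W)) := by
    rw [← InnerProductSpace.euclideanHausdorffMeasure_eq_volume, hrank,
      ← isometry_subtype_coe.euclideanHausdorffMeasure_image]
    congr 1
    ext w
    constructor
    · rintro ⟨u, hu, rfl⟩
      exact ⟨y u, hAy u hu, by rw [(hcc u hu.1).2.1, hPa, hu0]; simp⟩
    · rintro ⟨x, hx, rfl⟩
      have h1 := ha x ⟨hx.1, hWV hx.2⟩
      exact ⟨⟨P x, Submodule.mem_orthogonal_singleton_iff_inner_right.2 (hPi x)⟩,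
        ⟨h1.1, by rw [h1.2]; exact hx.2⟩, rfl⟩
  refine ⟨fun hK => ?_, fun hinj hK => ?_⟩
  · have hP1 : LipschitzWith 1 P := LipschitzWith.of_dist_le_mul fun v w => by
      rw [dist_eq_norm, dist_eq_norm, ← map_sub, NNReal.coe_one, one_mul]
      generalize v - w = u
      have h1 : u = P u + ⟪ν₀, u⟫ • ν₀ := by rw [hPa]; simp
      have h2 : ‖u‖ * ‖u‖ = ‖P u‖ * ‖P u‖ + ‖⟪ν₀, u⟫ • ν₀‖ * ‖⟪ν₀, u⟫ • ν₀‖ := by
        conv_lhs => rw [h1]
        exact norm_add_sq_eq_norm_sq_add_norm_sq_of_inner_eq_zero (𝕜 := ℝ) _ _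
          (by rw [inner_smul_right, real_inner_comm ν₀ (P u), hPi, mul_zero])
      exact abs_le_of_sq_le_sq' (by nlinarith [mul_self_nonneg ‖⟪ν₀, u⟫ • ν₀‖]) (norm_nonneg _) |>.2
    calc ∫⁻ w in Reach C W F Q, ω w
        ≤ ∫⁻ z in Z, ENNReal.ofReal |(g' z).det| * ω (g z) :=
          himg ▸ lintegral_image_le hZ hg hg'' hω
      _ ≤ ∫⁻ z in Z, η * (ω (g z) * j z) := setLIntegral_mono' hZ fun z hz => by
          rw [mul_comm (ω _), ← mul_assoc]
          exact mul_le_mul_left (hj1 z hz.1) _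
      _ = η * ∫⁻ u in A, lineInt F Q ω (y u) := by
          rw [lintegral_const_mul' _ _ ENNReal.coe_ne_top, hfub]
      _ ≤ η * (K * μHE[d] (C ∩ W)) := by
          refine mul_le_mul_right ((setLIntegral_mono' hA fun u hu => hK _ (hAy u hu)).trans ?_) _
          rw [setLIntegral_const, hvol]
          exact mul_le_mul_right (by simpa using image_le hP1.lipschitzOnWith d) _
      _ ≤ _ := mul_le_mul_left ((le_self_pow₀ hη1 (by omega)).trans hηε) _
  · have hinj' : InjOn g Z := fun z hz z' hz' h => by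
      have h1 : y z = y z' := hinj _ ⟨(hcc z hz.1).1.1, hz.2.1⟩ _ ⟨(hcc z' hz'.1).1.1, hz'.2.1⟩
        (g z) hz.2.2 (h ▸ hz'.2.2) ⟨_, rfl⟩ ⟨_, h⟩
      have h2 : P z = P z' := by rw [← (hcc z hz.1).2.1, h1, (hcc z' hz'.1).2.1]
      have h3 : ⟪ν₀, z⟫ = ⟪ν₀, z'⟫ := by
        simp only [g, h1, add_right_inj] at h
        refine smul_left_injective ℝ (fun h0 => ?_) h
        have := (hsh _ (hVU (hcc z' hz'.1).1.2)).1
        simp [h0] at this
      rw [hPa, hPa, h3] at h2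
      exact sub_left_injective h2
    refine ⟨himg ▸ measurable_image_of_fderivWithin hZ hg'' hinj', ?_⟩
    have hlip' : LipschitzOnWith η y (P '' (C ∩ W)) := by
      refine LipschitzOnWith.of_dist_le_mul ?_
      rintro _ ⟨x, hx, rfl⟩ _ ⟨x', hx', rfl⟩
      rw [(ha x ⟨hx.1, hWV hx.2⟩).2, (ha x' ⟨hx'.1, hWV hx'.2⟩).2]
      exact hlip x ⟨hx.1, hWV hx.2⟩ x' ⟨hx'.1, hWV hx'.2⟩
    have h1 : μHE[d] (C ∩ W) ≤ (η : ℝ≥0∞) ^ d * volume A := by
      rw [hvol]
      refine (measure_mono fun x hx => ?_).trans (image_le hlip' d)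
      exact ⟨P x, ⟨x, hx, rfl⟩, (ha x ⟨hx.1, hWV hx.2⟩).2⟩
    calc K * μHE[d] (C ∩ W) ≤ (η : ℝ≥0∞) ^ d * (K * volume A) := by
          rw [mul_left_comm]; exact mul_le_mul_right h1 _
      _ ≤ (η : ℝ≥0∞) ^ d * ∫⁻ z in Z, ω (g z) * j z := by
          rw [hfub, ← setLIntegral_const]
          exact mul_le_mul_right (setLIntegral_mono' hA fun u hu => hK _ (hAy u hu)) _
      _ ≤ (η : ℝ≥0∞) ^ d * ∫⁻ z in Z, η * (ENNReal.ofReal |(g' z).det| * ω (g z)) :=
          mul_le_mul_right (setLIntegral_mono' hZ fun z hz => by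
            rw [mul_comm (ω _), ← mul_assoc]
            exact mul_le_mul_left (hj2 z hz.1) _) _
      _ = (η : ℝ≥0∞) ^ (d + 1) * ∫⁻ w in Reach C W F Q, ω w := by
          rw [lintegral_const_mul' _ _ ENNReal.coe_ne_top, ← himg,
            lintegral_image_eq_lintegral_abs_det_fderiv_mul volume hZ hg'' hinj', pow_succ,
            mul_assoc]
      _ ≤ _ := mul_le_mul_left hηε _

end Pool.Agent.P.MP_2b44f0_gt
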