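import Pool.Agent.P.MP_2b44f0_gt.Iface

/-!
The shape operator of the Simons cone.
-/

namespace Pool.Agent.P.MP_2b44f0_gt

open MeasureTheory Set
open scoped ENNReal RealInnerProductSpace Topology

namespace SimGeo

variable {ι : Type} [Fintype ι] {J : E ι →L[ℝ] E ι}

theorem norm_J (hJ : ∀ v, J (J v) = v) (hs : ∀ v w, ⟪J v, w⟫ = ⟪v, J w⟫) (v : E ι) :
    ‖J v‖ = ‖v‖ := by
  rw [← sq_eq_sq₀ (norm_nonneg _) (norm_nonneg _), ← real_inner_self_eq_norm_sq, hs, hJ,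
    real_inner_self_eq_norm_sq]

theorem grad (hs : ∀ v w, ⟪J v, w⟫ = ⟪v, J w⟫) (y : E ι) :
    gradient (fun z => ⟪z, J z⟫) y = (2 : ℝ) • J y := by
  refine HasGradientAt.gradient (hasGradientAt_iff_hasFDerivAt.2
    (((hasFDerivAt_id y).inner ℝ J.hasFDerivAt).congr_fderiv (ContinuousLinearMap.ext fun v => ?_)))
  simp [fderivInnerCLM_apply, inner_smul_left, hs, real_inner_comm (J y) v, two_mul,
    real_inner_comm v (J y)]

theorem nor (hJ : ∀ v, J (J v) = v) (hs : ∀ v w, ⟪J v, w⟫ = ⟪v, J w⟫) :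
    normal (fun z => ⟪z, J z⟫) = fun z => ‖z‖⁻¹ • J z := by
  funext z
  rw [normal, grad hs, norm_smul, norm_J hJ hs, smul_smul, Real.norm_two, mul_inv_rev, mul_assoc,
    inv_mul_cancel₀ two_ne_zero, mul_one]

theorem der {x : E ι} (hx : x ≠ 0) (v : E ι) : fderiv ℝ (fun z => ‖z‖⁻¹ • J z) x v =
    ‖x‖⁻¹ • J v - (⟪x, v⟫ / ‖x‖ ^ 3) • J x := by
  have h0 := norm_ne_zero_iff.2 hx
  have h1 := (hasStrictFDerivAt_norm_sq x).hasFDerivAt.sqrt (pow_ne_zero 2 h0)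
  simp only [Real.sqrt_sq (norm_nonneg _)] at h1
  have h2 := ((hasDerivAt_inv h0).comp_hasFDerivAt x h1).smul J.hasFDerivAt
  refine (congrArg (· v) h2.fderiv).trans ?_
  simp only [ContinuousLinearMap.add_apply, ContinuousLinearMap.smul_apply, Function.comp,
    ContinuousLinearMap.smulRight_apply, innerSL_apply_apply, smul_eq_mul, nsmul_eq_mul,
    sub_eq_add_neg, ← neg_smul]
  congr 2
  push_cast
  field_simp

theorem shp (hJ : ∀ v, J (J v) = v) (hs : ∀ v w, ⟪J v, w⟫ = ⟪v, J w⟫) {x : E ι} (hx : x ≠ 0)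
    (h : ⟪x, J x⟫ = 0) (v : E ι) : shape (fun z => ⟪z, J z⟫) x v =
      ‖x‖⁻¹ • J v - (⟪x, J v⟫ / ‖x‖ ^ 3) • x - (⟪x, v⟫ / ‖x‖ ^ 3) • J x := by
  have h0 := norm_ne_zero_iff.2 hx
  simp only [shape, tangentProj, nor hJ hs, ContinuousLinearMap.comp_apply, der hx,
    ContinuousLinearMap.sub_apply, ContinuousLinearMap.id_apply, map_sub, map_smul, hJ,
    ContinuousLinearMap.smulRight_apply, innerSL_apply_apply, inner_sub_right, inner_smul_right,
    real_inner_smul_left, ContinuousLinearMap.smul_apply, hs, h, smul_eq_mul]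
  match_scalars <;> field_simp <;> ring

theorem shp2 (hJ : ∀ v, J (J v) = v) (hs : ∀ v w, ⟪J v, w⟫ = ⟪v, J w⟫) {x : E ι} (hx : x ≠ 0)
    (h : ⟪x, J x⟫ = 0) (v : E ι) :
    shape (fun z => ⟪z, J z⟫) x (shape (fun z => ⟪z, J z⟫) x v) =
      (‖x‖ ^ 2)⁻¹ • v - (⟪x, v⟫ / ‖x‖ ^ 4) • x - (⟪x, J v⟫ / ‖x‖ ^ 4) • J x := by
  have h0 := norm_ne_zero_iff.2 hx
  simp only [shp hJ hs hx h, map_sub, map_smul, hJ, inner_sub_right, inner_smul_right, h,
    real_inner_self_eq_norm_sq]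
  match_scalars <;> field_simp <;> ring

theorem main (hJ : ∀ v, J (J v) = v) (hs : ∀ v w, ⟪J v, w⟫ = ⟪v, J w⟫)
    (ht : LinearMap.trace ℝ (E ι) J.toLinearMap = 0) {x : E ι} (hx : x ≠ 0) (h : ⟪x, J x⟫ = 0) :
    meanCurv (fun z => ⟪z, J z⟫) x = 0 ∧
      ‖x‖ ^ 2 * sqCurv (fun z => ⟪z, J z⟫) x = Fintype.card ι - 2 ∧
      ∀ v, ‖x‖ ^ 2 • shape (fun z => ⟪z, J z⟫) x (shape (fun z => ⟪z, J z⟫) x
        (shape (fun z => ⟪z, J z⟫) x v)) = shape (fun z => ⟪z, J z⟫) x v := by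
  have h0 := norm_ne_zero_iff.2 hx
  refine ⟨?_, ?_, fun v => ?_⟩
  · rw [meanCurv, show (shape (fun z => ⟪z, J z⟫) x).toLinearMap = ‖x‖⁻¹ • J.toLinearMap -
      (‖x‖ ^ 3)⁻¹ • (innerₛₗ ℝ (J x)).smulRight x - (‖x‖ ^ 3)⁻¹ • (innerₛₗ ℝ x).smulRight (J x) from
      LinearMap.ext fun v => by simp [shp hJ hs hx h, hs, div_eq_inv_mul, mul_smul]]
    simp [ht, LinearMap.trace_smulRight, hs, h]
  · rw [sqCurv, show ((shape (fun z => ⟪z, J z⟫) x).comp
      (shape (fun z => ⟪z, J z⟫) x)).toLinearMap = (‖x‖ ^ 2)⁻¹ • LinearMap.id -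
      (‖x‖ ^ 4)⁻¹ • (innerₛₗ ℝ x).smulRight x - (‖x‖ ^ 4)⁻¹ • (innerₛₗ ℝ (J x)).smulRight (J x) from
      LinearMap.ext fun v => by simp [shp2 hJ hs hx h, hs, div_eq_inv_mul, mul_smul]]
    simp [LinearMap.trace_smulRight, norm_J hJ hs]
    field_simp
    ring
  · rw [shp2 hJ hs hx h]
    simp only [shp hJ hs hx h, map_sub, map_smul, hJ, inner_sub_right, inner_smul_right, h,
      real_inner_self_eq_norm_sq]
    match_scalars <;> field_simp <;> ring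

/-- the reflection as a linear map -/
noncomputable def Jm (m : ℕ) :
    E (Fin (m + 1) ⊕ Fin (m + 1)) →L[ℝ] E (Fin (m + 1) ⊕ Fin (m + 1)) :=
  LinearMap.toContinuousLinearMap
    { toFun := refl m
      map_add' := fun a b => by ext (i | i) <;> simp [refl, add_comm]
      map_smul' := fun a b => by ext (i | i) <;> simp [refl] }

theorem Jm_apply (m : ℕ) (z) : Jm m z = refl m z := rfl

theorem simF_eq (m : ℕ) : simF m = fun z => ⟪z, Jm m z⟫ := by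
  funext z
  simp [simF, Jm_apply, refl, PiLp.inner_apply, sq, sub_eq_add_neg]

end SimGeo

open SimGeo in
theorem all_simGeo : S_simGeo := by
  intro m
  have hJ : ∀ v, Jm m (Jm m v) = v := fun v => by ext (i | i) <;> simp [Jm_apply, refl]
  have hs : ∀ v w, ⟪Jm m v, w⟫ = ⟪v, Jm m w⟫ := fun v w => by
    simp [Jm_apply, refl, PiLp.inner_apply]
  have ht : LinearMap.trace ℝ _ (Jm m).toLinearMap = 0 := by
    rw [LinearMap.trace_eq_sum_inner _ (EuclideanSpace.basisFun _ ℝ)]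
    simp [Jm_apply, refl, EuclideanSpace.inner_single_left]
  have hz : ∀ y, y ∈ simons m ↔ simF m y = 0 := fun y => sub_eq_zero.symm
  refine ⟨⟨isOpen_compl_singleton, ?_, fun y hy h => hy ?_, fun y _ => hz y⟩, fun x hx h0 => ?_⟩
  · rw [simF_eq]
    exact (contDiff_id.inner ℝ (Jm m).contDiff).contDiffOn
  · rw [simF_eq, grad hs, smul_eq_zero_iff_right two_ne_zero] at h
    rw [← hJ y, h, map_zero]
    rfl
  rw [hz, simF_eq] at hx
  obtain ⟨h1, h2, h3⟩ := main hJ hs ht h0 hx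
  rw [simF_eq]
  refine ⟨by rw [nor hJ hs]; rfl, h1, h2.trans ?_, h3⟩
  simp
  ring

end Pool.Agent.P.MP_2b44f0_gt
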