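import Pool.Agent.P.MP_2b44f0_gt.Iface

/-!
The area of the Simons cone from the tube estimate.
-/

namespace Pool.Agent.P.MP_2b44f0_gt

open MeasureTheory Set
open scoped ENNReal RealInnerProductSpace Topology

namespace Upper

variable {m : ℕ}

/-- the length of the first half -/
noncomputable def a (y : E (Fin (m + 1) ⊕ Fin (m + 1))) : ℝ := √(∑ i, y (Sum.inl i) ^ 2)

/-- the length of the second half -/
noncomputable def b (y : E (Fin (m + 1) ⊕ Fin (m + 1))) : ℝ := √(∑ i, y (Sum.inr i) ^ 2)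

/-- the length of the foot point -/
noncomputable def c (y : E (Fin (m + 1) ⊕ Fin (m + 1))) : ℝ := (a y + b y) / √2

/-- the side condition -/
def Q (m : ℕ) : Set (E (Fin (m + 1) ⊕ Fin (m + 1)) × E (Fin (m + 1) ⊕ Fin (m + 1))) :=
  {p | ‖p.2 - p.1‖ < ‖p.1‖}

theorem sqrt_sum {t : ℝ} (ht : 0 ≤ t) {u v : Fin (m + 1) → ℝ} (h : ∀ i, v i = t * u i) :
    √(∑ i, v i ^ 2) = t * √(∑ i, u i ^ 2) := by
  simp only [h, mul_pow, ← Finset.mul_sum]
  rw [Real.sqrt_mul (sq_nonneg t), Real.sqrt_sq ht]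

theorem cont_c : Continuous (c (m := m)) := by
  unfold c a b
  fun_prop

theorem c_smul (y : E (Fin (m + 1) ⊕ Fin (m + 1))) (t : ℝ) (ht : 0 < t) : c (t • y) = t * c y := by
  have h1 : a (t • y) = t * a y := sqrt_sum ht.le fun _ => rfl
  have h2 : b (t • y) = t * b y := sqrt_sum ht.le fun _ => rfl
  rw [c, h1, h2, c]
  ring

theorem meas_Q : MeasurableSet (Q m) :=
  (isOpen_lt (by fun_prop) (by fun_prop)).measurableSet

theorem norm_eq {x : E (Fin (m + 1) ⊕ Fin (m + 1))} (hx : x ∈ simons m) : ‖x‖ = √2 * a x := by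
  have h : ∑ i, x (Sum.inl i) ^ 2 = ∑ i, x (Sum.inr i) ^ 2 := hx
  rw [a, ← Real.sqrt_mul zero_le_two, ← Real.sqrt_sq (norm_nonneg x),
    EuclideanSpace.real_norm_sq_eq, Fintype.sum_sum_type, ← h, two_mul]

theorem inner_refl {x : E (Fin (m + 1) ⊕ Fin (m + 1))} (hx : x ∈ simons m) : ⟪refl m x, x⟫ = 0 := by
  have h : ∑ i, x (Sum.inl i) ^ 2 = ∑ i, x (Sum.inr i) ^ 2 := hx
  simp only [refl, PiLp.inner_apply, Fintype.sum_sum_type, Sum.elim_inl, Sum.elim_inr,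
    RCLike.inner_apply, conj_trivial, mul_neg, ← sq, Finset.sum_neg_distrib, h, add_neg_cancel]

section geo
variable (hG : S_simGeo) (hS : S_shape) {x y : E (Fin (m + 1) ⊕ Fin (m + 1))}
include hG hS

theorem mem_Q (h0 : x ≠ 0) {s : ℝ} : (x, x + s • normal (simF m) x) ∈ Q m ↔ |s| < ‖x‖ := by
  have h := ((hS _ _ _ _ (hG m).1).2.2 x h0).1
  show ‖x + s • normal (simF m) x - x‖ < ‖x‖ ↔ _
  rw [add_sub_cancel_left, norm_smul, h, mul_one, Real.norm_eq_abs]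

theorem par (hx : x ∈ simons m) (hq : (x, y) ∈ Q m) (h : ∃ s : ℝ, y = x + s • normal (simF m) x) :
    ∃ ξ : ℝ, |ξ| < 1 ∧ (∀ i, y (Sum.inl i) = (1 + ξ) * x (Sum.inl i)) ∧
      (∀ i, y (Sum.inr i) = (1 - ξ) * x (Sum.inr i)) ∧ a y = (1 + ξ) * a x ∧
      b y = (1 - ξ) * a x ∧ 0 < a x ∧ c y = ‖x‖ := by
  obtain ⟨s, rfl⟩ := h
  have hp : 0 < ‖x‖ := (norm_nonneg _).trans_lt hq
  have h0 : x ≠ 0 := norm_pos_iff.1 hp
  have h1 : |s * ‖x‖⁻¹| < 1 := by
    rw [abs_mul, abs_inv, abs_norm]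
    exact mul_inv_lt_iff₀ hp |>.2 (by rw [one_mul]; exact (mem_Q hG hS h0).1 hq)
  rw [((hG m).2 x hx h0).1, smul_smul]
  generalize s * ‖x‖⁻¹ = ξ at h1
  have e1 : ∀ i, (x + ξ • refl m x) (Sum.inl i) = (1 + ξ) * x (Sum.inl i) := fun i => by
    show x (Sum.inl i) + ξ * x (Sum.inl i) = _
    ring
  have e2 : ∀ i, (x + ξ • refl m x) (Sum.inr i) = (1 - ξ) * x (Sum.inr i) := fun i => by
    show x (Sum.inr i) + ξ * -x (Sum.inr i) = _
    ring
  have h2 := abs_lt.1 h1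
  have e3 : a (x + ξ • refl m x) = (1 + ξ) * a x := sqrt_sum (by linarith) e1
  have e4 : b (x + ξ • refl m x) = (1 - ξ) * a x :=
    (sqrt_sum (by linarith) e2).trans (congrArg (fun t => (1 - ξ) * √t) (Eq.symm hx))
  have h3 : 0 < √2 := by positivity
  refine ⟨ξ, h1, e1, e2, e3, e4, (mul_pos_iff_of_pos_left h3).1 (norm_eq hx ▸ hp), ?_⟩
  rw [c, e3, e4, norm_eq hx, div_eq_iff h3.ne', mul_right_comm, Real.mul_self_sqrt zero_le_two]
  ring

theorem inj {x' : E (Fin (m + 1) ⊕ Fin (m + 1))} (hx : x ∈ simons m) (hx' : x' ∈ simons m)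
    (hq : (x, y) ∈ Q m) (hq' : (x', y) ∈ Q m) (h : ∃ s : ℝ, y = x + s • normal (simF m) x)
    (h' : ∃ s : ℝ, y = x' + s • normal (simF m) x') : x = x' := by
  obtain ⟨ξ, h1, e1, e2, e3, e4, h2, -⟩ := par hG hS hx hq h
  obtain ⟨η, -, f1, f2, f3, f4, -, -⟩ := par hG hS hx' hq' h'
  have h3 : a x' = a x := by linarith
  obtain rfl : η = ξ := mul_right_cancel₀ h2.ne' (by rw [h3] at f3; linarith)
  have h4 := abs_lt.1 h1
  ext i
  cases i with
  | inl i => exact mul_left_cancel₀ (by linarith : (1 + η) ≠ 0) ((e1 i).symm.trans (f1 i))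
  | inr i => exact mul_left_cancel₀ (by linarith : (1 - η) ≠ 0) ((e2 i).symm.trans (f2 i))

theorem line (hL : S_line) (hE : S_linEq) (hx : x ∈ simons m) (h0 : x ≠ 0) :
    lineInt (simF m) (Q m) (wgt (2 * m + 1) c) x = J m := by
  have hp : 0 < ‖x‖ := norm_pos_iff.2 h0
  obtain ⟨g1, g2, g3, g4⟩ := (hG m).2 x hx h0
  obtain ⟨s1, -, -, -, -, s2⟩ := (hS _ _ _ _ (hG m).1).2.2 x h0
  have hD : {s : ℝ | (x, x + s • normal (simF m) x) ∈ Q m} = {s | |s| < ‖x‖} :=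
    Set.ext fun _ => mem_Q hG hS h0
  have hD' : {ξ : ℝ | ‖x‖ * ξ ∈ {s : ℝ | |s| < ‖x‖}} = Ioo (-1) 1 := Set.ext fun ξ => by
    rw [mem_ofPred_eq, mem_ofPred_eq, abs_mul, abs_norm, mul_lt_iff_lt_one_right hp, abs_lt, mem_Ioo]
  rw [lineInt, hD, setLIntegral_congr_fun (isOpen_lt (by fun_prop) (by fun_prop)).measurableSet
    (g := fun s => ENNReal.ofReal (‖x‖ ^ (2 * m + 1) /
      ‖x + s • normal (simF m) x‖ ^ (2 * m + 1 + 1)) *
        ENNReal.ofReal |(1 + s • shape (simF m) x).det|) fun s hs => ?_,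
    hL _ m x _ _ _ h0 s1 (by rw [g1, real_inner_smul_left, inner_refl hx, mul_zero]), hD']
  · refine setLIntegral_congr_fun measurableSet_Ioo fun ξ hξ => ?_
    have h1 : |ξ| < 1 := abs_lt.2 hξ
    have h2 : 0 ≤ 1 - ξ ^ 2 := sub_nonneg.2 ((sq_le_one_iff_abs_le_one ξ).2 h1.le)
    have := hE _ m (‖x‖ • shape (simF m) x) ξ (fun v w => by
      simp only [smul_apply, real_inner_smul_left, real_inner_smul_right, s2]) (fun v => by
      simp only [smul_apply, map_smul]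
      rw [smul_smul ‖x‖ ‖x‖ (shape _ _ _), ← sq, g4]) (by
      rw [ContinuousLinearMap.toLinearMap_smul, map_smul]
      exact smul_eq_zero_of_right _ g2) (by
      rw [ContinuousLinearMap.smul_comp, ContinuousLinearMap.comp_smul, smul_smul, ← sq,
        ContinuousLinearMap.toLinearMap_smul, map_smul]
      exact g3) h1
    beta_reduce
    rw [this, abs_of_nonneg (pow_nonneg h2 m)]
  · obtain ⟨ξ, -, -, -, -, -, -, e⟩ := par hG hS hx ((mem_Q hG hS h0).2 hs) ⟨s, rfl⟩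
    beta_reduce
    rw [wgt, e]

end geo

end Upper

open Upper

theorem all_upper : S_tube → S_polar → S_line → S_cover → S_simGeo → S_linEq → S_shape →
    S_upper := by
  intro hT hP hL hC hG hE hS m
  have hcard : Fintype.card (Fin (m + 1) ⊕ Fin (m + 1)) = 2 * m + 1 + 1 := by
    rw [Fintype.card_sum, Fintype.card_fin]
    omega
  have hω : Measurable (wgt (2 * m + 1) (c (m := m))) :=
    ENNReal.measurable_ofReal.comp ((cont_c.measurable.pow_const _).div (by fun_prop))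
  have hK : ∫⁻ y in {y | 0 < c y ∧ c y < 1}, wgt (2 * m + 1) (c (m := m)) y ≤
      Kc (Fin (m + 1) ⊕ Fin (m + 1)) :=
    (hP _ _ c hcard (by omega) cont_c.measurable c_smul).trans_le
      (lintegral_mono_set inter_subset_right)
  have h0 : μHE[2 * m + 1] ({0} : Set (E (Fin (m + 1) ⊕ Fin (m + 1)))) = 0 := by
    have := Measure.nullSingletonClass_hausdorff (E (Fin (m + 1) ⊕ Fin (m + 1)))
      (d := (2 * m + 1 : ℕ)) (by positivity)
    rw [Measure.euclideanHausdorffMeasure_def, Measure.smul_apply, measure_singleton, smul_zero]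
  rw [← measure_sdiff_null h0]
  rcases ((simons m ∩ Metric.ball 0 1) \ {0}).eq_empty_or_nonempty with hR | hR
  · rw [hR, measure_empty, mul_zero]
    exact zero_le
  refine ENNReal.le_of_forall_lt_one_mul_le fun t ht => ?_
  rcases eq_or_ne t 0 with rfl | ht0
  · rw [zero_mul]
    exact zero_le
  have h1 : 1 < t⁻¹ := ENNReal.one_lt_inv.2 ht
  choose! V hV using fun x (hx : x ∈ (simons m ∩ Metric.ball 0 1) \ {0}) =>
    hT _ (2 * m + 1) _ _ _ hcard (hG m).1 x ⟨hx.2, hx.1.1⟩ (t⁻¹ - 1) (tsub_pos_of_lt h1)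
  rw [add_tsub_cancel_of_le h1.le] at hV
  obtain ⟨x, W, hW, hd, hc⟩ := hC _ _ V hR fun x hx => ⟨(hV x hx).1, (hV x hx).2.1⟩
  have key := fun i => ((hV _ (hW i).1).2.2.2 (W i ∩ Metric.ball 0 1) (Q m) _ (J m)
    ((hW i).2.1.inter Metric.isOpen_ball.measurableSet) (inter_subset_left.trans (hW i).2.2) meas_Q
    hω).2 (fun x hx x' hx' y => inj hG hS hx.1 hx'.1) fun x hx =>
      (line hG hS hL hE hx.1 ((hV _ (hW i).1).2.2.1 ((hW i).2.2 hx.2.1))).ge
  have h2 : (simons m ∩ Metric.ball 0 1) \ {0} ⊆ ⋃ i, simons m ∩ (W i ∩ Metric.ball 0 1) :=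
    fun y hy => let ⟨i, hi⟩ := mem_iUnion.1 (hc hy); mem_iUnion.2 ⟨i, hy.1.1, hi, hy.1.2⟩
  have h3 : ⋃ i, Reach (simons m) (W i ∩ Metric.ball 0 1) (simF m) (Q m) ⊆
      {y | 0 < c y ∧ c y < 1} := iUnion_subset fun i y ⟨z, hz, s, e, hq⟩ => by
    obtain ⟨ξ, -, -, -, -, -, -, e'⟩ := par hG hS hz.1 hq ⟨s, e⟩
    rw [mem_ofPred_eq, e']
    exact ⟨(norm_nonneg _).trans_lt hq, mem_ball_zero_iff.1 hz.2.2⟩
  have h4 : Pairwise (Function.onFun Disjoint fun i =>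
      Reach (simons m) (W i ∩ Metric.ball 0 1) (simF m) (Q m)) := fun i j hij =>
    Set.disjoint_left.2 fun y ⟨z, hz, s, e, hq⟩ ⟨z', hz', s', e', hq'⟩ =>
      Set.disjoint_left.1 (hd hij) hz.2.1 (inj hG hS hz.1 hz'.1 hq hq' ⟨s, e⟩ ⟨s', e'⟩ ▸ hz'.2.1)
  calc _ ≤ t * (J m * ∑' i, μHE[2 * m + 1] (simons m ∩ (W i ∩ Metric.ball 0 1))) := by
        gcongr
        exact (measure_mono h2).trans (measure_iUnion_le _)
    _ ≤ t * (t⁻¹ * ∑' i, ∫⁻ y in Reach (simons m) (W i ∩ Metric.ball 0 1) (simF m) (Q m),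
        wgt (2 * m + 1) c y) := by
        refine mul_le_mul_right ?_ t
        rw [← ENNReal.tsum_mul_left, ← ENNReal.tsum_mul_left]
        exact ENNReal.tsum_le_tsum fun i => (key i).2
    _ ≤ _ := by
        rw [← mul_assoc, ENNReal.mul_inv_cancel ht0 ht.ne_top, one_mul,
          ← lintegral_iUnion (fun i => (key i).1) h4]
        exact (lintegral_mono_set h3).trans hK

end Pool.Agent.P.MP_2b44f0_gt
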