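import Pool.Agent.P.MP_2b44f0_gt.Iface

/-! The two point Gauss quadrature bound. -/

namespace Pool.Agent.P.MP_2b44f0_gt

open Set

namespace Quad

theorem scale {l s a : ℝ} (hl : 1 ≤ l) (ha : 0 < a) (h : 0 < 1 + s * (l * a)) : 0 < 1 + s * a := by
  rcases le_total 0 s with c | c
  · positivity
  · nlinarith [mul_nonneg (mul_nonneg (neg_nonneg.2 c) ha.le) (sub_nonneg.2 hl)]

theorem cmp {p l s a : ℝ} (hp : 0 < p) (hl : 1 ≤ l) (ha : 0 < a) (h1 : 0 < 1 + s * (l * a))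
    (h2 : 0 < 1 - s * (l * a⁻¹)) : p / (1 + s * a) + p * a ^ 2 / (1 - s * a⁻¹) ≤
      p / (1 + s * (l * a)) + p * a ^ 2 / (1 - s * (l * a⁻¹)) := by
  have h3 := scale hl ha h1
  have h4 : 0 < 1 - s * a⁻¹ := by
    have := scale (s := -s) hl (inv_pos.2 ha) (by linarith)
    linarith
  obtain ⟨b, hb⟩ : ∃ b, b = a⁻¹ := ⟨_, rfl⟩
  have hab : a * b = 1 := by rw [hb]; field_simp
  have hb0 : 0 < b := hb ▸ inv_pos.2 ha
  rw [← hb] at h2 h4 ⊢
  have e : ∀ t : ℝ, 0 < 1 + t * a → 0 < 1 - t * b → p / (1 + t * a) + p * a ^ 2 / (1 - t * b) =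
      p + p * a ^ 2 + p * a * (a + b) * (t ^ 2 / ((1 + t * a) * (1 - t * b))) := fun t k1 k2 => by
    field_simp
    linear_combination (t * a * (1 + t * a)) * hab
  have e2 := e (s * l) (by linarith) (by linarith)
  rw [mul_assoc s, mul_assoc s] at e2
  rw [e s h3 h4, e2]
  refine add_le_add le_rfl (mul_le_mul_of_nonneg_left ?_ (by positivity))
  rw [div_le_div_iff₀ (mul_pos h3 h4) (mul_pos h1 h2), ← sub_nonneg]
  have : (s * l) ^ 2 * ((1 + s * a) * (1 - s * b)) - s ^ 2 * ((1 + s * (l * a)) * (1 - s * (l * b))) =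
      s ^ 2 * (l - 1) * (l - 1 + (1 + s * (l * a)) + (1 - s * (l * b))) := by ring
  rw [this]
  exact mul_nonneg (mul_nonneg (sq_nonneg s) (by linarith)) (by linarith)

variable {ι : Type} [Fintype ι] {w κ : ι → ℝ} {p q A B : ℝ}

/-- exactness for cubic polynomials -/
def Ex (w κ : ι → ℝ) (p q A B : ℝ) : Prop := ∀ c0 c1 c2 c3 : ℝ,
  ∑ j, w j * (c0 + c1 * κ j + c2 * κ j ^ 2 + c3 * κ j ^ 3) =
    p * (c0 + c1 * A + c2 * A ^ 2 + c3 * A ^ 3) + q * (c0 - c1 * B + c2 * B ^ 2 - c3 * B ^ 3)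

theorem pos (hw : ∀ j, 0 ≤ w j) {x c : ℝ} (hx : ∀ j, 0 < 1 + x * κ j)
    (h : 0 < ∑ j, w j * (κ j + c) ^ 2) : 0 < ∑ j, w j * ((κ j + c) ^ 2 * (1 + x * κ j)) := by
  obtain ⟨j, -, hj⟩ := Finset.exists_lt_of_sum_lt (s := Finset.univ) (f := fun _ => (0 : ℝ))
    (g := fun j => w j * (κ j + c) ^ 2) (by simpa using h)
  exact Finset.sum_pos' (fun i _ => mul_nonneg (hw i) (mul_nonneg (sq_nonneg _) (hx i).le))
    ⟨j, Finset.mem_univ _, by rw [← mul_assoc]; exact mul_pos hj (hx j)⟩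

theorem Ex.eq (h : Ex w κ p q A B) (c0 c1 c2 c3 : ℝ) {f : ι → ℝ} {r : ℝ}
    (e : ∀ j, f j = c0 + c1 * κ j + c2 * κ j ^ 2 + c3 * κ j ^ 3)
    (e' : p * (c0 + c1 * A + c2 * A ^ 2 + c3 * A ^ 3) +
      q * (c0 - c1 * B + c2 * B ^ 2 - c3 * B ^ 3) = r) : ∑ j, w j * f j = r := by
  rw [← e', ← h]
  exact Finset.sum_congr rfl fun j _ => by rw [e j]

theorem Ex.pos (h : Ex w κ p q A B) (hw : ∀ j, 0 ≤ w j) (hp : 0 < p) (hq : 0 < q) (hA : 0 < A + B)
    {x : ℝ} (hx : ∀ j, 0 < 1 + x * κ j) : 0 < 1 + x * A ∧ 0 < 1 - x * B := by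
  constructor
  · have e1 : ∑ j, w j * (κ j + B) ^ 2 = p * (A + B) ^ 2 :=
      h.eq (B ^ 2) (2 * B) 1 0 (fun j => by ring) (by ring)
    have e2 : ∑ j, w j * ((κ j + B) ^ 2 * (1 + x * κ j)) = p * (A + B) ^ 2 * (1 + x * A) :=
      h.eq (B ^ 2) (2 * B + x * B ^ 2) (1 + 2 * x * B) x (fun j => by ring) (by ring)
    have := Quad.pos hw hx (c := B) (by rw [e1]; positivity)
    rw [e2] at this
    exact (mul_pos_iff_of_pos_left (by positivity)).1 this
  · have e1 : ∑ j, w j * (κ j + -A) ^ 2 = q * (A + B) ^ 2 :=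
      h.eq (A ^ 2) (-2 * A) 1 0 (fun j => by ring) (by ring)
    have e2 : ∑ j, w j * ((κ j + -A) ^ 2 * (1 + x * κ j)) = q * (A + B) ^ 2 * (1 - x * B) :=
      h.eq (A ^ 2) (-2 * A + x * A ^ 2) (1 - 2 * x * A) x (fun j => by ring) (by ring)
    have := Quad.pos hw hx (c := -A) (by rw [e1]; positivity)
    rw [e2] at this
    exact (mul_pos_iff_of_pos_left (by positivity)).1 this

theorem Ex.key (h : Ex w κ p q A B) (hw : ∀ j, 0 ≤ w j) {s : ℝ} (hx : ∀ j, 0 < 1 + s * κ j)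
    (h1 : 0 < 1 + s * A) (h2 : 0 < 1 - s * B) :
    p / (1 + s * A) + q / (1 - s * B) ≤ ∑ j, w j * (1 + s * κ j)⁻¹ := by
  obtain ⟨α, hα⟩ : ∃ α, α = (1 + s * A - s * B) / ((1 + s * A) * (1 - s * B)) := ⟨_, rfl⟩
  obtain ⟨β, hβ⟩ : ∃ β, β = -s / ((1 + s * A) * (1 - s * B)) := ⟨_, rfl⟩
  have a1 : α + β * A = (1 + s * A)⁻¹ := by rw [hα, hβ]; field_simp; ring
  have a2 : α - β * B = (1 - s * B)⁻¹ := by rw [hα, hβ]; field_simp; ring
  have e : ∑ j, w j * (2 * (α + β * κ j) - (α + β * κ j) ^ 2 * (1 + s * κ j)) =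
      p * (2 * (α + β * A) - (α + β * A) ^ 2 * (1 + s * A)) +
        q * (2 * (α - β * B) - (α - β * B) ^ 2 * (1 - s * B)) :=
    h.eq (2 * α - α ^ 2) (2 * β - 2 * α * β - s * α ^ 2) (-β ^ 2 - 2 * s * α * β) (-s * β ^ 2)
      (fun j => by ring) (by ring)
  have e' : ∀ t : ℝ, 0 < t → 2 * t⁻¹ - t⁻¹ ^ 2 * t = t⁻¹ := fun t ht => by field_simp; ring
  rw [a1, a2, e' _ h1, e' _ h2] at e
  rw [div_eq_mul_inv, div_eq_mul_inv, ← e]
  refine Finset.sum_le_sum fun j _ => mul_le_mul_of_nonneg_left ?_ (hw j)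
  have ht := hx j
  generalize 1 + s * κ j = t at ht
  generalize α + β * κ j = l
  rw [← one_div, le_div_iff₀ ht]
  nlinarith [sq_nonneg (l * t - 1)]

theorem log_le {n a x : ℝ} (hn : ∑ j, w j = n) (hpq : p + q = n)
    (h : ∀ u ∈ Icc (0 : ℝ) 1, (∀ j, 0 < 1 + u * x * κ j) ∧ 0 < 1 + u * x * a ∧ 0 < 1 - u * x * a⁻¹ ∧
      p / (1 + u * x * a) + q / (1 - u * x * a⁻¹) ≤ ∑ j, w j * (1 + u * x * κ j)⁻¹) :
    ∑ j, w j * Real.log (1 + x * κ j) ≤ p * Real.log (1 + x * a) + q * Real.log (1 - x * a⁻¹) := by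
  have d : ∀ c u : ℝ, 0 < 1 + u * x * c →
      HasDerivAt (fun u => Real.log (1 + u * x * c)) (x * c / (1 + u * x * c)) u := fun c u hu => by
    have := (((hasDerivAt_id u).mul_const x).mul_const c).const_add 1
    simpa using this.log hu.ne'
  have D : ∀ u ∈ Icc (0 : ℝ) 1, HasDerivAt (fun u => ∑ j, w j * Real.log (1 + u * x * κ j) -
      (p * Real.log (1 + u * x * a) + q * Real.log (1 + u * x * (-a⁻¹))))
      (∑ j, w j * (x * κ j / (1 + u * x * κ j)) -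
        (p * (x * a / (1 + u * x * a)) + q * (x * (-a⁻¹) / (1 + u * x * (-a⁻¹))))) u := fun u hu =>
    (HasDerivAt.fun_sum fun j _ => (d _ u ((h u hu).1 j)).const_mul (w j)).sub
      (((d _ u (h u hu).2.1).const_mul p).add
        ((d _ u (by have := (h u hu).2.2.1; linarith)).const_mul q))
  have := antitoneOn_of_deriv_nonpos (convex_Icc (0 : ℝ) 1)
    (fun u hu => (D u hu).continuousAt.continuousWithinAt)
    (fun u hu => (D u (interior_subset hu)).differentiableAt.differentiableWithinAt)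
    (fun u hu => ?_) (left_mem_Icc.2 zero_le_one) (right_mem_Icc.2 zero_le_one) zero_le_one
  · simp only [zero_mul, add_zero, Real.log_one, mul_zero, Finset.sum_const_zero, sub_zero, one_mul,
      mul_neg, ← sub_eq_add_neg] at this
    linarith
  · obtain ⟨h1, h2, h3, h4⟩ := h u (interior_subset hu)
    rw [(D u (interior_subset hu)).deriv]
    rw [interior_Icc] at hu
    have e : ∀ c : ℝ, 0 < 1 + u * x * c → u * (x * c / (1 + u * x * c)) = 1 - (1 + u * x * c)⁻¹ :=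
      fun c hc => by field_simp; ring
    have e1 : u * ∑ j, w j * (x * κ j / (1 + u * x * κ j)) = n - ∑ j, w j * (1 + u * x * κ j)⁻¹ := by
      rw [Finset.mul_sum, ← hn, ← Finset.sum_sub_distrib]
      exact Finset.sum_congr rfl fun j _ => by linear_combination w j * e _ (h1 j)
    have e2 := e a h2
    have e3 := e (-a⁻¹) (by linarith)
    rw [div_eq_mul_inv, div_eq_mul_inv] at h4
    rw [show 1 + u * x * -a⁻¹ = 1 - u * x * a⁻¹ by ring] at e3 ⊢
    refine nonpos_of_mul_nonpos_right (a := u) ?_ hu.1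
    rw [mul_sub, e1, mul_add, mul_left_comm u p, mul_left_comm u q, e2, e3]
    linarith

end Quad

open Quad in
theorem all_quad : S_quad := by
  intro ι _ w κ n hn hw h0 h1 h2
  obtain ⟨S, hS⟩ : ∃ S, S = ∑ j, w j * κ j ^ 2 := ⟨_, rfl⟩
  obtain ⟨T, hT⟩ : ∃ T, T = ∑ j, w j * κ j ^ 3 := ⟨_, rfl⟩
  rw [← hS] at h2
  have s0 : 0 < S := hn.trans_le h2
  have s1 : 1 ≤ S / n := (one_le_div hn).2 h2
  obtain ⟨l, l1, l2⟩ : ∃ l : ℝ, 1 ≤ l ∧ l ^ 2 = S / n :=
    ⟨√(S / n), Real.one_le_sqrt.2 s1, Real.sq_sqrt (by positivity)⟩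
  obtain ⟨A, B, a0, b0, e1, e2⟩ : ∃ A B : ℝ, 0 < A ∧ 0 < B ∧ A - B = T / S ∧ A * B = l ^ 2 := by
    have r := Real.sq_sqrt (show 0 ≤ (T / S) ^ 2 + 4 * l ^ 2 by positivity)
    have r' : |T / S| < √((T / S) ^ 2 + 4 * l ^ 2) :=
      Real.lt_sqrt_of_sq_lt (by rw [sq_abs]; nlinarith)
    rw [abs_lt] at r'
    exact ⟨(√((T / S) ^ 2 + 4 * l ^ 2) + T / S) / 2, (√((T / S) ^ 2 + 4 * l ^ 2) - T / S) / 2,
      by linarith, by linarith, by ring, by linear_combination r / 4⟩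
  have l0 : 0 < l := by linarith
  have ab : 0 < A + B := by positivity
  have eS : S = n * (A * B) := by rw [e2, l2]; field_simp
  have eT : T = n * (A * B) * (A - B) := by rw [e1, ← eS]; field_simp
  have hp : 0 < n * B / (A + B) := by positivity
  have hq : 0 < n * A / (A + B) := by positivity
  have E : Ex w κ (n * B / (A + B)) (n * A / (A + B)) A B := fun c0 c1 c2 c3 => by
    have : ∑ j, w j * (c0 + c1 * κ j + c2 * κ j ^ 2 + c3 * κ j ^ 3) = c0 * ∑ j, w j +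
        c1 * ∑ j, w j * κ j + c2 * ∑ j, w j * κ j ^ 2 + c3 * ∑ j, w j * κ j ^ 3 := by
      simp only [Finset.mul_sum, ← Finset.sum_add_distrib]
      exact Finset.sum_congr rfl fun j _ => by ring
    rw [this, h0, h1, ← hS, ← hT, eS, eT]
    field_simp
    ring
  have a1 : 0 < A / l := by positivity
  have eA : A = l * (A / l) := by field_simp
  have eB : B = l * (A / l)⁻¹ := by field_simp; linarith
  have eq : n * B / (A + B) * (A / l) ^ 2 = n * A / (A + B) := by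
    rw [div_pow, ← e2]; field_simp
  have epq : n * B / (A + B) + n * A / (A + B) = n := by field_simp; ring
  generalize A / l = a at a1 eA eB eq
  have key : ∀ s : ℝ, (∀ j, 0 < 1 + s * κ j) → 0 < 1 + s * a ∧ 0 < 1 - s * a⁻¹ ∧
      n * B / (A + B) / (1 + s * a) + n * A / (A + B) / (1 - s * a⁻¹) ≤
        ∑ j, w j * (1 + s * κ j)⁻¹ := fun s hs => by
    obtain ⟨k1, k2⟩ := E.pos hw hp hq ab hs
    have k3 := E.key hw hs k1 k2
    rw [← eq] at k3 ⊢
    generalize n * B / (A + B) = p at hp k3 ⊢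
    rw [eA] at k1 k3
    rw [eB] at k2 k3
    have k4 := scale (s := -s) l1 (inv_pos.2 a1) (by linarith)
    exact ⟨scale l1 a1 k1, by linarith, (cmp hp l1 a1 k1 k2).trans k3⟩
  refine ⟨_, _, a, hp, hq, a1, epq, eq, fun x hx => ?_⟩
  rw [div_eq_mul_inv x]
  refine ⟨(key x hx).1, (key x hx).2.1, log_le h0 epq fun u hu => ?_⟩
  have : ∀ j, 0 < 1 + u * x * κ j := fun j => by
    have := hx j
    rcases le_total 0 (x * κ j) with c | c
    · nlinarith [mul_nonneg hu.1 c]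
    · nlinarith [mul_nonneg (sub_nonneg.2 hu.2) (neg_nonneg.2 c)]
  exact ⟨this, key _ this⟩

end Pool.Agent.P.MP_2b44f0_gt
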